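import Pool.Agent.K7.H79.KL.Loc

/-!
# Correlations of Kloosterman sums along two affine maps
-/

set_option autoImplicit false

namespace Pool.Agent.K7.H79.KL

open Finset
open Pool.Agent.TH375.KL
open Pool.Agent.Helper916 (Kl)

variable {p : ℕ} [hp : Fact p.Prime]

/-- the correlation of two affine maps -/
theorem corr_affine {u : ZMod p} (hu : u ≠ 0) (v : ZMod p) :
    ∑ a : ZMod p, rk p a 1 * rk p (u * a + v) 1 = p * rk p v (1 - u⁻¹) := by
  have h : ((∑ a : ZMod p, rk p a 1 * rk p (u * a + v) 1 : ℝ) : ℂ) = (p : ℂ) * (rk p v (1 - u⁻¹) : ℂ) := by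
    push_cast
    simp only [rk_eq]
    set U : Finset (ZMod p) := univ.erase 0 with hU
    have e1 : ∀ a : ZMod p, KK p a 1 * KK p (u * a + v) 1 = ∑ y ∈ U, ∑ x ∈ U,
        ZMod.stdAddChar (a * (x + u * y)) * ZMod.stdAddChar (v * y + (x⁻¹ + y⁻¹)) := by
      intro a
      unfold KK Kl
      rw [sum_mul_sum, sum_comm]
      refine sum_congr rfl fun y _ => sum_congr rfl fun x _ => ?_
      rw [← AddChar.map_add_eq_mul, ← AddChar.map_add_eq_mul]
      congr 1
      ring
    rw [sum_congr rfl fun a _ => e1 a, sum_comm]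
    have e2 : ∀ y ∈ U, ∑ a : ZMod p, ∑ x ∈ U, (ZMod.stdAddChar (a * (x + u * y)) * ZMod.stdAddChar (v * y + (x⁻¹ + y⁻¹)) : ℂ) =
        (p : ℂ) * ZMod.stdAddChar (v * y + (1 - u⁻¹) * y⁻¹) := by
      intro y hy
      have hy0 : y ≠ 0 := (mem_erase.1 hy).1
      rw [sum_comm]
      have e3 : ∀ x ∈ U, ∑ a : ZMod p, (ZMod.stdAddChar (a * (x + u * y)) * ZMod.stdAddChar (v * y + (x⁻¹ + y⁻¹)) : ℂ) =
          if x = -(u * y) then (p : ℂ) * ZMod.stdAddChar (v * y + (1 - u⁻¹) * y⁻¹) else 0 := by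
        intro x _
        rw [← sum_mul, AddChar.sum_mulShift _ (prim (p := p)), ZMod.card]
        by_cases h1 : x = -(u * y)
        · rw [if_pos h1, if_pos (by rw [h1]; ring), h1, inv_neg, mul_inv]
          congr 2
          ring
        · rw [if_neg h1, if_neg (fun h2 => h1 (by linear_combination h2)), Nat.cast_zero, zero_mul]
      rw [sum_congr rfl e3, sum_ite_eq' U (-(u * y)), if_pos (by
        rw [hU, mem_erase]
        exact ⟨neg_ne_zero.2 (mul_ne_zero hu hy0), mem_univ _⟩)]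
    rw [sum_congr rfl e2, ← mul_sum]
    rfl
  exact_mod_cast h

/-- Weil's bound for all parameters -/
theorem rk_le' {a c : ZMod p} (h : ¬ (a = 0 ∧ c = 0)) : |rk p a c| ≤ 2 * Real.sqrt p := by
  have hp1 : (1 : ℝ) ≤ p := by exact_mod_cast hp.out.one_lt.le
  have ht1 : 1 ≤ Real.sqrt p := by rw [Real.one_le_sqrt]; exact hp1
  by_cases hc : c = 0
  · have ha : a ≠ 0 := fun ha => h ⟨ha, hc⟩
    have h1 : rk p a c = -1 := by
      unfold rk
      rw [hc, KK_zero_right ha]
      simp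
    rw [h1, abs_neg, abs_one]
    linarith
  · rw [rk_dil a hc]
    by_cases ha : a = 0
    · rw [ha, zero_mul, rk_zero_one, abs_neg, abs_one]
      linarith
    · exact rk_le (mul_ne_zero ha hc)

/-- `cos θ` as a function on the residues, `0` at `0` -/
noncomputable def cz (z : ZMod p) : ℝ := if z = 0 then 0 else rk p z 1 / (2 * Real.sqrt p)

theorem cz_le (z : ZMod p) : |cz z| ≤ 1 := by
  unfold cz
  split_ifs with h
  · rw [abs_zero]
    norm_num
  · have hs := sq_pos' (p := p)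
    rw [abs_div, abs_of_pos (by positivity : 0 < 2 * Real.sqrt p), div_le_one (by positivity)]
    exact rk_le h

theorem U_zero_le (j : ℕ) (hj : j ≤ 4) : |(Polynomial.Chebyshev.U ℝ (j : ℤ)).eval (0 : ℝ)| ≤ 70 :=
  U_le j hj (by rw [abs_zero]; exact zero_le_one)

theorem sum_aff {α β : ZMod p} (hα : α ≠ 0) (f : ZMod p → ℝ) : ∑ z : ZMod p, f (α * z + β) = ∑ z : ZMod p, f z := by
  refine sum_nbij' (fun z => α * z + β) (fun z => α⁻¹ * (z - β)) (fun _ _ => mem_univ _) (fun _ _ => mem_univ _) ?_ ?_ ?_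
  · intro z _
    field_simp
    ring
  · intro z _
    field_simp
    ring
  · intro z _
    rfl

end Pool.Agent.K7.H79.KL
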