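import Pool.Agent.K7.H79.KL.TupP

/-!
# All boxes for families of functions with few values at tuples of consecutive primes
-/

set_option autoImplicit false

namespace Pool.Agent.K7.H79.KL

open Finset Filter
open Pool.Agent.TH894.NE (mean Pr box Pr_nonneg Pr_le_one)
open Pool.Agent.TH894.NF (pr pr_prime pr_inj)
open Pool.Agent.Y57.FD (exceptions digit)

theorem prod_diff {ι : Type*} (I : Finset ι) (x y : ι → ℝ) (hx0 : ∀ i ∈ I, 0 ≤ x i) (hx1 : ∀ i ∈ I, x i ≤ 1)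
    (hy0 : ∀ i ∈ I, 0 ≤ y i) (hy1 : ∀ i ∈ I, y i ≤ 1) : |∏ i ∈ I, x i - ∏ i ∈ I, y i| ≤ ∑ i ∈ I, |x i - y i| := by
  classical
  induction I using Finset.induction_on with
  | empty => simp
  | insert a I ha ih =>
    rw [prod_insert ha, prod_insert ha, sum_insert ha]
    have h1 := ih (fun i hi => hx0 i (mem_insert_of_mem hi)) (fun i hi => hx1 i (mem_insert_of_mem hi))
      (fun i hi => hy0 i (mem_insert_of_mem hi)) (fun i hi => hy1 i (mem_insert_of_mem hi))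
    have e : x a * ∏ i ∈ I, x i - y a * ∏ i ∈ I, y i = (x a - y a) * ∏ i ∈ I, x i + y a * (∏ i ∈ I, x i - ∏ i ∈ I, y i) := by ring
    rw [e]
    refine (abs_add_le _ _).trans (add_le_add ?_ ?_)
    · rw [abs_mul]
      apply mul_le_of_le_one_right (abs_nonneg _)
      rw [abs_of_nonneg (prod_nonneg fun i hi => hx0 i (mem_insert_of_mem hi))]
      exact prod_le_one (fun i hi => hx0 i (mem_insert_of_mem hi)) (fun i hi => hx1 i (mem_insert_of_mem hi))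
    · rw [abs_mul, abs_of_nonneg (hy0 a (mem_insert_self _ _))]
      exact (mul_le_of_le_one_left (abs_nonneg _) (hy1 a (mem_insert_self _ _))).trans h1

/-- rounding of a threshold to a finite set of values -/
theorem round (W : Finset ℝ) (top : ℝ) (htop : ∀ w ∈ W, w < top) (u : ℝ) : ∃ u' ∈ insert top W, ∀ t ∈ W, (u ≤ t ↔ u' ≤ t) := by
  classical
  by_cases h : ((insert top W).filter (fun w => u ≤ w)).Nonempty
  · refine ⟨((insert top W).filter (fun w => u ≤ w)).min' h, ?_, ?_⟩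
    · exact (mem_filter.1 (min'_mem _ h)).1
    · intro t ht
      constructor
      · intro h1
        exact min'_le _ _ (mem_filter.2 ⟨mem_insert_of_mem ht, h1⟩)
      · intro h1
        exact (mem_filter.1 (min'_mem _ h)).2.trans h1
  · refine ⟨top, mem_insert_self _ _, ?_⟩
    intro t ht
    constructor
    · intro h1
      exact absurd ⟨t, mem_filter.2 ⟨mem_insert_of_mem ht, h1⟩⟩ h
    · intro h1
      exact absurd h1 (not_le.2 (htop t ht))

/-- the condition that a function has its value in an interval -/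
def inI {d s : ℕ} (a : Fin s → ℕ → (Fin d → ℕ) → ℝ) (u v : Fin s → ℝ) : Fin s → ℕ → (Fin d → ℕ) → Prop :=
  fun i p m => u i ≤ a i p m ∧ a i p m < v i

theorem cntT_congr {d s : ℕ} (T T' : Fin s → ℕ → (Fin d → ℕ) → Prop) (n : ℕ) (m : Fin d → ℕ)
    (h : ∀ k < n, ∀ i : Fin s, T i (pr (k + i)) m ↔ T' i (pr (k + i)) m) : cntT T n m = cntT T' n m := by
  classical
  unfold cntT
  congr 1
  ext k
  rw [mem_filter, mem_filter, mem_range]
  constructor
  · rintro ⟨hk, h1⟩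
    exact ⟨hk, fun i => (h k hk i).1 (h1 i)⟩
  · rintro ⟨hk, h1⟩
    exact ⟨hk, fun i => (h k hk i).2 (h1 i)⟩

theorem modT_congr {d s : ℕ} (T T' : Fin s → ℕ → (Fin d → ℕ) → Prop) (n : ℕ)
    (h : ∀ k < n, ∀ i : Fin s, ∀ m, T i (pr (k + i)) m ↔ T' i (pr (k + i)) m) : modT T n = modT T' n := by
  unfold modT
  refine sum_congr rfl fun k hk => ?_
  rw [mem_range] at hk
  refine prod_congr rfl fun i _ => ?_
  congr 1
  funext m
  exact propext (h k hk i m)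

/-- **All boxes.** -/
theorem boxesF (b d s : ℕ) (hb : 2 ≤ b) (hd : 1 ≤ d) (hs : 1 ≤ s) (δ : ℝ) (hδ : 0 < δ) (A A₂ A₄ : ℕ) : ∃ c : ℝ, 0 < c ∧ ∃ y₀ : ℕ,
    ∀ (K r : Fin d → ℕ) (y : ℕ), (∀ l, 2 * r l ≤ K l) → y₀ ≤ y →
    ∀ N : Fin d → ℕ, (∀ l, N l < b ^ K l) → ∀ f : Fin d → ℕ → ℕ, (∀ l j, f l j < b ∧ f l j ≠ digit b j (N l)) →
    ∀ (κ : Type) (Λ : ℕ → Finset κ), (∀ n, 2 ≤ n → (Λ n).card ≤ n ^ A₂) →
    ∀ a : κ → Fin s → ℕ → (Fin d → ℕ) → ℝ, (∀ l i p, p.Prime → ∀ m, a l i p m = a l i p (fun j => m j % p)) →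
    ∀ W : ℕ → Finset ℝ, (∀ n, 2 ≤ n → (W n).card + 1 ≤ n ^ A₄) →
    (∀ n, ∀ l ∈ Λ n, ∀ i : Fin s, ∀ k < n, ∀ m, a l i (pr (k + i)) m ∈ W n) →
    ∀ E : (Fin d → ℕ) → Prop,
    (∀ m : Fin d → ℕ, (∀ n : ℕ, 2 ≤ n → y ≤ n → (∀ l, (n : ℝ) ≤ Real.exp (c * r l)) → ∀ l ∈ Λ n, ∀ u v : Fin s → ℝ,
      |(cntT (inI (a l) u v) n m : ℝ) - modT (inI (a l) u v) n| ≤ (n : ℝ) ^ (1 / 2 + δ)) → E m) →
    (exceptions b K r N f E : ℝ) ≤ 1 / (y : ℝ) ^ A * ∏ l, ((K l).choose (r l) : ℝ) := by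
  classical
  obtain ⟨c, hc, y₁, h⟩ := tuplesB b d s hb hd hs δ hδ A (A₂ + s * (2 * A₄))
  refine ⟨c, hc, y₁ + 2, fun K r y hrK hy N hN f hf κ Λ hΛ a ha W hW hWm E hE => ?_⟩
  obtain ⟨top, htop⟩ : ∃ top : ℕ → ℝ, top = fun n => 1 + ∑ w ∈ W n, |w| := ⟨_, rfl⟩
  have htop1 : ∀ n, ∀ w ∈ W n, w < top n := by
    intro n w hw
    rw [htop]
    have h1 : |w| ≤ ∑ w ∈ W n, |w| := single_le_sum (f := fun w : ℝ => |w|) (fun _ _ => abs_nonneg _) hw
    have h2 := le_abs_self w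
    show w < 1 + ∑ w ∈ W n, |w|
    linarith
  refine h K r y hrK (by omega) N hN f hf (κ × (Fin s → ℝ × ℝ))
    (fun n => Λ n ×ˢ Fintype.piFinset (fun _ : Fin s => (insert (top n) (W n)) ×ˢ (insert (top n) (W n)))) ?_
    (fun l => inI (a l.1) (fun i => (l.2 i).1) (fun i => (l.2 i).2)) ?_ E ?_
  · intro n hn
    rw [card_product, Fintype.card_piFinset_const, card_product, pow_add]
    apply Nat.mul_le_mul (hΛ n hn)
    have h1 : (insert (top n) (W n)).card ≤ n ^ A₄ := (card_insert_le _ _).trans (hW n hn)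
    calc ((insert (top n) (W n)).card * (insert (top n) (W n)).card) ^ s ≤ (n ^ A₄ * n ^ A₄) ^ s :=
          Nat.pow_le_pow_left (Nat.mul_le_mul h1 h1) s
      _ = n ^ (s * (2 * A₄)) := by
          rw [← pow_add, ← pow_mul]
          congr 1
          ring
  · intro l i p hp m
    unfold inI
    rw [← ha l.1 i p hp m]
  · intro m hm
    refine hE m fun n hn hyn hnr l hl u v => ?_
    have hr : ∀ i : Fin s, ∃ w : ℝ × ℝ, w ∈ (insert (top n) (W n)) ×ˢ (insert (top n) (W n)) ∧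
        ∀ t ∈ W n, (u i ≤ t ∧ t < v i) ↔ (w.1 ≤ t ∧ t < w.2) := by
      intro i
      obtain ⟨u', hu', hu2⟩ := round (W n) (top n) (htop1 n) (u i)
      obtain ⟨v', hv', hv2⟩ := round (W n) (top n) (htop1 n) (v i)
      refine ⟨(u', v'), mem_product.2 ⟨hu', hv'⟩, fun t ht => ?_⟩
      have h1 := hu2 t ht
      have h2 := hv2 t ht
      constructor
      · rintro ⟨h3, h4⟩
        exact ⟨h1.1 h3, not_le.1 fun h5 => absurd (h2.2 h5) (not_le.2 h4)⟩
      · rintro ⟨h3, h4⟩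
        exact ⟨h1.2 h3, not_le.1 fun h5 => absurd (h2.1 h5) (not_le.2 h4)⟩
    choose w hw hw2 using hr
    have h1 := hm n hn hyn hnr (l, w) (mem_product.2 ⟨hl, Fintype.mem_piFinset.2 hw⟩)
    have hT : ∀ k < n, ∀ i : Fin s, ∀ m, inI (a l) u v i (pr (k + i)) m ↔
        inI (a l) (fun i => (w i).1) (fun i => (w i).2) i (pr (k + i)) m := by
      intro k hk i m
      unfold inI
      exact hw2 i _ (hWm n l hl i k hk m)
    rw [cntT_congr _ _ n m (fun k hk i => hT k hk i m), modT_congr _ _ n hT]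
    exact h1

/-- sums of the inverses of primes -/
theorem sum_inv_pr (n i : ℕ) : ∑ k ∈ range n, 1 / (pr (k + i) : ℝ) ≤ 1 + Real.log n := by
  have h9 := harmonic_le_one_add_log n
  have h10 : ((harmonic n : ℚ) : ℝ) = ∑ k ∈ range n, ((k : ℝ) + 1)⁻¹ := by
    unfold harmonic
    push_cast
    rfl
  rw [h10] at h9
  refine le_trans (sum_le_sum fun k _ => ?_) h9
  rw [one_div]
  apply inv_anti₀ (by positivity)
  have := Pool.Agent.Y57.FD.le_pr (k + i)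
  exact_mod_cast (by omega : k + 1 ≤ pr (k + i))

/-- **All boxes, with a model.** -/
theorem boxesM (b d s : ℕ) (hb : 2 ≤ b) (hd : 1 ≤ d) (hs : 1 ≤ s) (δ : ℝ) (hδ : 0 < δ) (A A₂ A₃ A₄ : ℕ) (C : ℝ) (hC : 0 ≤ C) :
    ∃ c : ℝ, 0 < c ∧ ∃ y₀ : ℕ,
    ∀ (K r : Fin d → ℕ) (y : ℕ), (∀ l, 2 * r l ≤ K l) → y₀ ≤ y →
    ∀ N : Fin d → ℕ, (∀ l, N l < b ^ K l) → ∀ f : Fin d → ℕ → ℕ, (∀ l j, f l j < b ∧ f l j ≠ digit b j (N l)) →
    ∀ (κ : Type) (Λ : ℕ → Finset κ), (∀ n, 2 ≤ n → (Λ n).card ≤ n ^ A₂) →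
    ∀ a : κ → Fin s → ℕ → (Fin d → ℕ) → ℝ, (∀ l i p, p.Prime → ∀ m, a l i p m = a l i p (fun j => m j % p)) →
    ∀ W : ℕ → Finset ℝ, (∀ n, 2 ≤ n → (W n).card + 1 ≤ n ^ A₄) →
    (∀ n, ∀ l ∈ Λ n, ∀ i : Fin s, ∀ k < n, ∀ m, a l i (pr (k + i)) m ∈ W n) →
    ∀ q : ℕ → ℝ → ℝ → ℝ, (∀ p u v, 0 ≤ q p u v ∧ q p u v ≤ 1) →
    (∀ n, 2 ≤ n → ∀ l ∈ Λ n, ∃ D : ℕ, 0 < D ∧ D ≤ n ^ A₃ ∧ ∀ (i : Fin s) (p : ℕ), p.Prime → ¬ p ∣ D → ∀ u v : Fin s → ℝ,
      |Pr d p (inI (a l) u v i p) - q p (u i) (v i)| ≤ C / p) →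
    ∀ E : (Fin d → ℕ) → Prop,
    (∀ m : Fin d → ℕ, (∀ n : ℕ, 2 ≤ n → y ≤ n → (∀ l, (n : ℝ) ≤ Real.exp (c * r l)) → ∀ l ∈ Λ n, ∀ u v : Fin s → ℝ,
      |(cntT (inI (a l) u v) n m : ℝ) - ∑ k ∈ range n, ∏ i : Fin s, q (pr (k + i)) (u i) (v i)| ≤ (n : ℝ) ^ (1 / 2 + δ)) → E m) →
    (exceptions b K r N f E : ℝ) ≤ 1 / (y : ℝ) ^ A * ∏ l, ((K l).choose (r l) : ℝ) := by
  classical
  obtain ⟨c, hc, y₁, h⟩ := boxesF b d s hb hd hs (δ / 2) (by positivity) A A₂ A₄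
  have hev : ∀ᶠ n : ℕ in atTop, (2 : ℝ) ≤ (n : ℝ) ^ (δ / 2) := by
    have h1 : Tendsto (fun x : ℝ => x ^ (δ / 2)) atTop atTop := tendsto_rpow_atTop (by positivity)
    exact (h1.comp tendsto_natCast_atTop_atTop).eventually (eventually_ge_atTop _)
  have hev2 := log_small A₃ (4 * s) (1 / 2) (by norm_num)
  have hev3 := log_small 1 (4 * s * C) (1 / 2) (by norm_num)
  have hev4 : ∀ᶠ n : ℕ in atTop, (4 * s * C : ℝ) ≤ (n : ℝ) ^ (1 / 2 : ℝ) := by
    have h1 : Tendsto (fun x : ℝ => x ^ (1 / 2 : ℝ)) atTop atTop := tendsto_rpow_atTop (by norm_num)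
    exact (h1.comp tendsto_natCast_atTop_atTop).eventually (eventually_ge_atTop _)
  obtain ⟨n₁, hn₁⟩ := eventually_atTop.1 (hev.and (hev2.and (hev3.and hev4)))
  refine ⟨c, hc, y₁ + n₁ + 2, fun K r y hrK hy N hN f hf κ Λ hΛ a ha W hW hWm q hq hqa E hE => ?_⟩
  refine h K r y hrK (by omega) N hN f hf κ Λ hΛ a ha W hW hWm E ?_
  intro m hm
  refine hE m fun n hn hyn hnr l hl u v => ?_
  have h1 := hm n hn hyn hnr l hl u v
  obtain ⟨D, hD0, hDn, hD⟩ := hqa n hn l hl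
  have hn0 : (0 : ℝ) < n := by exact_mod_cast (by omega : 0 < n)
  have hn1 : (1 : ℝ) ≤ n := by exact_mod_cast (by omega : 1 ≤ n)
  obtain ⟨hn3, hn4, hn5, hn6⟩ := hn₁ n (by omega)
  have hmod : |modT (inI (a l) u v) n - ∑ k ∈ range n, ∏ i : Fin s, q (pr (k + i)) (u i) (v i)| ≤
      s * (A₃ * (Real.log n / Real.log 2)) + s * C * (1 + Real.log n) := by
    unfold modT
    rw [← sum_sub_distrib]
    refine (abs_sum_le_sum_abs _ _).trans ?_
    have h2 : ∀ k ∈ range n, |∏ i : Fin s, Pr d (pr (k + i)) (inI (a l) u v i (pr (k + i))) - ∏ i : Fin s, q (pr (k + i)) (u i) (v i)| ≤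
        (if ∃ i : Fin s, pr (k + i) ∣ D then 1 else 0) + ∑ i : Fin s, C * (1 / (pr (k + i) : ℝ)) := by
      intro k _
      have h3 : (0 : ℝ) ≤ ∑ i : Fin s, C * (1 / (pr (k + i) : ℝ)) := sum_nonneg fun i _ => by positivity
      by_cases hk : ∃ i : Fin s, pr (k + i) ∣ D
      · rw [if_pos hk]
        have h4 : 0 ≤ ∏ i : Fin s, Pr d (pr (k + i)) (inI (a l) u v i (pr (k + i))) := prod_nonneg fun _ _ => Pr_nonneg _ _ _
        have h5 : ∏ i : Fin s, Pr d (pr (k + i)) (inI (a l) u v i (pr (k + i))) ≤ 1 :=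
          prod_le_one (fun _ _ => Pr_nonneg _ _ _) (fun _ _ => Pr_le_one _ _ _)
        have h6 : 0 ≤ ∏ i : Fin s, q (pr (k + i)) (u i) (v i) := prod_nonneg fun _ _ => (hq _ _ _).1
        have h7 : ∏ i : Fin s, q (pr (k + i)) (u i) (v i) ≤ 1 := prod_le_one (fun _ _ => (hq _ _ _).1) (fun _ _ => (hq _ _ _).2)
        have h8 : |∏ i : Fin s, Pr d (pr (k + i)) (inI (a l) u v i (pr (k + i))) - ∏ i : Fin s, q (pr (k + i)) (u i) (v i)| ≤ 1 := by
          rw [abs_le]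
          constructor <;> linarith
        linarith
      · rw [if_neg hk, zero_add]
        refine (prod_diff univ _ _ (fun _ _ => Pr_nonneg _ _ _) (fun _ _ => Pr_le_one _ _ _) (fun _ _ => (hq _ _ _).1)
          (fun _ _ => (hq _ _ _).2)).trans ?_
        refine sum_le_sum fun i _ => ?_
        refine (hD i (pr (k + i)) (pr_prime _) (fun h4 => hk ⟨i, h4⟩) u v).trans (le_of_eq ?_)
        rw [mul_one_div]
    refine (sum_le_sum h2).trans ?_
    rw [sum_add_distrib]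
    apply add_le_add
    · rw [← sum_filter, sum_const, nsmul_eq_mul, mul_one]
      exact card_any_le n s D A₃ hD0 hDn
    · rw [sum_comm]
      calc ∑ i : Fin s, ∑ k ∈ range n, C * (1 / (pr (k + i) : ℝ)) ≤ ∑ _i : Fin s, C * (1 + Real.log n) := by
            refine sum_le_sum fun i _ => ?_
            rw [← mul_sum]
            exact mul_le_mul_of_nonneg_left (sum_inv_pr n i) hC
        _ = s * C * (1 + Real.log n) := by
            rw [sum_const, card_univ, Fintype.card_fin, nsmul_eq_mul]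
            ring
  have hhalf : (n : ℝ) ^ (1 / 2 : ℝ) ≤ (n : ℝ) ^ (1 / 2 + δ / 2) := Real.rpow_le_rpow_of_exponent_le hn1 (by linarith)
  have hlog0 : 0 ≤ Real.log n := Real.log_nonneg hn1
  have hl2 : 0 < Real.log 2 := Real.log_pos (by norm_num)
  have hl2' : Real.log 2 ≤ 1 := by
    have := Real.log_le_sub_one_of_pos (show (0 : ℝ) < 2 by norm_num)
    linarith
  have g1 : (s : ℝ) * (A₃ * (Real.log n / Real.log 2)) ≤ 1 / 4 * (n : ℝ) ^ (1 / 2 : ℝ) := by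
    have e : 4 * (s : ℝ) * A₃ * (Real.log n / Real.log 2) = 4 * (s * (A₃ * (Real.log n / Real.log 2))) := by ring
    rw [e] at hn4
    linarith
  have g2 : s * C * (1 + Real.log n) ≤ 1 / 2 * (n : ℝ) ^ (1 / 2 : ℝ) := by
    have h2 : Real.log n ≤ Real.log n / Real.log 2 := by
      rw [le_div_iff₀ hl2]
      nlinarith
    have hsC : 0 ≤ (s : ℝ) * C := by positivity
    have h3 : 4 * (s * C * Real.log n) ≤ (n : ℝ) ^ (1 / 2 : ℝ) := by
      refine le_trans ?_ hn5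
      calc 4 * (s * C * Real.log n) = 4 * (s * C) * Real.log n := by ring
        _ ≤ 4 * (s * C) * (Real.log n / Real.log 2) := mul_le_mul_of_nonneg_left h2 (by positivity)
        _ = 4 * s * C * (1 : ℕ) * (Real.log n / Real.log 2) := by push_cast; ring
    have e : s * C * (1 + Real.log n) = s * C + s * C * Real.log n := by ring
    rw [e]
    have e2 : 4 * s * C = 4 * (s * C) := by ring
    rw [e2] at hn6
    linarith
  have h3 := abs_add_le ((cntT (inI (a l) u v) n m : ℝ) - modT (inI (a l) u v) n)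
    (modT (inI (a l) u v) n - ∑ k ∈ range n, ∏ i : Fin s, q (pr (k + i)) (u i) (v i))
  rw [sub_add_sub_cancel] at h3
  have e1 : (n : ℝ) ^ (1 / 2 + δ) = (n : ℝ) ^ (1 / 2 + δ / 2) * (n : ℝ) ^ (δ / 2) := by
    rw [← Real.rpow_add hn0]
    congr 1
    ring
  rw [e1]
  have h4 : 0 < (n : ℝ) ^ (1 / 2 + δ / 2) := Real.rpow_pos_of_pos hn0 _
  nlinarith

end Pool.Agent.K7.H79.KL
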