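import Pool.Agent.Y57.FD.Tup0

/-!
# Square-root cancellation over tuples of consecutive primes, with few exceptional primes
-/

set_option autoImplicit false

namespace Pool.Agent.K7.H79.KL

open Finset Filter
open Pool.Agent.TH894.NE (mean)
open Pool.Agent.TH894.NF (pr pr_prime pr_inj)
open Pool.Agent.Y57.FD (exceptions digit)

/-- the number of the indices whose primes divide a positive integer -/
theorem card_dvd (n i D : ℕ) (hD : 0 < D) : 2 ^ ((range n).filter (fun k => pr (k + i) ∣ D)).card ≤ D := by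
  have h1 : ((range n).filter (fun k => pr (k + i) ∣ D)).card = (((range n).filter (fun k => pr (k + i) ∣ D)).image (fun k => pr (k + i))).card := by
    rw [card_image_of_injective]
    intro a a' h
    have := pr_inj h
    omega
  have h2 : ((range n).filter (fun k => pr (k + i) ∣ D)).image (fun k => pr (k + i)) ⊆ D.primeFactors := by
    intro p hp
    rw [mem_image] at hp
    obtain ⟨k, hk, rfl⟩ := hp
    rw [mem_filter] at hk
    rw [Nat.mem_primeFactors]
    exact ⟨pr_prime _, hk.2, hD.ne'⟩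
  have h3 : 2 ^ D.primeFactors.card ≤ D := by
    calc 2 ^ D.primeFactors.card = ∏ _p ∈ D.primeFactors, 2 := by rw [prod_const]
      _ ≤ ∏ p ∈ D.primeFactors, p := prod_le_prod' fun p hp => (Nat.prime_of_mem_primeFactors hp).two_le
      _ ≤ D := Nat.le_of_dvd hD (Nat.prod_primeFactors_dvd D)
  calc 2 ^ ((range n).filter (fun k => pr (k + i) ∣ D)).card ≤ 2 ^ D.primeFactors.card := by
        rw [h1]
        exact Nat.pow_le_pow_right (by norm_num) (card_le_card h2)
    _ ≤ D := h3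

theorem tuplesD (b d s : ℕ) (hb : 2 ≤ b) (hd : 1 ≤ d) (hs : 1 ≤ s) (δ : ℝ) (hδ : 0 < δ) (A A₂ A₃ : ℕ) (B C₀ : ℝ)
    (hB : 1 ≤ B) (hC₀ : 0 ≤ C₀) : ∃ c : ℝ, 0 < c ∧ ∃ y₀ : ℕ,
    ∀ (K r : Fin d → ℕ) (y : ℕ), (∀ l, 2 * r l ≤ K l) → y₀ ≤ y →
    ∀ N : Fin d → ℕ, (∀ l, N l < b ^ K l) → ∀ f : Fin d → ℕ → ℕ, (∀ l j, f l j < b ∧ f l j ≠ digit b j (N l)) →
    ∀ (κ : Type) (Λ : ℕ → Finset κ), (∀ n, 2 ≤ n → (Λ n).card ≤ n ^ A₂) →
    ∀ w : κ → ℕ → ℝ, (∀ n, ∀ l ∈ Λ n, ∀ k, |w l k| ≤ 1) →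
    ∀ H : κ → Fin s → ℕ → (Fin d → ℕ) → ℝ, (∀ l i p, p.Prime → ∀ m, H l i p m = H l i p (fun j => m j % p)) →
    (∀ l i p, p.Prime → ∀ m, |H l i p m| ≤ B) →
    (∀ n, 2 ≤ n → ∀ l ∈ Λ n, ∃ i : Fin s, ∃ D : ℕ, 0 < D ∧ D ≤ n ^ A₃ ∧ ∀ p, p.Prime → ¬ p ∣ D →
      |mean d p (H l i p)| ≤ C₀ / Real.sqrt p) →
    ∀ E : (Fin d → ℕ) → Prop,
    (∀ m : Fin d → ℕ, (∀ n : ℕ, 2 ≤ n → y ≤ n → (∀ l, (n : ℝ) ≤ Real.exp (c * r l)) → ∀ l ∈ Λ n,
      |∑ k ∈ range n, w l k * ∏ i : Fin s, H l i (pr (k + i)) m| ≤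
        Real.sqrt (max 1 (∑ k ∈ range n, w l k ^ 2)) * (n : ℝ) ^ δ) → E m) →
    (exceptions b K r N f E : ℝ) ≤ 1 / (y : ℝ) ^ A * ∏ l, ((K l).choose (r l) : ℝ) := by
  classical
  have hB0 : 0 < B := by linarith
  obtain ⟨c, hc, y₁, h⟩ := Pool.Agent.Y57.FD.tuples0 b d s hb hd hs (δ / 2) (by positivity) A A₂ B C₀ hB hC₀
  have hev : ∀ᶠ n : ℕ in atTop, 1 + B ^ s * A₃ * (Real.log n / Real.log 2) ≤ (n : ℝ) ^ (δ / 2) := by
    have h1 : Tendsto (fun x : ℝ => x ^ (δ / 4)) atTop atTop := tendsto_rpow_atTop (by positivity)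
    have h2 : ∀ᶠ x : ℝ in atTop, 1 + B ^ s * A₃ / Real.log 2 ≤ x ^ (δ / 4) := h1.eventually (eventually_ge_atTop _)
    have h3 : ∀ᶠ x : ℝ in atTop, Real.log x ≤ x ^ (δ / 4) := by
      have h4 := (isLittleO_log_rpow_atTop (show (0 : ℝ) < δ / 4 by positivity)).bound (show (0 : ℝ) < 1 by norm_num)
      filter_upwards [h4, eventually_ge_atTop 1] with x hx hx1
      rw [Real.norm_of_nonneg (Real.log_nonneg hx1), Real.norm_of_nonneg (by positivity), one_mul] at hx
      exact hx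
    have h5 : ∀ᶠ x : ℝ in atTop, (1 : ℝ) ≤ x ^ (δ / 4) := h1.eventually (eventually_ge_atTop _)
    have h6 : ∀ᶠ x : ℝ in atTop, 1 + B ^ s * A₃ * (Real.log x / Real.log 2) ≤ x ^ (δ / 2) := by
      filter_upwards [h2, h3, h5, eventually_ge_atTop 1] with x hx1 hx2 hx3 hx4
      have h9 : x ^ (δ / 2) = x ^ (δ / 4) * x ^ (δ / 4) := by
        rw [← Real.rpow_add (by linarith)]
        congr 1
        ring
      have hl2 : 0 < Real.log 2 := Real.log_pos (by norm_num)
      rw [h9]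
      calc 1 + B ^ s * A₃ * (Real.log x / Real.log 2) = 1 + (B ^ s * A₃ / Real.log 2) * Real.log x := by ring
        _ ≤ x ^ (δ / 4) + (B ^ s * A₃ / Real.log 2) * x ^ (δ / 4) := by gcongr
        _ = (1 + B ^ s * A₃ / Real.log 2) * x ^ (δ / 4) := by ring
        _ ≤ _ := mul_le_mul_of_nonneg_right hx1 (by linarith)
    exact tendsto_natCast_atTop_atTop.eventually h6
  obtain ⟨n₁, hn₁⟩ := eventually_atTop.1 hev
  refine ⟨c, hc, y₁ + n₁ + 2, fun K r y hrK hy N hN f hf κ Λ hΛ w hw H hper hHB hmean E hE => ?_⟩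
  have hch : ∀ (n : ℕ) (l : κ), ∃ q : Fin s × ℕ, 0 < q.2 ∧ (2 ≤ n → l ∈ Λ n → q.2 ≤ n ^ A₃ ∧ ∀ p, p.Prime → ¬ p ∣ q.2 →
      |mean d p (H l q.1 p)| ≤ C₀ / Real.sqrt p) := by
    intro n l
    by_cases hn : 2 ≤ n ∧ l ∈ Λ n
    · obtain ⟨i, D, hD0, hD1, hD2⟩ := hmean n hn.1 l hn.2
      exact ⟨(i, D), hD0, fun _ _ => ⟨hD1, hD2⟩⟩
    · exact ⟨(⟨0, by omega⟩, 1), one_pos, fun h1 h2 => absurd ⟨h1, h2⟩ hn⟩
  choose q hq0 hq using hch
  obtain ⟨H', hH'⟩ : ∃ H' : ℕ × κ → Fin s → ℕ → (Fin d → ℕ) → ℝ, H' = fun l i p m =>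
    if i = (q l.1 l.2).1 ∧ p ∣ (q l.1 l.2).2 then 0 else H l.2 i p m := ⟨_, rfl⟩
  have hH1 : ∀ l i p, ∀ m, H' l i p m = if i = (q l.1 l.2).1 ∧ p ∣ (q l.1 l.2).2 then 0 else H l.2 i p m := by
    intro l i p m
    rw [hH']
  refine h K r y hrK (by omega) N hN f hf (ℕ × κ) (fun n => if 2 ≤ n then (Λ n).image (fun l => (n, l)) else ∅) ?_
    (fun l => w l.2) ?_ H' ?_ ?_ ?_ E ?_
  · intro n hn
    show (if 2 ≤ n then (Λ n).image (fun l => (n, l)) else ∅).card ≤ _
    rw [if_pos hn]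
    exact card_image_le.trans (hΛ n hn)
  · intro n l hl k
    change l ∈ (if 2 ≤ n then (Λ n).image (fun l => (n, l)) else ∅) at hl
    split_ifs at hl with hn
    · rw [mem_image] at hl
      obtain ⟨l', hl', rfl⟩ := hl
      exact hw n l' hl' k
    · exact absurd hl (notMem_empty _)
  · intro l i p hp m
    rw [hH1, hH1, ← hper l.2 i p hp m]
  · intro l i p hp m
    rw [hH1]
    split_ifs
    · rw [abs_zero]
      exact hB0.le
    · exact hHB _ _ _ hp _
  · intro n l hl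
    change l ∈ (if 2 ≤ n then (Λ n).image (fun l => (n, l)) else ∅) at hl
    split_ifs at hl with hn
    · rw [mem_image] at hl
      obtain ⟨l', hl', rfl⟩ := hl
      refine ⟨(q n l').1, fun p hp => ?_⟩
      by_cases hpD : p ∣ (q n l').2
      · have e : H' (n, l') (q n l').1 p = fun _ => 0 := by
          funext m
          rw [hH1]
          exact if_pos ⟨rfl, hpD⟩
        rw [e]
        have : mean d p (fun _ => (0 : ℝ)) = 0 := by
          unfold mean
          rw [sum_const_zero, mul_zero]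
        rw [this, abs_zero]
        positivity
      · have e : H' (n, l') (q n l').1 p = H l' (q n l').1 p := by
          funext m
          rw [hH1]
          exact if_neg (fun h => hpD h.2)
        rw [e]
        exact (hq n l' hn hl').2 p hp hpD
    · exact absurd hl (notMem_empty _)
  · intro m hm
    refine hE m fun n hn2 hyn hnr l hl => ?_
    have h1 := hm n hn2 hyn hnr (n, l) (by
      show (n, l) ∈ (if 2 ≤ n then (Λ n).image (fun l => (n, l)) else ∅)
      rw [if_pos hn2, mem_image]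
      exact ⟨l, hl, rfl⟩)
    have h1' : |∑ k ∈ range n, w l k * ∏ i : Fin s, H' (n, l) i (pr (k + i)) m| ≤
        Real.sqrt (max 1 (∑ k ∈ range n, w l k ^ 2)) * (n : ℝ) ^ (δ / 2) := h1
    have hn0 : (0 : ℝ) < n := by exact_mod_cast (by omega : 0 < n)
    have hn1 : (1 : ℝ) ≤ n := by exact_mod_cast (by omega : 1 ≤ n)
    obtain ⟨i₀, hi₀⟩ : ∃ i₀ : Fin s, i₀ = (q n l).1 := ⟨_, rfl⟩
    obtain ⟨D, hD⟩ : ∃ D : ℕ, D = (q n l).2 := ⟨_, rfl⟩
    have hD0 : 0 < D := by rw [hD]; exact hq0 n l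
    have hDn : D ≤ n ^ A₃ := by rw [hD]; exact (hq n l hn2 hl).1
    have hpb : ∀ G : Fin s → ℝ, (∀ i, |G i| ≤ B) → |∏ i : Fin s, G i| ≤ B ^ s := by
      intro G hG
      rw [abs_prod]
      calc ∏ i : Fin s, |G i| ≤ ∏ _i : Fin s, B := prod_le_prod (fun i _ => abs_nonneg _) (fun i _ => hG i)
        _ = B ^ s := by rw [prod_const, card_univ, Fintype.card_fin]
    have hdiff : |∑ k ∈ range n, w l k * ∏ i : Fin s, H l i (pr (k + i)) m -
        ∑ k ∈ range n, w l k * ∏ i : Fin s, H' (n, l) i (pr (k + i)) m| ≤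
        B ^ s * ((range n).filter (fun k => pr (k + i₀) ∣ D)).card := by
      rw [← sum_sub_distrib]
      refine (abs_sum_le_sum_abs _ _).trans ?_
      have hk : ∀ k ∈ range n, |w l k * ∏ i : Fin s, H l i (pr (k + i)) m - w l k * ∏ i : Fin s, H' (n, l) i (pr (k + i)) m| ≤
          if pr (k + i₀) ∣ D then B ^ s else 0 := by
        intro k _
        by_cases hk : pr (k + i₀) ∣ D
        · rw [if_pos hk]
          have e : ∏ i : Fin s, H' (n, l) i (pr (k + i)) m = 0 := by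
            apply prod_eq_zero (mem_univ i₀)
            rw [hH1]
            exact if_pos ⟨hi₀, by rw [← hD]; exact hk⟩
          rw [e, mul_zero, sub_zero, abs_mul]
          have h2 := hw n l hl k
          have h3 := hpb (fun i => H l i (pr (k + i)) m) (fun i => hHB _ _ _ (pr_prime _) _)
          calc |w l k| * |∏ i : Fin s, H l i (pr (k + i)) m| ≤ 1 * B ^ s :=
                mul_le_mul h2 h3 (abs_nonneg _) zero_le_one
            _ = B ^ s := one_mul _
        · rw [if_neg hk]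
          have e : ∏ i : Fin s, H' (n, l) i (pr (k + i)) m = ∏ i : Fin s, H l i (pr (k + i)) m := by
            refine prod_congr rfl fun i _ => ?_
            rw [hH1]
            apply if_neg
            rintro ⟨h4, h5⟩
            apply hk
            rw [hD]
            have h6 : i = i₀ := by rw [h4, hi₀]
            rw [← h6]
            exact h5
          rw [e, sub_self, abs_zero]
      refine (sum_le_sum hk).trans (le_of_eq ?_)
      rw [← sum_filter, sum_const, nsmul_eq_mul, mul_comm]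
    have hcard : (((range n).filter (fun k => pr (k + i₀) ∣ D)).card : ℝ) ≤ A₃ * (Real.log n / Real.log 2) := by
      have h2 := card_dvd n i₀ D hD0
      have h3 : (2 : ℝ) ^ ((range n).filter (fun k => pr (k + i₀) ∣ D)).card ≤ (n : ℝ) ^ A₃ := by
        exact_mod_cast h2.trans hDn
      have hl2 : 0 < Real.log 2 := Real.log_pos (by norm_num)
      have h4 := Real.log_le_log (by positivity) h3
      rw [Real.log_pow, Real.log_pow] at h4
      rw [mul_div_assoc', le_div_iff₀ hl2]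
      exact h4
    obtain ⟨V, hV⟩ : ∃ V : ℝ, V = Real.sqrt (max 1 (∑ k ∈ range n, w l k ^ 2)) := ⟨_, rfl⟩
    have hV1 : 1 ≤ V := by
      rw [hV, Real.one_le_sqrt]
      exact le_max_left _ _
    rw [← hV] at h1' ⊢
    have hlast := hn₁ n (by omega)
    have e1 : (n : ℝ) ^ δ = (n : ℝ) ^ (δ / 2) * (n : ℝ) ^ (δ / 2) := by
      rw [← Real.rpow_add hn0]
      congr 1
      ring
    have h12 : (1 : ℝ) ≤ (n : ℝ) ^ (δ / 2) := Real.one_le_rpow hn1 (by positivity)
    rw [e1]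
    obtain ⟨Q, hQ⟩ : ∃ Q : ℝ, Q = (n : ℝ) ^ (δ / 2) := ⟨_, rfl⟩
    rw [← hQ] at h1' hlast h12 ⊢
    have hBs : 0 ≤ B ^ s := by positivity
    have h13 : |∑ k ∈ range n, w l k * ∏ i : Fin s, H l i (pr (k + i)) m| ≤
        V * Q + B ^ s * (A₃ * (Real.log n / Real.log 2)) := by
      have h14 := abs_add_le (∑ k ∈ range n, w l k * ∏ i : Fin s, H l i (pr (k + i)) m -
        ∑ k ∈ range n, w l k * ∏ i : Fin s, H' (n, l) i (pr (k + i)) m)
        (∑ k ∈ range n, w l k * ∏ i : Fin s, H' (n, l) i (pr (k + i)) m)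
      rw [sub_add_cancel] at h14
      have h15 := mul_le_mul_of_nonneg_left hcard hBs
      linarith
    have h16 : 0 ≤ B ^ s * (A₃ * (Real.log n / Real.log 2)) := by
      have hl2 : 0 < Real.log 2 := Real.log_pos (by norm_num)
      have hl3 : 0 ≤ Real.log n := Real.log_nonneg hn1
      positivity
    obtain ⟨X, hX⟩ : ∃ X : ℝ, X = B ^ s * (A₃ * (Real.log n / Real.log 2)) := ⟨_, rfl⟩
    have h17 : 1 + X ≤ Q := by
      rw [hX]
      linarith
    rw [← hX] at h13 h16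
    have h18 : X ≤ V * Q * X := by
      have : 1 ≤ V * Q := by nlinarith
      nlinarith
    calc |∑ k ∈ range n, w l k * ∏ i : Fin s, H l i (pr (k + i)) m| ≤ V * Q + X := h13
      _ ≤ V * Q * (1 + X) := by nlinarith
      _ ≤ V * Q * Q := mul_le_mul_of_nonneg_left h17 (by nlinarith)
      _ = V * (Q * Q) := by ring

/-- the number of the exceptional choices for one number -/
theorem exc_one (b K r N : ℕ) (f : ℕ → ℕ) (E : ℕ → Prop) (M : Finset ℕ → ℕ)
    (hM : ∀ S, M S = Pool.Agent.Y57.FD.change b K N f S) [DecidablePred fun S => ¬ E (M S)] :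
    ((powersetCard r (range K)).filter (fun S => ¬ E (M S))).card =
      exceptions b (fun _ : Fin 1 => K) (fun _ => r) (fun _ => N) (fun _ => f) (fun m => E (m 0)) := by
  classical
  unfold exceptions
  refine card_bij' (fun S _ => fun _ => S) (fun T _ => T 0) ?_ ?_ ?_ ?_
  · intro S hS
    rw [mem_filter] at hS ⊢
    rw [Fintype.mem_piFinset]
    refine ⟨fun _ => hS.1, ?_⟩
    show ¬ E (Pool.Agent.Y57.FD.change b K N f S)
    rw [← hM]
    exact hS.2
  · intro T hT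
    rw [mem_filter, Fintype.mem_piFinset] at hT
    rw [mem_filter]
    refine ⟨hT.1 0, ?_⟩
    rw [hM]
    exact hT.2
  · intro S _
    rfl
  · intro T _
    funext i
    rw [Subsingleton.elim i 0]

end Pool.Agent.K7.H79.KL
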