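import Pool.Agent.K7.H79.KL.Aff
import Pool.Agent.K7.H79.KL.TupD

/-!
# Weyl sums of Kloosterman angles along linear forms
-/

set_option autoImplicit false

namespace Pool.Agent.K7.H79.KL

open Finset
open Pool.Agent.TH375.KL
open Pool.Agent.TH894.NF (pr pr_prime)

open Classical in
/-- `cos θ_p(a)`, and `0` if `p` divides `a`. -/
noncomputable def cosA (p : ℕ) (a : ℤ) : ℝ := if (p : ℤ) ∣ a then 0 else kloosterman p a / (2 * Real.sqrt p)

/-- the Chebyshev polynomial -/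
noncomputable def ch (j : ℕ) (x : ℝ) : ℝ := (Polynomial.Chebyshev.U ℝ (j : ℤ)).eval x

theorem ch_zero (x : ℝ) : ch 0 x = 1 := by
  unfold ch
  rw [show ((0 : ℕ) : ℤ) = 0 by norm_num, Polynomial.Chebyshev.U_zero]
  simp

section
variable {p : ℕ} [hp : Fact p.Prime]

theorem cosA_eq (a : ℤ) : cosA p a = cz (a : ZMod p) := by
  unfold cosA cz
  rw [kloosterman_eq]
  have h : (p : ℤ) ∣ a ↔ (a : ZMod p) = 0 := (ZMod.intCast_zmod_eq_zero_iff_dvd a p).symm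
  by_cases h1 : (a : ZMod p) = 0
  · rw [if_pos h1, if_pos (h.2 h1)]
  · rw [if_neg h1, if_neg (fun h2 => h1 (h.1 h2))]

theorem g_le (z : ZMod p) : |rk p z 1 / (2 * Real.sqrt p)| ≤ 1 := by
  have hs := sq_pos' (p := p)
  rw [abs_div, abs_of_pos (by positivity : 0 < 2 * Real.sqrt p), div_le_one (by positivity)]
  exact rk_le' (fun h => one_ne_zero h.2)

/-- sums over the residues of the Chebyshev polynomials along an affine map -/
theorem sum_ch_aff (j : ℕ) (hj4 : j ≤ 4) (C : ℝ) (hC : |∑ z : ZMod p, tz (p := p) j z| ≤ C * Real.sqrt p)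
    {α β : ZMod p} (hα : α ≠ 0) : |∑ z : ZMod p, ch j (cz (α * z + β))| ≤ (C + 70) * Real.sqrt p := by
  have hp1 : (1 : ℝ) ≤ p := by exact_mod_cast hp.out.one_lt.le
  have ht1 : 1 ≤ Real.sqrt p := by rw [Real.one_le_sqrt]; exact hp1
  rw [sum_aff hα (fun z => ch j (cz z))]
  have e : ∀ z : ZMod p, ch j (cz z) = tz j z + (if z = 0 then ch j 0 else 0) := by
    intro z
    unfold ch tz cz
    by_cases hz : z = 0
    · rw [if_pos hz, if_pos hz, if_pos hz, zero_add]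
    · rw [if_neg hz, if_neg hz, if_neg hz, add_zero]
  rw [sum_congr rfl fun z _ => e z, sum_add_distrib, sum_ite_eq' univ (0 : ZMod p), if_pos (mem_univ _)]
  refine (abs_add_le _ _).trans ?_
  have h2 : |ch j 0| ≤ 70 := U_zero_le j hj4
  nlinarith

/-- the correlation along two different affine maps -/
theorem sum_pair {α β α' β' : ZMod p} (hα : α ≠ 0) (hα' : α' ≠ 0) (hne : ¬ (α = α' ∧ β = β')) :
    |∑ z : ZMod p, cz (α * z + β) * cz (α' * z + β')| ≤ 3 * Real.sqrt p := by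
  have hp0 : (0 : ℝ) < p := by exact_mod_cast hp.out.pos
  have hp1 : (1 : ℝ) ≤ p := by exact_mod_cast hp.out.one_lt.le
  have ht1 : 1 ≤ Real.sqrt p := by rw [Real.one_le_sqrt]; exact hp1
  have htt : Real.sqrt p ^ 2 = p := Real.sq_sqrt hp0.le
  obtain ⟨u, hu⟩ : ∃ u : ZMod p, u = α' * α⁻¹ := ⟨_, rfl⟩
  obtain ⟨v, hv⟩ : ∃ v : ZMod p, v = β' - u * β := ⟨_, rfl⟩
  have hu0 : u ≠ 0 := by
    rw [hu]
    exact mul_ne_zero hα' (inv_ne_zero hα)
  have h1 : ∑ z : ZMod p, cz (α * z + β) * cz (α' * z + β') = ∑ z : ZMod p, cz z * cz (u * z + v) := by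
    rw [← sum_aff hα (β := β) (fun z => cz z * cz (u * z + v))]
    refine sum_congr rfl fun z _ => ?_
    congr 2
    rw [hv, hu]
    field_simp
    ring
  have h2 : ¬ (v = 0 ∧ 1 - u⁻¹ = 0) := by
    rintro ⟨h3, h4⟩
    have h5 : u = 1 := by
      have : u⁻¹ = 1 := by linear_combination -h4
      exact inv_eq_one.1 this
    apply hne
    constructor
    · rw [hu] at h5
      field_simp at h5
      exact h5.symm
    · rw [h5] at hv
      rw [h3] at hv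
      linear_combination hv
  rw [h1]
  obtain ⟨g, hg⟩ : ∃ g : ZMod p → ℝ, g = fun z => rk p z 1 / (2 * Real.sqrt p) := ⟨_, rfl⟩
  have hg1 : ∀ z, |g z| ≤ 1 := by
    intro z
    rw [hg]
    exact g_le z
  have hcg : ∀ z : ZMod p, z ≠ 0 → cz z = g z := by
    intro z hz
    rw [hg]
    unfold cz
    rw [if_neg hz]
  have hsum : |∑ z : ZMod p, g z * g (u * z + v)| ≤ Real.sqrt p := by
    have h3 : ∑ z : ZMod p, g z * g (u * z + v) = (p * rk p v (1 - u⁻¹)) / (4 * p) := by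
      rw [← corr_affine hu0 v, sum_div]
      refine sum_congr rfl fun z _ => ?_
      rw [hg]
      simp only
      rw [div_mul_div_comm]
      congr 1
      nlinarith
    rw [h3, abs_div, abs_mul, abs_of_pos hp0, abs_of_pos (by positivity : 0 < 4 * (p : ℝ)), div_le_iff₀ (by positivity)]
    have h4 := rk_le' (p := p) h2
    nlinarith
  have hdiff : |∑ z : ZMod p, cz z * cz (u * z + v) - ∑ z : ZMod p, g z * g (u * z + v)| ≤ 2 := by
    rw [← sum_sub_distrib]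
    refine (abs_sum_le_sum_abs _ _).trans ?_
    have h3 : ∀ z ∈ (univ : Finset (ZMod p)), |cz z * cz (u * z + v) - g z * g (u * z + v)| ≤
        (if z = 0 then 1 else 0) + (if z = -(u⁻¹ * v) then 1 else 0) := by
      intro z _
      have hgg : |g z * g (u * z + v)| ≤ 1 := by
        rw [abs_mul]
        exact mul_le_one₀ (hg1 _) (abs_nonneg _) (hg1 _)
      by_cases hz : z = 0
      · have e0 : cz z = 0 := by
          unfold cz
          rw [if_pos hz]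
        rw [e0, zero_mul, zero_sub, abs_neg, if_pos hz]
        have : (0 : ℝ) ≤ (if z = -(u⁻¹ * v) then 1 else 0) := by split_ifs <;> norm_num
        linarith
      · by_cases hz' : u * z + v = 0
        · have e0 : cz (u * z + v) = 0 := by
            unfold cz
            rw [if_pos hz']
          rw [e0, mul_zero, zero_sub, abs_neg, if_neg hz, if_pos (by
            field_simp
            linear_combination hz')]
          linarith
        · rw [hcg _ hz, hcg _ hz', sub_self, abs_zero]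
          have h4 : (0 : ℝ) ≤ (if z = -(u⁻¹ * v) then 1 else 0) := by split_ifs <;> norm_num
          have h5 : (0 : ℝ) ≤ (if z = 0 then 1 else 0) := by split_ifs <;> norm_num
          linarith
    refine (sum_le_sum h3).trans (le_of_eq ?_)
    rw [sum_add_distrib, sum_ite_eq' univ (0 : ZMod p), if_pos (mem_univ _), sum_ite_eq' univ (-(u⁻¹ * v)), if_pos (mem_univ _)]
    norm_num
  have h6 := abs_add_le (∑ z : ZMod p, cz z * cz (u * z + v) - ∑ z : ZMod p, g z * g (u * z + v))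
    (∑ z : ZMod p, g z * g (u * z + v))
  rw [sub_add_cancel] at h6
  linarith

end

/-- a code for a local function: the order (`5` for a product of two cosines) and two linear forms -/
abbrev Code : Type := ℕ × ((ℤ × ℤ) × (ℤ × ℤ))

/-- the local function -/
noncomputable def locf (q : Code) (p : ℕ) (x : ℤ) : ℝ :=
  if q.1 ≤ 4 then ch q.1 (cosA p (q.2.1.1 * x + q.2.1.2)) else
    cosA p (q.2.1.1 * x + q.2.1.2) * cosA p (q.2.2.1 * x + q.2.2.2)

/-- the admissible codes -/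
def Adm (M : ℕ) (q : Code) : Prop :=
  q.1 ≤ 5 ∧ q.2.1.1 ≠ 0 ∧ q.2.2.1 ≠ 0 ∧ (q.1 = 5 → q.2.1 ≠ q.2.2) ∧
    (|q.2.1.1| ≤ M ∧ |q.2.1.2| ≤ M) ∧ (|q.2.2.1| ≤ M ∧ |q.2.2.2| ≤ M)

theorem cosA_le {p : ℕ} (hp : p.Prime) (a : ℤ) : |cosA p a| ≤ 1 := by
  have : Fact p.Prime := ⟨hp⟩
  rw [cosA_eq]
  exact cz_le _

theorem locf_le (q : Code) {p : ℕ} (hp : p.Prime) (x : ℤ) : |locf q p x| ≤ 70 := by
  unfold locf
  split_ifs with h
  · exact U_le _ h (cosA_le hp _)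
  · rw [abs_mul]
    have h1 := cosA_le hp (q.2.1.1 * x + q.2.1.2)
    have h2 := cosA_le hp (q.2.2.1 * x + q.2.2.2)
    have h3 := mul_le_one₀ h1 (abs_nonneg _) h2
    linarith

theorem cosA_mod {p : ℕ} (hp : p.Prime) (α β : ℤ) (x : ℕ) : cosA p (α * (x : ℤ) + β) = cosA p (α * ((x % p : ℕ) : ℤ) + β) := by
  have : Fact p.Prime := ⟨hp⟩
  rw [cosA_eq, cosA_eq]
  congr 1
  push_cast
  simp

theorem locf_mod (q : Code) {p : ℕ} (hp : p.Prime) (x : ℕ) : locf q p (x : ℤ) = locf q p ((x % p : ℕ) : ℤ) := by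
  unfold locf
  rw [cosA_mod hp q.2.1.1 q.2.1.2 x, cosA_mod hp q.2.2.1 q.2.2.2 x]

/-- the means of the local functions -/
theorem mean_locf : ∃ C₀ : ℝ, 0 ≤ C₀ ∧ ∀ (M : ℕ) (q : Code), 1 ≤ M → Adm M q → q.1 ≠ 0 → ∃ D : ℕ, 0 < D ∧ D ≤ 2 * M ^ 3 ∧
    ∀ p, p.Prime → ¬ p ∣ D → |Pool.Agent.TH894.NE.mean 1 p (fun m => locf q p ((m 0 : ℕ) : ℤ))| ≤ C₀ / Real.sqrt p := by
  have hch : ∀ j : ℕ, ∃ C : ℝ, 0 ≤ C ∧ (1 ≤ j → j ≤ 4 → ∀ p : ℕ, ∀ hp : Fact p.Prime, |∑ z : ZMod p, tz (p := p) j z| ≤ C * Real.sqrt p) := by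
    intro j
    by_cases hj : 1 ≤ j ∧ j ≤ 4
    · obtain ⟨C, hC0, hC⟩ := sum_tz j hj.1 hj.2
      exact ⟨C, hC0, fun _ _ => hC⟩
    · exact ⟨0, le_rfl, fun h1 h2 => absurd ⟨h1, h2⟩ hj⟩
  choose C hC0 hC using hch
  have hdiv : ∀ (p : ℕ) (hp : Fact p.Prime) (S B : ℝ), |S| ≤ B * Real.sqrt p → |S / p| ≤ B / Real.sqrt p := by
    intro p hp S B h
    have hp0 : (0 : ℝ) < p := by exact_mod_cast hp.out.pos
    have hs := sq_pos' (p := p)
    rw [abs_div, abs_of_pos hp0, div_le_div_iff₀ hp0 hs]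
    have htt : Real.sqrt p * Real.sqrt p = p := Real.mul_self_sqrt hp0.le
    calc |S| * Real.sqrt p ≤ (B * Real.sqrt p) * Real.sqrt p := mul_le_mul_of_nonneg_right h hs.le
      _ = B * p := by rw [mul_assoc, htt]
  refine ⟨C 1 + C 2 + C 3 + C 4 + 73, by linarith [hC0 1, hC0 2, hC0 3, hC0 4], fun M q hM hq hq0 => ?_⟩
  obtain ⟨h5, hα, hα', hne, ⟨hα1, hβ1⟩, hα2, hβ2⟩ := hq
  have hM' : (1 : ℤ) ≤ M := by exact_mod_cast hM
  by_cases h4 : q.1 ≤ 4
  · refine ⟨q.2.1.1.natAbs, Int.natAbs_pos.2 hα, ?_, fun p hp hpD => ?_⟩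
    · have h6 : ((q.2.1.1.natAbs : ℕ) : ℤ) ≤ M := by
        rw [Int.natCast_natAbs]
        exact hα1
      have h7 : q.2.1.1.natAbs ≤ M := by exact_mod_cast h6
      have h8 : M ≤ M ^ 3 := Nat.le_self_pow (by norm_num) M
      omega
    · have hF : Fact p.Prime := ⟨hp⟩
      have hαp : (q.2.1.1 : ZMod p) ≠ 0 := by
        intro h6
        rw [ZMod.intCast_zmod_eq_zero_iff_dvd] at h6
        exact hpD (Int.natCast_dvd.1 h6)
      rw [mean_one p _ (fun z => ch q.1 (cz ((q.2.1.1 : ZMod p) * z + (q.2.1.2 : ZMod p)))) (by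
        intro m
        unfold locf
        rw [if_pos h4, cosA_eq]
        push_cast
        rfl)]
      have h6 := sum_ch_aff q.1 h4 (C q.1) (hC q.1 (Nat.one_le_iff_ne_zero.2 hq0) h4 p hF) (β := (q.2.1.2 : ZMod p)) hαp
      refine (hdiv p hF _ _ h6).trans ?_
      apply div_le_div_of_nonneg_right _ (sq_pos' (p := p)).le
      have : q.1 = 1 ∨ q.1 = 2 ∨ q.1 = 3 ∨ q.1 = 4 := by omega
      rcases this with h | h | h | h <;> rw [h] <;> linarith [hC0 1, hC0 2, hC0 3, hC0 4]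
  · have h5' : q.1 = 5 := by omega
    have hne' := hne h5'
    obtain ⟨E, hE⟩ : ∃ E : ℤ, E = if q.2.1.1 = q.2.2.1 then q.2.1.2 - q.2.2.2 else q.2.1.1 - q.2.2.1 := ⟨_, rfl⟩
    have hE0 : E ≠ 0 := by
      rw [hE]
      split_ifs with h
      · intro h6
        apply hne'
        exact Prod.ext h (by linarith)
      · exact sub_ne_zero.2 h
    have hEM : |E| ≤ 2 * M := by
      rw [hE]
      split_ifs with h
      · have := abs_sub (q.2.1.2) (q.2.2.2)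
        linarith
      · have := abs_sub (q.2.1.1) (q.2.2.1)
        linarith
    refine ⟨(q.2.1.1 * q.2.2.1 * E).natAbs, Int.natAbs_pos.2 (mul_ne_zero (mul_ne_zero hα hα') hE0), ?_, fun p hp hpD => ?_⟩
    · have h6 : |q.2.1.1 * q.2.2.1 * E| ≤ 2 * (M : ℤ) ^ 3 := by
        rw [abs_mul, abs_mul]
        calc |q.2.1.1| * |q.2.2.1| * |E| ≤ (M * M) * (2 * M) := by
              apply mul_le_mul _ hEM (abs_nonneg _) (by positivity)
              exact mul_le_mul hα1 hα2 (abs_nonneg _) (by positivity)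
          _ = 2 * (M : ℤ) ^ 3 := by ring
      have h7 : (((q.2.1.1 * q.2.2.1 * E).natAbs : ℕ) : ℤ) ≤ ((2 * M ^ 3 : ℕ) : ℤ) := by
        rw [Int.natCast_natAbs]
        push_cast
        exact h6
      exact_mod_cast h7
    · have hF : Fact p.Prime := ⟨hp⟩
      have hp' : ∀ x : ℤ, (x : ZMod p) = 0 → x ∣ q.2.1.1 * q.2.2.1 * E → False := by
        intro x hx hxd
        rw [ZMod.intCast_zmod_eq_zero_iff_dvd] at hx
        exact hpD (Int.natCast_dvd.1 (hx.trans hxd))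
      have hαp : (q.2.1.1 : ZMod p) ≠ 0 := fun h => hp' _ h ⟨q.2.2.1 * E, by ring⟩
      have hαp' : (q.2.2.1 : ZMod p) ≠ 0 := fun h => hp' _ h ⟨q.2.1.1 * E, by ring⟩
      have hEp : (E : ZMod p) ≠ 0 := fun h => hp' _ h ⟨q.2.1.1 * q.2.2.1, by ring⟩
      rw [mean_one p _ (fun z => cz ((q.2.1.1 : ZMod p) * z + (q.2.1.2 : ZMod p)) * cz ((q.2.2.1 : ZMod p) * z + (q.2.2.2 : ZMod p))) (by
        intro m
        unfold locf
        rw [if_neg h4, cosA_eq, cosA_eq]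
        push_cast
        rfl)]
      have h6 := sum_pair (p := p) hαp hαp' (β := (q.2.1.2 : ZMod p)) (β' := (q.2.2.2 : ZMod p)) (by
        rintro ⟨h7, h8⟩
        apply hEp
        rw [hE]
        split_ifs with h
        · push_cast
          rw [h8, sub_self]
        · push_cast
          rw [h7, sub_self])
      refine (hdiv p hF _ _ h6).trans ?_
      apply div_le_div_of_nonneg_right _ (sq_pos' (p := p)).le
      linarith [hC0 1, hC0 2, hC0 3, hC0 4]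

theorem linW (b s : ℕ) (hb : 2 ≤ b) (hs : 1 ≤ s) (δ : ℝ) (hδ : 0 < δ) (A B : ℕ) : ∃ c : ℝ, 0 < c ∧ ∃ y₀ : ℕ,
    ∀ r K y : ℕ, 2 * r ≤ K → y₀ ≤ y → ∀ N : ℕ, N < b ^ K → ∀ f : ℕ → ℕ, (∀ j, f j < b ∧ f j ≠ Pool.Agent.Y57.FD.digit b j N) →
    ∀ W : ℕ → Set (ℕ → ℝ), (∀ n, (W n).Finite ∧ (W n).ncard ≤ n ^ B) → (∀ n, ∀ w ∈ W n, ∀ k, |w k| ≤ 1) →
    ∀ E : ℕ → Prop, (∀ m : ℕ, (∀ n : ℕ, 2 ≤ n → y ≤ n → (n : ℝ) ≤ Real.exp (c * r) → ∀ w ∈ W n, ∀ g : Fin s → Code,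
      (∀ i, Adm (n ^ B) (g i)) → (∃ i, (g i).1 ≠ 0) → |∑ k ∈ range n, w k * ∏ i : Fin s, locf (g i) (pr (k + i)) (m : ℤ)| ≤
        Real.sqrt (max 1 (∑ k ∈ range n, w k ^ 2)) * (n : ℝ) ^ δ) → E m) →
    (Pool.Agent.Y57.FD.exceptions b (fun _ : Fin 1 => K) (fun _ => r) (fun _ => N) (fun _ => f) (fun m => E (m 0)) : ℝ) ≤
      1 / (y : ℝ) ^ A * (K.choose r : ℝ) := by
  classical
  obtain ⟨C₀, hC₀, hmean⟩ := mean_locf
  obtain ⟨c, hc, y₁, h⟩ := tuplesD b 1 s hb le_rfl hs δ hδ A (B + s * (4 * B + 11)) (3 * B + 1) 70 C₀ (by norm_num) hC₀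
  refine ⟨c, hc, y₁, fun r K y hrK hy N hN f hf W hW hW1 E hE => ?_⟩
  have hWf : ∀ n, (W n).Finite := fun n => (hW n).1
  obtain ⟨T, hT⟩ : ∃ T : ℕ → Finset Code, T = fun n : ℕ => (range 6) ×ˢ
    (((Icc (-((n : ℤ) ^ B)) ((n : ℤ) ^ B)) ×ˢ (Icc (-((n : ℤ) ^ B)) ((n : ℤ) ^ B))) ×ˢ
      ((Icc (-((n : ℤ) ^ B)) ((n : ℤ) ^ B)) ×ˢ (Icc (-((n : ℤ) ^ B)) ((n : ℤ) ^ B)))) :=
    ⟨_, rfl⟩
  have hTm : ∀ n q, Adm (n ^ B) q → q ∈ T n := by
    intro n q hq
    obtain ⟨h5, _, _, _, ⟨h1, h2⟩, h3, h4⟩ := hq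
    rw [hT]
    simp only [mem_product, mem_range, mem_Icc]
    push_cast at h1 h2 h3 h4
    exact ⟨by omega, ⟨abs_le.1 h1, abs_le.1 h2⟩, abs_le.1 h3, abs_le.1 h4⟩
  have hTc : ∀ n, 2 ≤ n → (T n).card ≤ n ^ (4 * B + 11) := by
    intro n hn
    rw [hT]
    simp only [card_product, card_range, Int.card_Icc]
    have h1 : ((n : ℤ) ^ B + 1 - -(n : ℤ) ^ B).toNat = 2 * n ^ B + 1 := by
      have : ((n : ℤ) ^ B + 1 - -(n : ℤ) ^ B) = ((2 * n ^ B + 1 : ℕ) : ℤ) := by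
        push_cast
        ring
      rw [this, Int.toNat_natCast]
    rw [h1]
    have h2 : 2 * n ^ B + 1 ≤ n ^ (B + 2) := by
      have h3 : 1 ≤ n ^ B := Nat.one_le_pow _ _ (by omega)
      calc 2 * n ^ B + 1 ≤ n ^ B * 2 ^ 2 := by omega
        _ ≤ n ^ B * n ^ 2 := Nat.mul_le_mul_left _ (Nat.pow_le_pow_left hn 2)
        _ = n ^ (B + 2) := by ring
    have h3 : 6 ≤ n ^ 3 := by
      calc 6 ≤ 2 ^ 3 := by norm_num
        _ ≤ n ^ 3 := Nat.pow_le_pow_left hn 3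
    calc 6 * ((2 * n ^ B + 1) * (2 * n ^ B + 1) * ((2 * n ^ B + 1) * (2 * n ^ B + 1))) ≤
        n ^ 3 * ((n ^ (B + 2) * n ^ (B + 2)) * (n ^ (B + 2) * n ^ (B + 2))) := by gcongr
      _ = n ^ (4 * B + 11) := by ring
  have hchoose : (∏ l : Fin 1, ((K.choose r : ℕ) : ℝ)) = (K.choose r : ℝ) := by
    rw [prod_const, card_univ, Fintype.card_fin, pow_one]
  rw [← hchoose]
  refine h (fun _ => K) (fun _ => r) y (fun _ => hrK) hy (fun _ => N) (fun _ => hN) (fun _ => f) (fun _ => hf)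
    ((ℕ → ℝ) × (Fin s → Code)) (fun n => (hWf n).toFinset ×ˢ ((Fintype.piFinset (fun _ : Fin s => T n)).filter
      (fun g => (∀ i, Adm (n ^ B) (g i)) ∧ ∃ i, (g i).1 ≠ 0))) ?_ (fun l => l.1) ?_
    (fun l i p m => locf (l.2 i) p ((m 0 : ℕ) : ℤ)) ?_ ?_ ?_ (fun m => E (m 0)) ?_
  · intro n hn
    rw [card_product, ← Set.ncard_eq_toFinset_card _ (hWf n), pow_add]
    apply Nat.mul_le_mul (hW n).2
    refine (card_filter_le _ _).trans ?_
    rw [Fintype.card_piFinset_const]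
    calc (T n).card ^ s ≤ (n ^ (4 * B + 11)) ^ s := Nat.pow_le_pow_left (hTc n hn) s
      _ = n ^ (s * (4 * B + 11)) := by rw [← pow_mul, mul_comm]
  · intro n l hl k
    rw [mem_product, Set.Finite.mem_toFinset] at hl
    exact hW1 n l.1 hl.1 k
  · intro l i p hp m
    exact locf_mod _ hp _
  · intro l i p hp m
    exact locf_le _ hp _
  · intro n hn l hl
    rw [mem_product, mem_filter] at hl
    obtain ⟨_, _, hadm, i, hi⟩ := hl
    obtain ⟨D, hD0, hD1, hD2⟩ := hmean (n ^ B) (l.2 i) (Nat.one_le_pow _ _ (by omega)) (hadm i) hi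
    refine ⟨i, D, hD0, hD1.trans ?_, hD2⟩
    calc 2 * (n ^ B) ^ 3 ≤ n * (n ^ B) ^ 3 := Nat.mul_le_mul_right _ hn
      _ = n ^ (3 * B + 1) := by ring
  · intro m hm
    refine hE (m 0) fun n hn hyn hnr w hw g hg hg0 => ?_
    refine hm n hn hyn (fun _ => hnr) (w, g) ?_
    rw [mem_product, Set.Finite.mem_toFinset, mem_filter, Fintype.mem_piFinset]
    exact ⟨hw, fun i => hTm n _ (hg i), hg, hg0⟩

end Pool.Agent.K7.H79.KL
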