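import Pool.Agent.K7.H79.KL.Mom
import Pool.Agent.Y57.FD.Tup0
import Pool.Agent.TH894.NF3

/-!
# Local means for Kloosterman sums
-/

set_option autoImplicit false

namespace Pool.Agent.K7.H79.KL

open Finset
open Pool.Agent.TH375.KL
open Pool.Agent.TH894.NF (kls kls_eq)

/-- The Kloosterman sum `S(a, 1; p)`, `p` a prime number. -/
noncomputable def kloosterman (p : ℕ) (a : ℤ) : ℝ :=
  ∑ x ∈ Ico 1 p, Real.cos (2 * Real.pi * ((((a : ZMod p) * (x : ZMod p) + (x : ZMod p)⁻¹).val : ℕ) : ℝ) / (p : ℝ))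

/-- `cos θ_p(a) = S(a, 1; p) / (2 p ^ (1 / 2))`. -/
noncomputable def cosAngle (p : ℕ) (a : ℤ) : ℝ := kloosterman p a / (2 * Real.sqrt p)

open Classical in
/-- `U_j (cos θ_p(a)) = sin ((j + 1) θ_p(a)) / sin θ_p(a)`, and `0` if `p` divides `a`. -/
noncomputable def term (j p : ℕ) (a : ℤ) : ℝ :=
  if (p : ℤ) ∣ a then 0 else (Polynomial.Chebyshev.U ℝ (j : ℤ)).eval (cosAngle p a)

open Polynomial in
lemma U1 (x : ℝ) : (Chebyshev.U ℝ 1).eval x = 2 * x := by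
  rw [Chebyshev.U_one]
  simp

open Polynomial in
lemma U2 (x : ℝ) : (Chebyshev.U ℝ 2).eval x = 4 * x ^ 2 - 1 := by
  rw [Chebyshev.U_two]
  simp

open Polynomial in
lemma U3 (x : ℝ) : (Chebyshev.U ℝ 3).eval x = 8 * x ^ 3 - 4 * x := by
  have h := Chebyshev.U_add_two ℝ 1
  have e : (1 : ℤ) + 2 = 3 := by norm_num
  have e' : (1 : ℤ) + 1 = 2 := by norm_num
  rw [e, e'] at h
  rw [h, eval_sub, eval_mul, U2, U1]
  simp
  ring

open Polynomial in
lemma U4 (x : ℝ) : (Chebyshev.U ℝ 4).eval x = 16 * x ^ 4 - 12 * x ^ 2 + 1 := by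
  have h := Chebyshev.U_add_two ℝ 2
  have e : (2 : ℤ) + 2 = 4 := by norm_num
  have e' : (2 : ℤ) + 1 = 3 := by norm_num
  rw [e, e'] at h
  rw [h, eval_sub, eval_mul, U3, U2]
  simp
  ring

lemma U_le (j : ℕ) (h4 : j ≤ 4) {x : ℝ} (hx : |x| ≤ 1) : |(Polynomial.Chebyshev.U ℝ (j : ℤ)).eval x| ≤ 70 := by
  have hp : ∀ k : ℕ, |x ^ k| ≤ 1 := by
    intro k
    rw [abs_pow]
    exact pow_le_one₀ (abs_nonneg _) hx
  have a1 := abs_le.1 hx
  have a2 := abs_le.1 (hp 2)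
  have a3 := abs_le.1 (hp 3)
  have a4 := abs_le.1 (hp 4)
  obtain rfl | rfl | rfl | rfl | rfl : j = 0 ∨ j = 1 ∨ j = 2 ∨ j = 3 ∨ j = 4 := by omega
  · rw [show ((0 : ℕ) : ℤ) = 0 by norm_num, Polynomial.Chebyshev.U_zero]
    simp
  · rw [show ((1 : ℕ) : ℤ) = 1 by norm_num, U1, abs_le]
    constructor <;> linarith
  · rw [show ((2 : ℕ) : ℤ) = 2 by norm_num, U2, abs_le]
    constructor <;> linarith
  · rw [show ((3 : ℕ) : ℤ) = 3 by norm_num, U3, abs_le]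
    constructor <;> linarith
  · rw [show ((4 : ℕ) : ℤ) = 4 by norm_num, U4, abs_le]
    constructor <;> linarith

section
variable {p : ℕ} [hp : Fact p.Prime]

lemma kloosterman_eq (a : ℤ) : kloosterman p a = rk p (a : ZMod p) 1 := by
  have h1 : (((a : ZMod p).val : ℕ) : ZMod p) = (a : ZMod p) := ZMod.natCast_zmod_val _
  have h2 := kls_eq (p := p) (a : ZMod p).val
  rw [h1] at h2
  rw [← h2]
  unfold kloosterman kls
  rw [h1]

/-- the function on the residues -/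
noncomputable def tz (j : ℕ) (z : ZMod p) : ℝ :=
  if z = 0 then 0 else (Polynomial.Chebyshev.U ℝ (j : ℤ)).eval (rk p z 1 / (2 * Real.sqrt p))

lemma term_eq (j : ℕ) (a : ℤ) : term j p a = tz j (a : ZMod p) := by
  unfold term tz cosAngle
  rw [kloosterman_eq]
  have h : (p : ℤ) ∣ a ↔ (a : ZMod p) = 0 := (ZMod.intCast_zmod_eq_zero_iff_dvd a p).symm
  by_cases h1 : (a : ZMod p) = 0
  · rw [if_pos h1, if_pos (h.2 h1)]
  · rw [if_neg h1, if_neg (fun h2 => h1 (h.1 h2))]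

lemma sq_pos' : 0 < Real.sqrt p := Real.sqrt_pos.2 (by exact_mod_cast hp.out.pos)

lemma tz_le (j : ℕ) (hj : j ≤ 4) (z : ZMod p) : |tz j z| ≤ 70 := by
  unfold tz
  split_ifs with h
  · rw [abs_zero]
    norm_num
  · apply U_le j hj
    have hs := sq_pos' (p := p)
    rw [abs_div, abs_of_pos (by positivity : 0 < 2 * Real.sqrt p), div_le_one (by positivity)]
    exact rk_le h

lemma tz1_le (z : ZMod p) : |tz 1 z| ≤ 2 := by
  unfold tz
  split_ifs with h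
  · rw [abs_zero]
    norm_num
  · have hs := sq_pos' (p := p)
    rw [show ((1 : ℕ) : ℤ) = 1 by norm_num, U1, abs_mul, abs_div, abs_of_pos (by positivity : 0 < 2 * Real.sqrt p),
      abs_of_pos (by norm_num : (0 : ℝ) < 2)]
    have := rk_le h
    rw [mul_div_assoc', div_le_iff₀ (by positivity)]
    linarith

/-- polynomials of degree four in the normalized sums -/
lemma sum_pol (c0 c1 c2 c3 c4 : ℝ) : ∃ C : ℝ, 0 ≤ C ∧ ∀ p : ℕ, ∀ hp : Fact p.Prime,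
    |∑ z : ZMod p, (if z = 0 then 0 else c0 + c1 * (rk p z 1 / Real.sqrt p) + c2 * (rk p z 1 / Real.sqrt p) ^ 2 +
      c3 * (rk p z 1 / Real.sqrt p) ^ 3 + c4 * (rk p z 1 / Real.sqrt p) ^ 4) - p * (c0 + c2 + 2 * c4)| ≤ C * Real.sqrt p := by
  refine ⟨|c0| + |c1| + 2 * |c2| + 3 * |c3| + 7 * |c4|, by positivity, fun p hp => ?_⟩
  have hp0 : (0 : ℝ) < p := by exact_mod_cast hp.out.pos
  have hp1 : (1 : ℝ) ≤ p := by exact_mod_cast hp.out.one_lt.le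
  set t := Real.sqrt p with ht
  have ht0 : 0 < t := sq_pos'
  have htt : t ^ 2 = p := Real.sq_sqrt hp0.le
  have ht1 : 1 ≤ t := by rw [ht, Real.one_le_sqrt]; exact hp1
  -- remove the condition
  have e1 : ∀ z : ZMod p, (if z = 0 then (0 : ℝ) else c0 + c1 * (rk p z 1 / t) + c2 * (rk p z 1 / t) ^ 2 +
      c3 * (rk p z 1 / t) ^ 3 + c4 * (rk p z 1 / t) ^ 4) =
      (c0 + c1 * (rk p z 1 / t) + c2 * (rk p z 1 / t) ^ 2 +
      c3 * (rk p z 1 / t) ^ 3 + c4 * (rk p z 1 / t) ^ 4) - (if z = 0 then (c0 + c1 * (-1 / t) + c2 * (-1 / t) ^ 2 +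
      c3 * (-1 / t) ^ 3 + c4 * (-1 / t) ^ 4) else 0) := by
    intro z
    by_cases h : z = 0
    · rw [if_pos h, if_pos h, h, rk_zero_one]
      ring
    · rw [if_neg h, if_neg h, sub_zero]
  rw [sum_congr rfl fun z _ => e1 z, sum_sub_distrib, sum_ite_eq' univ (0 : ZMod p), if_pos (mem_univ _)]
  have e2 : ∑ z : ZMod p, (c0 + c1 * (rk p z 1 / t) + c2 * (rk p z 1 / t) ^ 2 +
      c3 * (rk p z 1 / t) ^ 3 + c4 * (rk p z 1 / t) ^ 4) = p * c0 + c1 / t * (∑ z : ZMod p, rk p z 1) +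
      c2 / t ^ 2 * (∑ z : ZMod p, rk p z 1 ^ 2) + c3 / t ^ 3 * (∑ z : ZMod p, rk p z 1 ^ 3) +
      c4 / t ^ 4 * (∑ z : ZMod p, rk p z 1 ^ 4) := by
    rw [sum_add_distrib, sum_add_distrib, sum_add_distrib, sum_add_distrib, sum_const, card_univ, ZMod.card, nsmul_eq_mul,
      mul_sum, mul_sum, mul_sum, mul_sum]
    refine congrArg₂ (· + ·) (congrArg₂ (· + ·) (congrArg₂ (· + ·) (congrArg₂ (· + ·) rfl ?_) ?_) ?_) ?_
    · exact sum_congr rfl fun z _ => by ring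
    · exact sum_congr rfl fun z _ => by ring
    · exact sum_congr rfl fun z _ => by ring
    · exact sum_congr rfl fun z _ => by ring
  rw [e2, m1, m2]
  obtain ⟨A3, hA3⟩ : ∃ A3 : ℝ, A3 = ∑ z : ZMod p, rk p z 1 ^ 3 := ⟨_, rfl⟩
  obtain ⟨A4, hA4⟩ : ∃ A4 : ℝ, A4 = ∑ z : ZMod p, rk p z 1 ^ 4 := ⟨_, rfl⟩
  have h3 := m3 (p := p)
  have h4 := m4 (p := p)
  have h4' := m4_lower (p := p)
  rw [← hA3] at h3
  rw [← hA4] at h4 h4'
  rw [← hA3, ← hA4]
  -- the three pieces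
  have k3 : |c3 / t ^ 3 * A3| ≤ 2 * |c3| * t := by
    rw [abs_mul, abs_div, abs_of_pos (by positivity : 0 < t ^ 3), div_mul_eq_mul_div, div_le_iff₀ (by positivity)]
    calc |c3| * |A3| ≤ |c3| * (2 * (p : ℝ) ^ 2) := mul_le_mul_of_nonneg_left h3 (abs_nonneg _)
      _ = 2 * |c3| * t * t ^ 3 := by rw [← htt]; ring
  have k4 : |c4 / t ^ 4 * A4 - 2 * c4 * p| ≤ 6 * |c4| := by
    have e : c4 / t ^ 4 * A4 - 2 * c4 * p = c4 * ((A4 - 2 * (p : ℝ) ^ 3) / (p : ℝ) ^ 2) := by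
      have : t ^ 4 = (p : ℝ) ^ 2 := by rw [← htt]; ring
      rw [this]
      field_simp
    rw [e, abs_mul, mul_comm 6]
    refine mul_le_mul_of_nonneg_left ?_ (abs_nonneg _)
    rw [abs_div, abs_of_pos (by positivity : 0 < (p : ℝ) ^ 2), div_le_iff₀ (by positivity), abs_le]
    constructor <;> nlinarith
  have k2 : c2 / t ^ 2 * (p * ((p : ℝ) - 1)) = c2 * p - c2 := by
    rw [htt]
    field_simp
  have hinv : |(-1 : ℝ) / t| ≤ 1 := by
    rw [abs_div, abs_neg, abs_one, abs_of_pos ht0, div_le_one ht0]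
    exact ht1
  have hpw : ∀ k : ℕ, |((-1 : ℝ) / t) ^ k| ≤ 1 := by
    intro k
    rw [abs_pow]
    exact pow_le_one₀ (abs_nonneg _) hinv
  have k0 : |c0 + c1 * (-1 / t) + c2 * (-1 / t) ^ 2 + c3 * (-1 / t) ^ 3 + c4 * (-1 / t) ^ 4| ≤
      |c0| + |c1| + |c2| + |c3| + |c4| := by
    have b1 : |c1 * (-1 / t)| ≤ |c1| := by
      rw [abs_mul]
      exact mul_le_of_le_one_right (abs_nonneg _) hinv
    have b2 : |c2 * (-1 / t) ^ 2| ≤ |c2| := by
      rw [abs_mul]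
      exact mul_le_of_le_one_right (abs_nonneg _) (hpw 2)
    have b3 : |c3 * (-1 / t) ^ 3| ≤ |c3| := by
      rw [abs_mul]
      exact mul_le_of_le_one_right (abs_nonneg _) (hpw 3)
    have b4 : |c4 * (-1 / t) ^ 4| ≤ |c4| := by
      rw [abs_mul]
      exact mul_le_of_le_one_right (abs_nonneg _) (hpw 4)
    have c1' := abs_add_le (c0 + c1 * (-1 / t) + c2 * (-1 / t) ^ 2 + c3 * (-1 / t) ^ 3) (c4 * (-1 / t) ^ 4)
    have c2' := abs_add_le (c0 + c1 * (-1 / t) + c2 * (-1 / t) ^ 2) (c3 * (-1 / t) ^ 3)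
    have c3' := abs_add_le (c0 + c1 * (-1 / t)) (c2 * (-1 / t) ^ 2)
    have c4' := abs_add_le c0 (c1 * (-1 / t))
    linarith
  rw [k2]
  have e5 : (p : ℝ) * c0 + c1 / t * 0 + (c2 * p - c2) + c3 / t ^ 3 * A3 + c4 / t ^ 4 * A4 -
      (c0 + c1 * (-1 / t) + c2 * (-1 / t) ^ 2 + c3 * (-1 / t) ^ 3 + c4 * (-1 / t) ^ 4) - p * (c0 + c2 + 2 * c4) =
      (-c2) + (c3 / t ^ 3 * A3) + (c4 / t ^ 4 * A4 - 2 * c4 * p) -
      (c0 + c1 * (-1 / t) + c2 * (-1 / t) ^ 2 + c3 * (-1 / t) ^ 3 + c4 * (-1 / t) ^ 4) := by ring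
  rw [e5]
  have f1 := abs_sub ((-c2) + (c3 / t ^ 3 * A3) + (c4 / t ^ 4 * A4 - 2 * c4 * p))
    (c0 + c1 * (-1 / t) + c2 * (-1 / t) ^ 2 + c3 * (-1 / t) ^ 3 + c4 * (-1 / t) ^ 4)
  have f2 := abs_add_le ((-c2) + (c3 / t ^ 3 * A3)) (c4 / t ^ 4 * A4 - 2 * c4 * p)
  have f3 := abs_add_le (-c2) (c3 / t ^ 3 * A3)
  rw [abs_neg] at f3
  have g0 : |c0| ≤ |c0| * t := le_mul_of_one_le_right (abs_nonneg _) ht1
  have g1 : |c1| ≤ |c1| * t := le_mul_of_one_le_right (abs_nonneg _) ht1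
  have g2 : |c2| ≤ |c2| * t := le_mul_of_one_le_right (abs_nonneg _) ht1
  have g3 : |c3| ≤ |c3| * t := le_mul_of_one_le_right (abs_nonneg _) ht1
  have g4 : |c4| ≤ |c4| * t := le_mul_of_one_le_right (abs_nonneg _) ht1
  nlinarith

end

/-- the sums of the Chebyshev polynomials over the residues -/
lemma sum_tz (j : ℕ) (h1 : 1 ≤ j) (h4 : j ≤ 4) : ∃ C : ℝ, 0 ≤ C ∧ ∀ p : ℕ, ∀ hp : Fact p.Prime,
    |∑ z : ZMod p, tz (p := p) j z| ≤ C * Real.sqrt p := by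
  have key : ∀ (c0 c1 c2 c3 c4 : ℝ), c0 + c2 + 2 * c4 = 0 →
      (∀ x : ℝ, (Polynomial.Chebyshev.U ℝ (j : ℤ)).eval (x / 2) = c0 + c1 * x + c2 * x ^ 2 + c3 * x ^ 3 + c4 * x ^ 4) →
      ∃ C : ℝ, 0 ≤ C ∧ ∀ p : ℕ, ∀ hp : Fact p.Prime, |∑ z : ZMod p, tz (p := p) j z| ≤ C * Real.sqrt p := by
    intro c0 c1 c2 c3 c4 h0 hU
    obtain ⟨C, hC0, hC⟩ := sum_pol c0 c1 c2 c3 c4
    refine ⟨C, hC0, fun p hp => ?_⟩
    have h := hC p hp
    rw [h0, mul_zero, sub_zero] at h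
    refine le_trans (le_of_eq ?_) h
    congr 1
    refine sum_congr rfl fun z _ => ?_
    unfold tz
    by_cases hz : z = 0
    · rw [if_pos hz, if_pos hz]
    · rw [if_neg hz, if_neg hz, ← hU]
      congr 1
      rw [div_div, mul_comm]
  obtain rfl | rfl | rfl | rfl : j = 1 ∨ j = 2 ∨ j = 3 ∨ j = 4 := by omega
  · refine key 0 1 0 0 0 (by norm_num) fun x => ?_
    rw [show ((1 : ℕ) : ℤ) = 1 by norm_num, U1]
    ring
  · refine key (-1) 0 1 0 0 (by norm_num) fun x => ?_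
    rw [show ((2 : ℕ) : ℤ) = 2 by norm_num, U2]
    ring
  · refine key 0 (-2) 0 1 0 (by norm_num) fun x => ?_
    rw [show ((3 : ℕ) : ℤ) = 3 by norm_num, U3]
    ring
  · refine key 1 0 (-3) 0 1 (by norm_num) fun x => ?_
    rw [show ((4 : ℕ) : ℤ) = 4 by norm_num, U4]
    ring

/-- the correlation of the sums at two shifts -/
lemma sum_corr (p : ℕ) [hp : Fact p.Prime] {d : ZMod p} (hd : d ≠ 0) : |∑ z : ZMod p, tz 1 z * tz 1 (z + d)| ≤ 5 := by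
  have hp0 : (0 : ℝ) < p := by exact_mod_cast hp.out.pos
  have hp1 : (1 : ℝ) ≤ p := by exact_mod_cast hp.out.one_lt.le
  set t := Real.sqrt p with ht
  have ht0 : 0 < t := sq_pos'
  have htt : t ^ 2 = p := Real.sq_sqrt hp0.le
  have ht1 : 1 ≤ t := by rw [ht, Real.one_le_sqrt]; exact hp1
  have e1 : ∀ z : ZMod p, tz 1 z * tz 1 (z + d) = (rk p z 1 * rk p (z + d) 1) / p -
      (if z = 0 then (rk p z 1 * rk p (z + d) 1) / p else 0) - (if z = -d then (rk p z 1 * rk p (z + d) 1) / p else 0) := by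
    intro z
    unfold tz
    rw [← ht, show ((1 : ℕ) : ℤ) = 1 by norm_num, U1, U1]
    by_cases h1 : z = 0
    · have h1' : z ≠ -d := fun h => hd (neg_eq_zero.1 (by rw [← h, h1]))
      rw [if_pos h1, if_pos h1, if_neg h1']
      ring
    · rw [if_neg h1, if_neg h1]
      by_cases h2 : z = -d
      · rw [if_pos h2, if_pos (by rw [h2]; ring)]
        ring
      · rw [if_neg h2, if_neg (fun h => h2 (by linear_combination h)), ← htt]
        field_simp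
        ring
  rw [sum_congr rfl fun z _ => e1 z, sum_sub_distrib, sum_sub_distrib, ← sum_div, corr_shift hd,
    sum_ite_eq' univ (0 : ZMod p), if_pos (mem_univ _), sum_ite_eq' univ (-d), if_pos (mem_univ _), rk_zero_one, zero_add,
    neg_add_cancel, rk_zero_one]
  have h1 := rk_le (p := p) hd
  have h2 := rk_le (p := p) (neg_ne_zero.2 hd)
  rw [← ht] at h1 h2
  have h3 : ∀ y : ℝ, |y| ≤ 2 * t → |y / p| ≤ 2 := by
    intro y hy
    rw [abs_div, abs_of_pos hp0, div_le_iff₀ hp0, ← htt]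
    nlinarith
  have h4 := h3 (-1 * rk p d 1) (by rw [neg_one_mul, abs_neg]; exact h1)
  have h5 := h3 (rk p (-d) 1 * -1) (by rw [mul_neg_one, abs_neg]; exact h2)
  have h6 : -(p : ℝ) / p = -1 := by field_simp
  rw [h6]
  rw [abs_le] at h4 h5 ⊢
  constructor <;> linarith

/-- the mean over the residues in one variable -/
lemma mean_one (p : ℕ) [hp : Fact p.Prime] (F : (Fin 1 → ℕ) → ℝ) (G : ZMod p → ℝ)
    (h : ∀ m : Fin 1 → ℕ, F m = G ((m 0 : ℕ) : ZMod p)) :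
    Pool.Agent.TH894.NE.mean 1 p F = (∑ z : ZMod p, G z) / p := by
  unfold Pool.Agent.TH894.NE.mean
  rw [pow_one, one_div, div_eq_inv_mul]
  congr 1
  refine sum_bij (fun m _ => ((m 0 : ℕ) : ZMod p)) ?_ ?_ ?_ ?_
  · intro m _
    exact mem_univ _
  · intro m hm m' hm' h1
    rw [Pool.Agent.TH894.NE.mem_box] at hm hm'
    funext i
    rw [Subsingleton.elim i 0]
    have h2 : ((m 0 : ℕ) : ZMod p).val = ((m' 0 : ℕ) : ZMod p).val := congrArg _ h1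
    rwa [ZMod.val_cast_of_lt (hm 0), ZMod.val_cast_of_lt (hm' 0)] at h2
  · intro z _
    refine ⟨fun _ => z.val, ?_, ?_⟩
    · rw [Pool.Agent.TH894.NE.mem_box]
      exact fun _ => ZMod.val_lt z
    · exact ZMod.natCast_zmod_val z
  · intro m _
    exact h m

end Pool.Agent.K7.H79.KL
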