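import Pool.Agent.TH375.KL.Moments
import Pool.Agent.H498R2.SM_T8

/-!
# The fourth moment of Kloosterman sums from below, the correlation of two shifts, and Weil's bound in real form
-/

set_option autoImplicit false

namespace Pool.Agent.K7.H79.KL

open Finset
open Pool.Agent.TH375.KL
open Pool.Agent.Helper916 (Kl)

variable {p : ℕ} [hp : Fact p.Prime]

/-- the fourth moment in two variables from below -/
theorem two_dim_four_lower : (p : ℝ) ^ 2 * (((p : ℝ) - 1) * (3 * (p : ℝ) - 6)) ≤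
    ∑ b : ZMod p, ∑ c : ZMod p, rk p b c ^ 4 := by
  set U : Finset (ZMod p) := univ.erase 0 with hU
  set f : ZMod p → ZMod p → ZMod p → ZMod p → ℝ := fun x y z w =>
    (if x + y + z + w = 0 then (p : ℝ) else 0) * (if x⁻¹ + y⁻¹ + z⁻¹ + w⁻¹ = 0 then (p : ℝ) else 0) with hf
  have h : ((∑ b : ZMod p, ∑ c : ZMod p, rk p b c ^ 4 : ℝ) : ℂ) =
      ((∑ x ∈ U, ∑ y ∈ U, ∑ z ∈ U, ∑ w ∈ U, f x y z w : ℝ) : ℂ) := by
    push_cast
    simp only [rk_eq]
    have e1 : ∀ b c : ZMod p, KK p b c ^ 4 = ∑ x ∈ U, ∑ y ∈ U, ∑ z ∈ U, ∑ w ∈ U,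
        ZMod.stdAddChar (b * (x + y + z + w)) * ZMod.stdAddChar (c * (x⁻¹ + y⁻¹ + z⁻¹ + w⁻¹)) := by
      intro b c
      unfold KK Kl
      rw [show (4 : ℕ) = 2 + 2 by norm_num, pow_add, sq, sum_mul_sum, sum_mul]
      refine sum_congr rfl fun x _ => ?_
      rw [sum_mul]
      refine sum_congr rfl fun y _ => ?_
      rw [mul_sum]
      refine sum_congr rfl fun z _ => ?_
      rw [mul_sum]
      refine sum_congr rfl fun w _ => ?_
      rw [← AddChar.map_add_eq_mul, ← AddChar.map_add_eq_mul, ← AddChar.map_add_eq_mul, ← AddChar.map_add_eq_mul]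
      congr 1
      ring
    rw [sum_congr rfl fun b _ => sum_congr rfl fun c _ => e1 b c]
    rw [sum_congr rfl fun b _ => sum_comm, sum_comm]
    refine sum_congr rfl fun x _ => ?_
    rw [sum_congr rfl fun b _ => sum_comm, sum_comm]
    refine sum_congr rfl fun y _ => ?_
    rw [sum_congr rfl fun b _ => sum_comm, sum_comm]
    refine sum_congr rfl fun z _ => ?_
    rw [sum_congr rfl fun b _ => sum_comm, sum_comm]
    refine sum_congr rfl fun w _ => ?_
    rw [← sum_mul_sum, AddChar.sum_mulShift _ (prim (p := p)),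
      AddChar.sum_mulShift _ (prim (p := p)), ZMod.card, hf]
    simp only
    push_cast
    split_ifs <;> simp
  have h' : ∑ b : ZMod p, ∑ c : ZMod p, rk p b c ^ 4 = ∑ x ∈ U, ∑ y ∈ U, ∑ z ∈ U, ∑ w ∈ U, f x y z w := by
    exact_mod_cast h
  have hp0 : (0 : ℝ) < p := by exact_mod_cast hp.out.pos
  have hf0 : ∀ x y z w, 0 ≤ f x y z w := by
    intro x y z w
    rw [hf]
    simp only
    split_ifs <;> positivity
  have hneg : ∀ x ∈ U, -x ∈ U := by
    intro x hx
    rw [hU, mem_erase] at hx ⊢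
    exact ⟨neg_ne_zero.2 hx.1, mem_univ _⟩
  have hU0 : ∀ x ∈ U, x ≠ 0 := fun x hx => (mem_erase.1 hx).1
  have hcard : (U.card : ℝ) = (p : ℝ) - 1 := by
    rw [hU, card_erase_of_mem (mem_univ _), card_univ, ZMod.card, Nat.cast_sub hp.out.one_le]
    simp
  have hp2 : (2 : ℝ) ≤ p := by exact_mod_cast hp.out.two_le
  -- the lower bound for fixed `x`, `y`
  have hxy : ∀ x ∈ U, ∀ y ∈ U, (p : ℝ) ^ 2 * (2 - (if y = x then 1 else 0) + (if y = -x then ((p : ℝ) - 3) else 0)) ≤
      ∑ z ∈ U, ∑ w ∈ U, f x y z w := by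
    intro x hx y hy
    rw [← sum_product']
    by_cases h1 : y = -x
    · -- all the pairs `(z, -z)`
      have h2 : ∑ q ∈ U.image (fun z => (z, -z)), f x y q.1 q.2 ≤ ∑ q ∈ U ×ˢ U, f x y q.1 q.2 := by
        apply sum_le_sum_of_subset_of_nonneg
        · intro q hq
          rw [mem_image] at hq
          obtain ⟨z, hz, rfl⟩ := hq
          rw [mem_product]
          exact ⟨hz, hneg z hz⟩
        · intro q _ _
          exact hf0 _ _ _ _
      have h3 : ∑ q ∈ U.image (fun z => (z, -z)), f x y q.1 q.2 = ((p : ℝ) - 1) * (p : ℝ) ^ 2 := by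
        rw [sum_image (by
          intro a _ b _ hab
          exact (Prod.mk.inj hab).1)]
        rw [← hcard, ← nsmul_eq_mul, ← sum_const]
        refine sum_congr rfl fun z hz => ?_
        rw [hf]
        simp only
        rw [if_pos (by rw [h1]; ring), if_pos (by rw [h1, inv_neg, inv_neg]; ring)]
        ring
      refine le_trans ?_ h2
      rw [h3, if_pos h1]
      split_ifs
      · nlinarith [sq_nonneg (p : ℝ), mul_pos hp0 hp0]
      · nlinarith [sq_nonneg (p : ℝ), mul_pos hp0 hp0]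
    · rw [if_neg h1, add_zero]
      by_cases h2 : y = x
      · rw [if_pos h2]
        have h3 : f x y (-x) (-y) ≤ ∑ q ∈ U ×ˢ U, f x y q.1 q.2 :=
          single_le_sum (f := fun q : ZMod p × ZMod p => f x y q.1 q.2) (fun q _ => hf0 _ _ _ _)
            (mem_product.2 ⟨hneg x hx, hneg y hy⟩ : ((-x, -y) : ZMod p × ZMod p) ∈ U ×ˢ U)
        refine le_trans (le_of_eq ?_) h3
        rw [hf]
        simp only
        rw [if_pos (by ring), if_pos (by rw [inv_neg, inv_neg]; ring)]
        ring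
      · rw [if_neg h2]
        have h3 : ∑ q ∈ ({(-x, -y), (-y, -x)} : Finset (ZMod p × ZMod p)), f x y q.1 q.2 ≤ ∑ q ∈ U ×ˢ U, f x y q.1 q.2 := by
          apply sum_le_sum_of_subset_of_nonneg
          · intro q hq
            rw [mem_insert, mem_singleton] at hq
            rcases hq with rfl | rfl
            · exact mem_product.2 ⟨hneg x hx, hneg y hy⟩
            · exact mem_product.2 ⟨hneg y hy, hneg x hx⟩
          · intro q _ _
            exact hf0 _ _ _ _
        refine le_trans (le_of_eq ?_) h3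
        rw [sum_pair (by
          intro h4
          have h5 := (Prod.mk.inj h4).1
          exact h2 (neg_injective h5).symm)]
        rw [hf]
        simp only
        rw [if_pos (by ring), if_pos (by rw [inv_neg, inv_neg]; ring), if_pos (by ring), if_pos (by rw [inv_neg, inv_neg]; ring)]
        ring
  rw [h']
  refine le_trans (le_of_eq ?_) (sum_le_sum fun x hx => sum_le_sum fun y hy => hxy x hx y hy)
  have hx1 : ∀ x ∈ U, ∑ y ∈ U, (p : ℝ) ^ 2 * (2 - (if y = x then 1 else 0) + (if y = -x then ((p : ℝ) - 3) else 0)) =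
      (p : ℝ) ^ 2 * (2 * ((p : ℝ) - 1) - 1 + ((p : ℝ) - 3)) := by
    intro x hx
    rw [← mul_sum, sum_add_distrib, sum_sub_distrib, sum_const, nsmul_eq_mul, hcard, sum_ite_eq' U x, if_pos hx,
      sum_ite_eq' U (-x), if_pos (hneg x hx)]
    ring
  rw [sum_congr rfl hx1, sum_const, nsmul_eq_mul, hcard]
  ring

/-- the fourth moment -/
theorem m4_lower : 2 * (p : ℝ) ^ 3 - 3 * (p : ℝ) ^ 2 - 3 * p ≤ ∑ a : ZMod p, rk p a 1 ^ 4 := by
  have h1 := moment_eq (p := p) 4
  have h2 := two_dim_four_lower (p := p)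
  have hp1 := p_gt (p := p)
  have hp0 : 0 < (p : ℝ) - 1 := by linarith
  refine le_of_mul_le_mul_left (a := (p : ℝ) - 1) ?_ hp0
  rw [h1]
  have h3 : ((p : ℝ) - 1) * (2 * (p : ℝ) ^ 3 - 3 * (p : ℝ) ^ 2 - 3 * p) =
      (p : ℝ) ^ 2 * (((p : ℝ) - 1) * (3 * (p : ℝ) - 6)) - ((p : ℝ) - 1) ^ 4 - ((p : ℝ) - 1) * (-1) ^ 4 := by
    ring
  rw [h3]
  linarith

/-- the value at `0` -/
theorem rk_zero_one : rk p 0 1 = -1 := by
  have h : KK p 0 1 = -1 := by
    unfold KK Kl
    have h1 : ∑ z ∈ univ.erase (0 : ZMod p), (ZMod.stdAddChar (0 * z + 1 * z⁻¹) : ℂ) =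
        ∑ z ∈ univ.erase (0 : ZMod p), (ZMod.stdAddChar z : ℂ) := by
      refine sum_nbij' (fun z => z⁻¹) (fun z => z⁻¹) ?_ ?_ ?_ ?_ ?_
      · intro z hz
        rw [mem_erase] at hz ⊢
        exact ⟨inv_ne_zero hz.1, mem_univ _⟩
      · intro z hz
        rw [mem_erase] at hz ⊢
        exact ⟨inv_ne_zero hz.1, mem_univ _⟩
      · intro z _
        exact inv_inv z
      · intro z _
        exact inv_inv z
      · intro z _
        rw [zero_mul, zero_add, one_mul]
    rw [h1]
    have h2 : ∑ z : ZMod p, (ZMod.stdAddChar z : ℂ) = 0 := by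
      have := AddChar.sum_mulShift (1 : ZMod p) (prim (p := p))
      rw [if_neg one_ne_zero, Nat.cast_zero] at this
      rw [← this]
      exact sum_congr rfl fun z _ => by rw [mul_one]
    rw [← add_sum_erase _ _ (mem_univ (0 : ZMod p)), AddChar.map_zero_eq_one] at h2
    linear_combination h2
  unfold rk
  rw [h]
  simp

/-- the correlation of two shifts -/
theorem corr_shift {d : ZMod p} (hd : d ≠ 0) : ∑ a : ZMod p, rk p a 1 * rk p (a + d) 1 = -p := by
  have h : ((∑ a : ZMod p, rk p a 1 * rk p (a + d) 1 : ℝ) : ℂ) = -(p : ℂ) := by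
    push_cast
    simp only [rk_eq]
    set U : Finset (ZMod p) := univ.erase 0 with hU
    have e1 : ∀ a : ZMod p, KK p a 1 * KK p (a + d) 1 = ∑ x ∈ U, ∑ y ∈ U,
        ZMod.stdAddChar (a * (x + y)) * ZMod.stdAddChar (d * y + (x⁻¹ + y⁻¹)) := by
      intro a
      unfold KK Kl
      rw [sum_mul_sum]
      refine sum_congr rfl fun x _ => sum_congr rfl fun y _ => ?_
      rw [← AddChar.map_add_eq_mul, ← AddChar.map_add_eq_mul]
      congr 1
      ring
    rw [sum_congr rfl fun a _ => e1 a, sum_comm]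
    have e2 : ∀ x ∈ U, ∑ a : ZMod p, ∑ y ∈ U, (ZMod.stdAddChar (a * (x + y)) * ZMod.stdAddChar (d * y + (x⁻¹ + y⁻¹)) : ℂ) =
        (p : ℂ) * ZMod.stdAddChar (-(d * x)) := by
      intro x hx
      have hx0 : x ≠ 0 := (mem_erase.1 hx).1
      rw [sum_comm]
      have e3 : ∀ y ∈ U, ∑ a : ZMod p, (ZMod.stdAddChar (a * (x + y)) * ZMod.stdAddChar (d * y + (x⁻¹ + y⁻¹)) : ℂ) =
          if y = -x then (p : ℂ) * ZMod.stdAddChar (-(d * x)) else 0 := by
        intro y _
        rw [← sum_mul, AddChar.sum_mulShift _ (prim (p := p)), ZMod.card]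
        by_cases h1 : y = -x
        · rw [if_pos h1, if_pos (by rw [h1]; ring), h1, inv_neg]
          congr 2
          ring
        · rw [if_neg h1, if_neg (fun h2 => h1 (by linear_combination h2)), Nat.cast_zero, zero_mul]
      rw [sum_congr rfl e3, sum_ite_eq' U (-x), if_pos (by
        rw [hU, mem_erase]
        exact ⟨neg_ne_zero.2 hx0, mem_univ _⟩)]
    rw [sum_congr rfl e2, ← mul_sum]
    have h2 : ∑ z : ZMod p, (ZMod.stdAddChar (-(d * z)) : ℂ) = 0 := by
      have := AddChar.sum_mulShift (-d) (prim (p := p))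
      rw [if_neg (neg_ne_zero.2 hd), Nat.cast_zero] at this
      rw [← this]
      exact sum_congr rfl fun z _ => by congr 1; ring
    rw [← add_sum_erase _ _ (mem_univ (0 : ZMod p)), mul_zero, neg_zero, AddChar.map_zero_eq_one] at h2
    rw [← hU] at h2
    linear_combination (p : ℂ) * h2
  exact_mod_cast h

/-- Weil's bound -/
theorem rk_le {a : ZMod p} (ha : a ≠ 0) : |rk p a 1| ≤ 2 * Real.sqrt p := by
  have h := Pool.Agent.H498R2.kloosterman_prime p a 1 ha one_ne_zero
  have h1 : ∑ x : (ZMod p)ˣ, (ZMod.stdAddChar (a * (x : ZMod p) + 1 * ((x⁻¹ : (ZMod p)ˣ) : ZMod p)) : ℂ) = KK p a 1 := by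
    unfold KK Kl
    refine sum_bij (fun x _ => (x : ZMod p)) ?_ ?_ ?_ ?_
    · intro x _
      exact mem_erase.2 ⟨x.ne_zero, mem_univ _⟩
    · intro x _ y _ hxy
      exact Units.ext hxy
    · intro z hz
      exact ⟨Units.mk0 z (mem_erase.1 hz).1, mem_univ _, rfl⟩
    · intro x _
      rw [Units.val_inv_eq_inv_val]
  rw [h1, ← rk_eq, Complex.norm_real, Real.norm_eq_abs] at h
  exact h

end Pool.Agent.K7.H79.KL
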