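import Pool.Agent.TH894.NE5
import Mathlib.Algebra.MvPolynomial.SchwartzZippel
import Mathlib.Algebra.MvPolynomial.PDeriv

/-!
# Values of polynomials which are linear in one variable, over a prime field
-/

set_option autoImplicit false

namespace Pool.Agent.K7.H79.KL

open Finset MvPolynomial
open Pool.Agent.TH894.NE (mean box mem_box)

/-- the value after a shift of a variable of degree at most one -/
theorem eval_shift {R : Type*} [CommRing R] {d : ℕ} (F : MvPolynomial (Fin d) R) (i : Fin d) (h : F.degreeOf i ≤ 1)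
    (v : Fin d → R) (t : R) : eval (Function.update v i (v i + t)) F = eval v F + t * eval v (pderiv i F) := by
  have key : ∀ (e : Fin d →₀ ℕ) (c : R), e i ≤ 1 → eval (Function.update v i (v i + t)) (monomial e c) =
      eval v (monomial e c) + t * eval v (pderiv i (monomial e c)) := by
    intro e c he
    rw [pderiv_monomial]
    simp only [eval_monomial]
    rw [Finsupp.prod_fintype _ _ (fun _ => pow_zero _), Finsupp.prod_fintype _ _ (fun _ => pow_zero _),
      Finsupp.prod_fintype _ _ (fun _ => pow_zero _)]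
    rw [← mul_prod_erase univ _ (mem_univ i), ← mul_prod_erase univ (fun l => v l ^ e l) (mem_univ i),
      ← mul_prod_erase univ (fun l => v l ^ ((e - Finsupp.single i 1 : Fin d →₀ ℕ) l)) (mem_univ i)]
    have h1 : ∏ x ∈ univ.erase i, Function.update v i (v i + t) x ^ e x = ∏ x ∈ univ.erase i, v x ^ e x := by
      refine prod_congr rfl fun x hx => ?_
      rw [Function.update_of_ne (mem_erase.1 hx).1]
    have h2 : ∏ x ∈ univ.erase i, v x ^ ((e - Finsupp.single i 1 : Fin d →₀ ℕ) x) = ∏ x ∈ univ.erase i, v x ^ e x := by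
      refine prod_congr rfl fun x hx => ?_
      have : (e - Finsupp.single i 1 : Fin d →₀ ℕ) x = e x := by
        rw [Finsupp.tsub_apply, Finsupp.single_eq_of_ne (mem_erase.1 hx).1, Nat.sub_zero]
      rw [this]
    rw [h1, h2, Function.update_self]
    have h3 : e i = 0 ∨ e i = 1 := by omega
    rcases h3 with h3 | h3
    · rw [h3]
      simp
    · have h4 : (e - Finsupp.single i 1 : Fin d →₀ ℕ) i = 0 := by
        rw [Finsupp.tsub_apply, Finsupp.single_eq_same, h3]
      rw [h3, h4]
      simp
      ring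
  have h1 := support_sum_monomial_coeff F
  have h2 : ∀ e ∈ F.support, e i ≤ 1 := fun e he => (monomial_le_degreeOf i he).trans h
  rw [← h1]
  simp only [map_sum]
  rw [mul_sum, ← sum_add_distrib]
  exact sum_congr rfl fun e he => key e _ (h2 e he)

section
variable {p : ℕ} [hp : Fact p.Prime] {d : ℕ}

theorem sum_shift (G : (Fin d → ZMod p) → ℝ) (i : Fin d) (t : ZMod p) :
    ∑ v : Fin d → ZMod p, G (Function.update v i (v i + t)) = ∑ v, G v := by
  rw [← Equiv.sum_comp (Equiv.addRight (Pi.single i t : Fin d → ZMod p)) G]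
  refine sum_congr rfl fun v _ => ?_
  congr 1
  funext l
  show Function.update v i (v i + t) l = v l + (Pi.single i t : Fin d → ZMod p) l
  by_cases h : l = i
  · rw [h, Function.update_self, Pi.single_eq_same]
  · rw [Function.update_of_ne h, Pi.single_eq_of_ne h, add_zero]

open Classical in
/-- the values of a polynomial linear in one variable are nearly uniformly distributed -/
theorem sum_values (F : MvPolynomial (Fin d) (ZMod p)) (i : Fin d) (h : F.degreeOf i ≤ 1) (g : ZMod p → ℝ) (B : ℝ)
    (hg : ∀ a, |g a| ≤ B) :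
    |(p : ℝ) * ∑ v : Fin d → ZMod p, g (eval v F) - (p : ℝ) ^ d * ∑ a : ZMod p, g a| ≤
      2 * B * p * ((univ : Finset (Fin d → ZMod p)).filter (fun v => eval v (pderiv i F) = 0)).card := by
  have hp0 : (0 : ℝ) < p := by exact_mod_cast hp.out.pos
  have hB : 0 ≤ B := (abs_nonneg _).trans (hg 0)
  obtain ⟨S, hS⟩ : ∃ S : ℝ, S = ∑ a : ZMod p, g a := ⟨_, rfl⟩
  have hSB : |S| ≤ B * p := by
    rw [hS]
    refine (abs_sum_le_sum_abs _ _).trans ?_
    refine (sum_le_sum fun a _ => hg a).trans (le_of_eq ?_)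
    rw [sum_const, card_univ, ZMod.card, nsmul_eq_mul, mul_comm]
  have h1 : (p : ℝ) * ∑ v : Fin d → ZMod p, g (eval v F) =
      ∑ v : Fin d → ZMod p, ∑ t : ZMod p, g (eval v F + t * eval v (pderiv i F)) := by
    rw [sum_comm]
    have h2 : ∀ t ∈ (univ : Finset (ZMod p)), ∑ v : Fin d → ZMod p, g (eval v F + t * eval v (pderiv i F)) =
        ∑ v : Fin d → ZMod p, g (eval v F) := by
      intro t _
      rw [← sum_shift (fun v => g (eval v F)) i t]
      refine sum_congr rfl fun v _ => ?_
      rw [eval_shift F i h v t]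
    rw [sum_congr rfl h2, sum_const, card_univ, ZMod.card, nsmul_eq_mul]
  have h3 : (p : ℝ) ^ d * S = ∑ _v : Fin d → ZMod p, S := by
    rw [sum_const, card_univ, Fintype.card_fun, ZMod.card, Fintype.card_fin, nsmul_eq_mul]
    push_cast
    rfl
  rw [← hS, h1, h3, ← sum_sub_distrib]
  refine (abs_sum_le_sum_abs _ _).trans ?_
  have h4 : ∀ v ∈ (univ : Finset (Fin d → ZMod p)), |∑ t : ZMod p, g (eval v F + t * eval v (pderiv i F)) - S| ≤
      if eval v (pderiv i F) = 0 then 2 * B * p else 0 := by
    intro v _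
    by_cases hv : eval v (pderiv i F) = 0
    · rw [if_pos hv]
      have h5 : |∑ t : ZMod p, g (eval v F + t * eval v (pderiv i F))| ≤ B * p := by
        refine (abs_sum_le_sum_abs _ _).trans ?_
        refine (sum_le_sum fun a _ => hg _).trans (le_of_eq ?_)
        rw [sum_const, card_univ, ZMod.card, nsmul_eq_mul, mul_comm]
      have h6 := abs_sub (∑ t : ZMod p, g (eval v F + t * eval v (pderiv i F))) S
      linarith
    · rw [if_neg hv]
      have h5 : ∑ t : ZMod p, g (eval v F + t * eval v (pderiv i F)) = S := by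
        rw [hS]
        refine sum_nbij' (fun t => eval v F + t * eval v (pderiv i F)) (fun a => (a - eval v F) * (eval v (pderiv i F))⁻¹)
          (fun _ _ => mem_univ _) (fun _ _ => mem_univ _) ?_ ?_ ?_
        · intro t _
          field_simp
          ring
        · intro a _
          field_simp
          ring
        · intro t _
          rfl
      rw [h5, sub_self, abs_zero]
  refine (sum_le_sum h4).trans (le_of_eq ?_)
  rw [← sum_filter, sum_const, nsmul_eq_mul, mul_comm]

open Classical in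
/-- the number of the zeros of a polynomial -/
theorem card_zeros (P : MvPolynomial (Fin d) (ZMod p)) (hP : P ≠ 0) (D : ℕ) (hD : ∀ l, P.degreeOf l ≤ D) :
    (p : ℝ) * ((univ : Finset (Fin d → ZMod p)).filter (fun v => eval v P = 0)).card ≤ (d * D : ℝ) * (p : ℝ) ^ d := by
  have hp0 : (0 : ℝ) < p := by exact_mod_cast hp.out.pos
  have h := schwartz_zippel_sum_degreeOf (p := P) hP (fun _ => (univ : Finset (ZMod p)))
  have h1 : (((univ : Finset (Fin d → ZMod p)).filter (fun v => eval v P = 0)).card : ℝ) / (p : ℝ) ^ d ≤ (d * D : ℝ) / p := by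
    have h2 : ((((Fintype.piFinset (fun _ : Fin d => (univ : Finset (ZMod p)))).filter (fun v => eval v P = 0)).card : ℚ≥0) : ℝ) /
        ((∏ _i : Fin d, ((univ : Finset (ZMod p)).card : ℚ≥0) : ℚ≥0) : ℝ) ≤
        ((∑ i : Fin d, (P.degreeOf i / ((univ : Finset (ZMod p)).card : ℚ≥0) : ℚ≥0) : ℚ≥0) : ℝ) := by
      exact_mod_cast h
    push_cast at h2
    simp only [card_univ, ZMod.card, prod_const, Fintype.card_fin, Fintype.piFinset_univ] at h2
    refine h2.trans ?_
    rw [← sum_div]
    apply div_le_div_of_nonneg_right _ hp0.le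
    calc ∑ i : Fin d, (P.degreeOf i : ℝ) ≤ ∑ _i : Fin d, (D : ℝ) := sum_le_sum fun i _ => by exact_mod_cast hD i
      _ = d * D := by rw [sum_const, card_univ, Fintype.card_fin, nsmul_eq_mul]
  rw [div_le_div_iff₀ (by positivity) hp0] at h1
  linarith

/-- the means of functions of the values of a polynomial -/
theorem mean_values (F : MvPolynomial (Fin d) (ZMod p)) (i : Fin d) (h : F.degreeOf i ≤ 1) (hP : pderiv i F ≠ 0) (D : ℕ)
    (hD : ∀ l, F.degreeOf l ≤ D) (g : ZMod p → ℝ) (B : ℝ) (hg : ∀ a, |g a| ≤ B) :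
    |mean d p (fun m => g (eval (fun l => ((m l : ℕ) : ZMod p)) F)) - (∑ a : ZMod p, g a) / p| ≤ 2 * B * (d * D) / p := by
  classical
  have hp0 : (0 : ℝ) < p := by exact_mod_cast hp.out.pos
  have hB : 0 ≤ B := (abs_nonneg _).trans (hg 0)
  have h1 := sum_values F i h g B hg
  have hD' : ∀ l, (pderiv i F).degreeOf l ≤ D := by
    intro l
    rw [degreeOf_le_iff]
    intro e he
    rw [mem_support_iff, coeff_pderiv] at he
    have h2 : e + Finsupp.single i 1 ∈ F.support := by
      rw [mem_support_iff]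
      intro h3
      exact he (by rw [h3, zero_mul])
    have h3 := (monomial_le_degreeOf l h2).trans (hD l)
    rw [Finsupp.add_apply] at h3
    omega
  have h2 := card_zeros (pderiv i F) hP D hD'
  have h3 : mean d p (fun m => g (eval (fun l => ((m l : ℕ) : ZMod p)) F)) = (∑ v : Fin d → ZMod p, g (eval v F)) / (p : ℝ) ^ d := by
    unfold mean
    rw [one_div, div_eq_inv_mul]
    congr 1
    refine sum_bij (fun m _ => fun l => ((m l : ℕ) : ZMod p)) ?_ ?_ ?_ ?_
    · intro m _
      exact mem_univ _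
    · intro m hm m' hm' h1
      rw [mem_box] at hm hm'
      funext l
      have h2 : ((m l : ℕ) : ZMod p).val = ((m' l : ℕ) : ZMod p).val := congrArg _ (congrFun h1 l)
      rwa [ZMod.val_cast_of_lt (hm l), ZMod.val_cast_of_lt (hm' l)] at h2
    · intro v _
      refine ⟨fun l => (v l).val, ?_, ?_⟩
      · rw [mem_box]
        exact fun l => ZMod.val_lt _
      · funext l
        exact ZMod.natCast_zmod_val _
    · intro m _
      rfl
  rw [h3]
  obtain ⟨X, hX⟩ : ∃ X : ℝ, X = ∑ v : Fin d → ZMod p, g (eval v F) := ⟨_, rfl⟩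
  obtain ⟨S, hS⟩ : ∃ S : ℝ, S = ∑ a : ZMod p, g a := ⟨_, rfl⟩
  obtain ⟨Z, hZ⟩ : ∃ Z : ℝ, Z = (((univ : Finset (Fin d → ZMod p)).filter (fun v => eval v (pderiv i F) = 0)).card : ℝ) := ⟨_, rfl⟩
  rw [← hX, ← hS, ← hZ] at h1
  rw [← hZ] at h2
  rw [← hX, ← hS]
  have hpd : (0 : ℝ) < (p : ℝ) ^ d := by positivity
  have e1 : X / (p : ℝ) ^ d - S / p = (p * X - (p : ℝ) ^ d * S) / (p * (p : ℝ) ^ d) := by
    field_simp
  rw [e1, abs_div, abs_of_pos (by positivity : 0 < (p : ℝ) * (p : ℝ) ^ d), div_le_div_iff₀ (by positivity) hp0]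
  have h4 : 2 * B * p * Z ≤ 2 * B * ((d * D : ℝ) * (p : ℝ) ^ d) := by
    have : 2 * B * p * Z = 2 * B * (p * Z) := by ring
    rw [this]
    exact mul_le_mul_of_nonneg_left h2 (by positivity)
  calc |p * X - (p : ℝ) ^ d * S| * p ≤ (2 * B * ((d * D : ℝ) * (p : ℝ) ^ d)) * p :=
        mul_le_mul_of_nonneg_right (h1.trans h4) hp0.le
    _ = 2 * B * (d * D) * (p * (p : ℝ) ^ d) := by ring

end

/-- the polynomials with bounded degrees and coefficients -/
def Bdd {d : ℕ} (D M : ℕ) (F : MvPolynomial (Fin d) ℤ) : Prop :=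
  (∀ l, F.degreeOf l ≤ D) ∧ ∀ e, |F.coeff e| ≤ M

/-- a finite set of polynomials -/
noncomputable def polys (d D M : ℕ) : Finset (MvPolynomial (Fin d) ℤ) := by
  classical
  exact (Fintype.piFinset (fun _ : (Fin d → Fin (D + 1)) => Icc (-(M : ℤ)) M)).image
    (fun c => ∑ e : Fin d → Fin (D + 1), monomial (Finsupp.equivFunOnFinite.symm (fun l => ((e l : Fin (D + 1)) : ℕ))) (c e))

theorem card_polys (d D M : ℕ) : (polys d D M).card ≤ (2 * M + 1) ^ ((D + 1) ^ d) := by
  classical
  unfold polys
  refine card_image_le.trans (le_of_eq ?_)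
  rw [Fintype.card_piFinset, prod_const, card_univ, Int.card_Icc]
  have h1 : ((M : ℤ) + 1 - -(M : ℤ)).toNat = 2 * M + 1 := by
    have : ((M : ℤ) + 1 - -(M : ℤ)) = ((2 * M + 1 : ℕ) : ℤ) := by
      push_cast
      ring
    rw [this, Int.toNat_natCast]
  rw [h1, Fintype.card_fun, Fintype.card_fin, Fintype.card_fin]

theorem mem_polys {d : ℕ} (D M : ℕ) (F : MvPolynomial (Fin d) ℤ) (h : Bdd D M F) : F ∈ polys d D M := by
  classical
  unfold polys
  rw [mem_image]
  refine ⟨fun e => F.coeff (Finsupp.equivFunOnFinite.symm (fun l => ((e l : Fin (D + 1)) : ℕ))), ?_, ?_⟩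
  · rw [Fintype.mem_piFinset]
    intro e
    rw [mem_Icc]
    exact abs_le.1 (h.2 _)
  · conv_rhs => rw [← support_sum_monomial_coeff F]
    symm
    refine sum_bij_ne_zero (fun e _ _ => fun l => ⟨min (e l) D, by omega⟩) ?_ ?_ ?_ ?_
    · intro e _ _
      exact mem_univ _
    · intro e he _ e' he' _ hee
      ext l
      have h1 := congrArg Fin.val (congrFun hee l)
      have h2 := (monomial_le_degreeOf l he).trans (h.1 l)
      have h3 := (monomial_le_degreeOf l he').trans (h.1 l)
      simp only at h1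
      omega
    · intro e _ he
      refine ⟨Finsupp.equivFunOnFinite.symm (fun l => ((e l : Fin (D + 1)) : ℕ)), ?_, he, ?_⟩
      · rw [mem_support_iff]
        intro h1
        apply he
        show monomial _ (F.coeff (Finsupp.equivFunOnFinite.symm (fun l => ((e l : Fin (D + 1)) : ℕ)))) = 0
        rw [h1, monomial_zero]
      · funext l
        apply Fin.ext
        show min ((e l : Fin (D + 1)) : ℕ) D = e l
        have := (e l).2
        omega
    · intro e he _
      have h1 : (Finsupp.equivFunOnFinite.symm (fun l => (((fun l => (⟨min (e l) D, by omega⟩ : Fin (D + 1))) : Fin d → Fin (D + 1)) l : ℕ)) : Fin d →₀ ℕ) = e := by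
        ext l
        have h2 := (monomial_le_degreeOf l he).trans (h.1 l)
        show min (e l) D = e l
        omega
      exact congrArg₂ (fun x y => monomial x (F.coeff y)) h1.symm h1.symm

end Pool.Agent.K7.H79.KL
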