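import Pool.Agent.K7.H79.KL.BoxF
import Pool.Agent.K7.H79.KL.Pol
import Pool.Agent.K7.H79.KL.Lin

/-!
# Kloosterman angles at the values of polynomials which are linear in one variable
-/

set_option autoImplicit false

namespace Pool.Agent.K7.H79.KL

open Finset MvPolynomial
open Pool.Agent.TH375.KL (rk sign_mean)
open Pool.Agent.TH894.NE (mean Pr box Pr_nonneg Pr_le_one mem_box)
open Pool.Agent.TH894.NF (pr pr_prime pr_inj)
open Pool.Agent.Y57.FD (exceptions digit)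

/-- the value of a polynomial -/
noncomputable def pval {d : ℕ} (F : MvPolynomial (Fin d) ℤ) (m : Fin d → ℕ) : ℤ := eval (fun l => (m l : ℤ)) F

theorem pval_cast {d : ℕ} (p : ℕ) (F : MvPolynomial (Fin d) ℤ) (m : Fin d → ℕ) :
    ((pval F m : ℤ) : ZMod p) = eval (fun l => ((m l : ℕ) : ZMod p)) (map (Int.castRingHom (ZMod p)) F) := by
  rw [eval_map]
  unfold pval
  have h := eval₂_comp (Int.castRingHom (ZMod p)) (fun l => (m l : ℤ)) F
  refine (show ((eval (fun l => (m l : ℤ)) F : ℤ) : ZMod p) = _ from h).trans ?_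
  congr 1
  funext l
  simp

theorem pval_mod {d : ℕ} (p : ℕ) (F : MvPolynomial (Fin d) ℤ) (m : Fin d → ℕ) :
    ((pval F m : ℤ) : ZMod p) = ((pval F (fun l => m l % p) : ℤ) : ZMod p) := by
  rw [pval_cast, pval_cast]
  simp

/-- a polynomial of degree one in one of the variables, with bounded degrees and coefficients -/
def Lin1 {d : ℕ} (D M : ℕ) (F : MvPolynomial (Fin d) ℤ) : Prop :=
  (∃ i, F.degreeOf i = 1) ∧ (∀ l, F.degreeOf l ≤ D) ∧ ∀ e, |F.coeff e| ≤ M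

theorem degreeOf_map {d : ℕ} (p : ℕ) (F : MvPolynomial (Fin d) ℤ) (l : Fin d) :
    (map (Int.castRingHom (ZMod p)) F).degreeOf l ≤ F.degreeOf l := by
  rw [degreeOf_le_iff]
  intro e he
  exact monomial_le_degreeOf l (support_map_subset _ _ he)

/-- the exceptional number -/
theorem exc_lin {d : ℕ} (D M : ℕ) (F : MvPolynomial (Fin d) ℤ) (h : Lin1 D M F) : ∃ i, F.degreeOf i = 1 ∧ ∃ D₀ : ℕ, 0 < D₀ ∧ D₀ ≤ M ∧
    ∀ p, ¬ p ∣ D₀ → pderiv i (map (Int.castRingHom (ZMod p)) F) ≠ 0 := by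
  obtain ⟨⟨i, hi⟩, _, hM⟩ := h
  have h1 : ∃ e ∈ F.support, e i = 1 := by
    rw [degreeOf_eq_sup] at hi
    have hne : F.support.Nonempty := by
      rw [nonempty_iff_ne_empty]
      intro h0
      rw [h0, sup_empty] at hi
      exact absurd hi (by simp)
    obtain ⟨e, he, he2⟩ := exists_mem_eq_sup F.support hne (fun m => m i)
    exact ⟨e, he, by rw [← hi, he2]⟩
  obtain ⟨e, he, he1⟩ := h1
  rw [mem_support_iff] at he
  refine ⟨i, hi, (F.coeff e).natAbs, Int.natAbs_pos.2 he, ?_, fun p hp h0 => ?_⟩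
  · have h2 : (((F.coeff e).natAbs : ℕ) : ℤ) ≤ M := by
      rw [Int.natCast_natAbs]
      exact hM e
    exact_mod_cast h2
  · have h2 := congrArg (coeff (e - Finsupp.single i 1)) h0
    rw [coeff_pderiv, coeff_zero, coeff_map] at h2
    have h3 : (e - Finsupp.single i 1 : Fin d →₀ ℕ) + Finsupp.single i 1 = e := by
      apply tsub_add_cancel_of_le
      rw [Finsupp.single_le_iff]
      omega
    have h4 : (e - Finsupp.single i 1 : Fin d →₀ ℕ) i = 0 := by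
      rw [Finsupp.tsub_apply, Finsupp.single_eq_same]
      omega
    rw [h3, h4] at h2
    have h5 : ((F.coeff e : ℤ) : ZMod p) = 0 := by
      simpa using h2
    rw [ZMod.intCast_zmod_eq_zero_iff_dvd] at h5
    exact hp (Int.natCast_dvd.1 h5)

open Classical in
/-- the number of the residues with a property -/
noncomputable def resT (p : ℕ) [Fact p.Prime] (T : ZMod p → Prop) : ℕ := ((univ : Finset (ZMod p)).filter T).card

theorem resT_eq (p : ℕ) [Fact p.Prime] (T : ZMod p → Prop) [DecidablePred T] : resT p T = ((univ : Finset (ZMod p)).filter T).card := by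
  unfold resT
  congr!

open Classical in
/-- the probability of a local condition -/
theorem Pr_values {d : ℕ} (D M : ℕ) (F : MvPolynomial (Fin d) ℤ) (h : Lin1 D M F) : ∃ D₀ : ℕ, 0 < D₀ ∧ D₀ ≤ M ∧
    ∀ p (hp : Fact p.Prime), ¬ p ∣ D₀ → ∀ T : ZMod p → Prop,
    |Pr d p (fun m => T ((pval F m : ℤ) : ZMod p)) - (resT p T : ℝ) / p| ≤ 2 * (d * D) / p := by
  obtain ⟨i, hi, D₀, hD0, hDM, hD⟩ := exc_lin D M F h
  refine ⟨D₀, hD0, hDM, fun p hp hpD T => ?_⟩
  have h1 := mean_values (map (Int.castRingHom (ZMod p)) F) i ((degreeOf_map p F i).trans hi.le) (hD p hpD) D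
    (fun l => (degreeOf_map p F l).trans (h.2.1 l)) (fun a => if T a then (1 : ℝ) else 0) 1 (by
      intro a
      split_ifs <;> norm_num)
  rw [← mean_ind]
  have e1 : (fun m : Fin d → ℕ => if T ((pval F m : ℤ) : ZMod p) then (1 : ℝ) else 0) =
      fun m => (fun a => if T a then (1 : ℝ) else 0) (eval (fun l => ((m l : ℕ) : ZMod p)) (map (Int.castRingHom (ZMod p)) F)) := by
    funext m
    rw [pval_cast]
  rw [e1]
  have e2 : ∑ a : ZMod p, (if T a then (1 : ℝ) else 0) = (resT p T : ℝ) := by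
    rw [← sum_filter, sum_const, nsmul_eq_mul, mul_one]
    rfl
  rw [e2] at h1
  refine h1.trans (le_of_eq ?_)
  ring

open Classical in
/-- The angle `θ / π` in `[0, 1]`, and `1 / 2` if `p` divides `a`. -/
noncomputable def anA (p : ℕ) (a : ℤ) : ℝ :=
  if (p : ℤ) ∣ a then 1 / 2 else Real.arccos (kloosterman p a / (2 * Real.sqrt p)) / Real.pi

theorem kl_congr (p : ℕ) {a b : ℤ} (h : (a : ZMod p) = b) : kloosterman p a = kloosterman p b := by
  unfold kloosterman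
  rw [h]

theorem dvd_congr (p : ℕ) {a b : ℤ} (h : (a : ZMod p) = b) : (p : ℤ) ∣ a ↔ (p : ℤ) ∣ b := by
  rw [← ZMod.intCast_zmod_eq_zero_iff_dvd, ← ZMod.intCast_zmod_eq_zero_iff_dvd, h]

theorem anA_congr (p : ℕ) {a b : ℤ} (h : (a : ZMod p) = b) : anA p a = anA p b := by
  unfold anA
  rw [kl_congr p h]
  by_cases h1 : (p : ℤ) ∣ a
  · rw [if_pos h1, if_pos ((dvd_congr p h).1 h1)]
  · rw [if_neg h1, if_neg (fun h2 => h1 ((dvd_congr p h).2 h2))]

open Classical in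
/-- The proportion of the residues modulo `p` for which the angle is in `[u, v)`. -/
noncomputable def propA (p : ℕ) (u v : ℝ) : ℝ :=
  (((range p).filter (fun a : ℕ => u ≤ anA p (a : ℤ) ∧ anA p (a : ℤ) < v)).card : ℝ) / (p : ℝ)

theorem propA_bd (p : ℕ) (u v : ℝ) : 0 ≤ propA p u v ∧ propA p u v ≤ 1 := by
  classical
  unfold propA
  constructor
  · positivity
  · apply div_le_one_of_le₀ _ (Nat.cast_nonneg _)
    have h := card_filter_le (range p) (fun a : ℕ => u ≤ anA p (a : ℤ) ∧ anA p (a : ℤ) < v)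
    rw [card_range] at h
    exact_mod_cast h

open Classical in
/-- counting residues by natural numbers and in the field -/
theorem card_res (p : ℕ) [hp : Fact p.Prime] (T : ZMod p → Prop) :
    resT p T = ((range p).filter (fun a => T ((a : ℕ) : ZMod p))).card := by
  unfold resT
  symm
  refine card_bij (fun a _ => (a : ZMod p)) ?_ ?_ ?_
  · intro a ha
    rw [mem_filter] at ha ⊢
    exact ⟨mem_univ _, ha.2⟩
  · intro a ha b hb hab
    rw [mem_filter, mem_range] at ha hb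
    have h2 : ((a : ℕ) : ZMod p).val = ((b : ℕ) : ZMod p).val := congrArg _ hab
    rwa [ZMod.val_cast_of_lt ha.1, ZMod.val_cast_of_lt hb.1] at h2
  · intro z hz
    rw [mem_filter] at hz
    refine ⟨z.val, ?_, ZMod.natCast_zmod_val z⟩
    rw [mem_filter, mem_range]
    refine ⟨ZMod.val_lt z, ?_⟩
    rw [ZMod.natCast_zmod_val]
    exact hz.2

theorem Pr_box {d : ℕ} (D M : ℕ) (F : MvPolynomial (Fin d) ℤ) (h : Lin1 D M F) : ∃ D₀ : ℕ, 0 < D₀ ∧ D₀ ≤ M ∧
    ∀ p, p.Prime → ¬ p ∣ D₀ → ∀ u v : ℝ,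
    |Pr d p (fun m => u ≤ anA p (pval F m) ∧ anA p (pval F m) < v) - propA p u v| ≤ 2 * (d * D) / p := by
  classical
  obtain ⟨D₀, hD0, hDM, hD⟩ := Pr_values D M F h
  refine ⟨D₀, hD0, hDM, fun p hp hpD u v => ?_⟩
  have hF : Fact p.Prime := ⟨hp⟩
  have hT : ∀ a : ℤ, (u ≤ anA p a ∧ anA p a < v) ↔ (u ≤ anA p ((a : ZMod p).val : ℤ) ∧ anA p ((a : ZMod p).val : ℤ) < v) := by
    intro a
    rw [anA_congr p (a := a) (b := ((a : ZMod p).val : ℤ)) (by simp)]
  have h1 := hD p hF hpD (fun z => u ≤ anA p (z.val : ℤ) ∧ anA p (z.val : ℤ) < v)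
  have e1 : (fun m : Fin d → ℕ => u ≤ anA p (pval F m) ∧ anA p (pval F m) < v) =
      fun m : Fin d → ℕ => u ≤ anA p ((((pval F m : ℤ) : ZMod p)).val : ℤ) ∧ anA p ((((pval F m : ℤ) : ZMod p)).val : ℤ) < v := by
    funext m
    exact propext (hT _)
  rw [e1]
  have e2 : propA p u v = (resT p (fun z => u ≤ anA p (z.val : ℤ) ∧ anA p (z.val : ℤ) < v) : ℝ) / p := by
    unfold propA
    rw [card_res]
    congr 2
    apply congrArg
    ext a
    simp only [mem_filter, mem_range]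
    apply and_congr_right
    intro ha
    rw [ZMod.val_cast_of_lt ha]
  rw [e2]
  exact h1

/-- the probability of a sign -/
theorem Pr_sign {d : ℕ} (D M : ℕ) (F : MvPolynomial (Fin d) ℤ) (h : Lin1 D M F) : ∃ D₀ : ℕ, 0 < D₀ ∧ D₀ ≤ M ∧
    ∀ p, p.Prime → ¬ p ∣ D₀ → ∀ σ : ℝ, (σ = 1 ∨ σ = -1) → ∀ η : ℝ, 0 ≤ η →
    (1 / 4 - η) - (2 + 2 * (d * D)) / Real.sqrt p ≤ Pr d p (fun m => ¬ (p : ℤ) ∣ pval F m ∧ η * Real.sqrt p < σ * kloosterman p (pval F m)) := by
  classical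
  obtain ⟨D₀, hD0, hDM, hD⟩ := Pr_values D M F h
  refine ⟨D₀, hD0, hDM, fun p hp hpD σ hσ η hη => ?_⟩
  have hF : Fact p.Prime := ⟨hp⟩
  have hp0 : (0 : ℝ) < p := by exact_mod_cast hp.pos
  have hp1 : (1 : ℝ) ≤ p := by exact_mod_cast hp.one_lt.le
  have hσ2 : σ ^ 2 = 1 := by rcases hσ with h | h <;> rw [h] <;> norm_num
  have h1 := hD p hF hpD (fun z => z ≠ 0 ∧ η * Real.sqrt p < σ * rk p z 1)
  have e1 : (fun m : Fin d → ℕ => ¬ (p : ℤ) ∣ pval F m ∧ η * Real.sqrt p < σ * kloosterman p (pval F m)) =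
      fun m : Fin d → ℕ => ((pval F m : ℤ) : ZMod p) ≠ 0 ∧ η * Real.sqrt p < σ * rk p ((pval F m : ℤ) : ZMod p) 1 := by
    funext m
    rw [kloosterman_eq, Ne, ZMod.intCast_zmod_eq_zero_iff_dvd]
  rw [e1]
  have h2 : (1 / 4 - η - 1 / Real.sqrt p) * p ≤ ∑ a : ZMod p, if η * Real.sqrt p < σ * rk p a 1 then (1 : ℝ) else 0 := by
    have h := sign_mean (p := p) hσ2 hη
    convert h
  rw [← sum_filter, sum_const, nsmul_eq_mul, mul_one] at h2
  have h3 : (((univ : Finset (ZMod p)).filter (fun z => η * Real.sqrt p < σ * rk p z 1)).card : ℝ) ≤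
      (((univ : Finset (ZMod p)).filter (fun z => z ≠ 0 ∧ η * Real.sqrt p < σ * rk p z 1)).card : ℝ) + 1 := by
    have h4 : ((univ : Finset (ZMod p)).filter (fun z => η * Real.sqrt p < σ * rk p z 1)) ⊆
        insert 0 ((univ : Finset (ZMod p)).filter (fun z => z ≠ 0 ∧ η * Real.sqrt p < σ * rk p z 1)) := by
      intro z hz
      rw [mem_filter] at hz
      rw [mem_insert, mem_filter]
      by_cases hz0 : z = 0
      · left
        exact hz0
      · right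
        exact ⟨mem_univ _, hz0, hz.2⟩
    have h5 := (card_le_card h4).trans (card_insert_le _ _)
    exact_mod_cast h5
  rw [resT_eq] at h1
  obtain ⟨Z, hZ⟩ : ∃ Z : ℝ, Z = (((univ : Finset (ZMod p)).filter (fun z => z ≠ 0 ∧ η * Real.sqrt p < σ * rk p z 1)).card : ℝ) := ⟨_, rfl⟩
  rw [← hZ] at h1 h3
  have h4 : (1 / 4 - η - 1 / Real.sqrt p) - 1 / p ≤ Z / p := by
    rw [le_div_iff₀ hp0]
    have : (1 / 4 - η - 1 / Real.sqrt p - 1 / p) * (p : ℝ) = (1 / 4 - η - 1 / Real.sqrt p) * p - 1 := by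
      field_simp
    rw [this]
    linarith
  have h5 := (abs_le.1 h1).1
  have hs0 : 0 < Real.sqrt p := Real.sqrt_pos.2 hp0
  have h6 : Real.sqrt p ≤ p := by
    rw [Real.sqrt_le_left hp0.le]
    nlinarith
  have h7 : 1 / (p : ℝ) ≤ 1 / Real.sqrt p := one_div_le_one_div_of_le hs0 h6
  have h8 : 2 * (d * D : ℝ) / p ≤ 2 * (d * D : ℝ) / Real.sqrt p := div_le_div_of_nonneg_left (by positivity) hs0 h6
  have h9 : (2 + 2 * (d * D : ℝ)) / Real.sqrt p = 1 / Real.sqrt p + 1 / Real.sqrt p + 2 * (d * D : ℝ) / Real.sqrt p := by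
    rw [add_div]
    ring
  rw [h9]
  linarith

/-- the finite set of the values of the angles -/
noncomputable def vals (x : ℕ) : Finset ℝ := by
  classical
  exact ((range (x + 1)) ×ˢ (range (x + 1))).image (fun pa : ℕ × ℕ => anA pa.1 (pa.2 : ℤ))

theorem card_vals (x : ℕ) : (vals x).card ≤ (x + 1) * (x + 1) := by
  classical
  unfold vals
  refine card_image_le.trans ?_
  rw [card_product, card_range]

theorem mem_vals (x p : ℕ) (hp : p.Prime) (hpx : p ≤ x) (a : ℤ) : anA p a ∈ vals x := by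
  classical
  unfold vals
  have hF : Fact p.Prime := ⟨hp⟩
  rw [mem_image]
  refine ⟨(p, (a : ZMod p).val), ?_, ?_⟩
  · rw [mem_product, mem_range, mem_range]
    have := ZMod.val_lt (a : ZMod p)
    exact ⟨by show p < x + 1; omega, by show (a : ZMod p).val < x + 1; omega⟩
  · exact anA_congr p (by simp)

theorem pr_le_cube (n s k : ℕ) (i : Fin s) (hk : k < n) (hn : 16 + s ≤ n) : pr (k + i) ≤ n ^ 3 := by
  refine (Pool.Agent.TH862.EA.nth_prime_le (k + i)).trans ?_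
  have h1 : k + i + 1 ≤ n + s := by have := i.isLt; omega
  have h2 : n + s ≤ 2 * n := by omega
  calc 4 * (k + i + 1) ^ 2 ≤ 4 * (2 * n) ^ 2 := Nat.mul_le_mul_left 4 (Nat.pow_le_pow_left (h1.trans h2) 2)
    _ = 16 * n ^ 2 := by ring
    _ ≤ n * n ^ 2 := Nat.mul_le_mul_right _ (by omega)
    _ = n ^ 3 := by ring

/-- **All boxes for all polynomials.** -/
theorem polBoxes (b d s : ℕ) (hb : 2 ≤ b) (hd : 1 ≤ d) (hs : 1 ≤ s) (δ : ℝ) (hδ : 0 < δ) (A B D : ℕ) : ∃ c : ℝ, 0 < c ∧ ∃ y₀ : ℕ,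
    ∀ (K r : Fin d → ℕ) (y : ℕ), (∀ l, 2 * r l ≤ K l) → y₀ ≤ y →
    ∀ N : Fin d → ℕ, (∀ l, N l < b ^ K l) → ∀ f : Fin d → ℕ → ℕ, (∀ l j, f l j < b ∧ f l j ≠ digit b j (N l)) →
    ∀ E : (Fin d → ℕ) → Prop,
    (∀ m : Fin d → ℕ, (∀ n : ℕ, 2 ≤ n → y ≤ n → (∀ l, (n : ℝ) ≤ Real.exp (c * r l)) →
      ∀ F : Fin s → MvPolynomial (Fin d) ℤ, (∀ i, Lin1 D (n ^ B) (F i)) → ∀ u v : Fin s → ℝ,
      |(cntT (inI (fun i p m => anA p (pval (F i) m)) u v) n m : ℝ) - ∑ k ∈ range n, ∏ i : Fin s, propA (pr (k + i)) (u i) (v i)| ≤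
        (n : ℝ) ^ (1 / 2 + δ)) → E m) →
    (exceptions b K r N f E : ℝ) ≤ 1 / (y : ℝ) ^ A * ∏ l, ((K l).choose (r l) : ℝ) := by
  classical
  obtain ⟨c, hc, y₁, h⟩ := boxesM b d s hb hd hs δ hδ A (s * ((B + 2) * (D + 1) ^ d)) (B * s) 9 (2 * (d * D)) (by positivity)
  refine ⟨c, hc, y₁ + 16 + s, fun K r y hrK hy N hN f hf E hE => ?_⟩
  refine h K r y hrK (by omega) N hN f hf (Fin s → MvPolynomial (Fin d) ℤ)
    (fun n => if 16 + s ≤ n then (Fintype.piFinset (fun _ : Fin s => polys d D (n ^ B))).filter (fun F => ∀ i, Lin1 D (n ^ B) (F i)) else ∅) ?_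
    (fun F i p m => anA p (pval (F i) m)) ?_ (fun n => vals (n ^ 3)) ?_ ?_ propA propA_bd ?_ E ?_
  · intro n hn
    show (if 16 + s ≤ n then _ else _ : Finset (Fin s → MvPolynomial (Fin d) ℤ)).card ≤ _
    split_ifs
    · refine (card_filter_le _ _).trans ?_
      rw [Fintype.card_piFinset_const]
      have h2 : 2 * n ^ B + 1 ≤ n ^ (B + 2) := by
        have h3 : 1 ≤ n ^ B := Nat.one_le_pow _ _ (by omega)
        calc 2 * n ^ B + 1 ≤ n ^ B * 2 ^ 2 := by omega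
          _ ≤ n ^ B * n ^ 2 := Nat.mul_le_mul_left _ (Nat.pow_le_pow_left hn 2)
          _ = n ^ (B + 2) := by ring
      calc (polys d D (n ^ B)).card ^ s ≤ ((2 * n ^ B + 1) ^ ((D + 1) ^ d)) ^ s := Nat.pow_le_pow_left (card_polys _ _ _) s
        _ ≤ ((n ^ (B + 2)) ^ ((D + 1) ^ d)) ^ s := Nat.pow_le_pow_left (Nat.pow_le_pow_left h2 _) s
        _ = n ^ (s * ((B + 2) * (D + 1) ^ d)) := by
            rw [← pow_mul, ← pow_mul]
            congr 1
            ring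
    · rw [card_empty]
      exact Nat.zero_le _
  · intro F i p hp m
    exact anA_congr p (pval_mod p (F i) m)
  · intro n hn
    have h1 := card_vals (n ^ 3)
    have h2 : 1 ≤ n ^ 3 := Nat.one_le_pow _ _ (by omega)
    have h3 : 8 ≤ n ^ 3 := by
      calc 8 = 2 ^ 3 := by norm_num
        _ ≤ n ^ 3 := Nat.pow_le_pow_left hn 3
    calc (vals (n ^ 3)).card + 1 ≤ (n ^ 3 + 1) * (n ^ 3 + 1) + 1 := by omega
      _ ≤ n ^ 3 * (n ^ 3 * n ^ 3) := by nlinarith
      _ = n ^ 9 := by ring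
  · intro n F hF i k hk m
    change F ∈ (if 16 + s ≤ n then _ else _ : Finset (Fin s → MvPolynomial (Fin d) ℤ)) at hF
    split_ifs at hF with hn
    · exact mem_vals _ _ (pr_prime _) (pr_le_cube n s k i hk hn) _
    · exact absurd hF (notMem_empty _)
  · intro n hn F hF
    change F ∈ (if 16 + s ≤ n then _ else _ : Finset (Fin s → MvPolynomial (Fin d) ℤ)) at hF
    split_ifs at hF with hn2
    · rw [mem_filter] at hF
      have hch : ∀ i : Fin s, ∃ D₀ : ℕ, 0 < D₀ ∧ D₀ ≤ n ^ B ∧ ∀ p, p.Prime → ¬ p ∣ D₀ → ∀ u v : ℝ,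
          |Pr d p (fun m => u ≤ anA p (pval (F i) m) ∧ anA p (pval (F i) m) < v) - propA p u v| ≤ 2 * (d * D) / p :=
        fun i => Pr_box D (n ^ B) (F i) (hF.2 i)
      choose D₀ hD0 hDM hD using hch
      refine ⟨∏ i, D₀ i, prod_pos fun i _ => hD0 i, ?_, fun i p hp hpD u v => ?_⟩
      · calc ∏ i, D₀ i ≤ ∏ _i : Fin s, n ^ B := prod_le_prod' fun i _ => hDM i
          _ = n ^ (B * s) := by rw [prod_const, card_univ, Fintype.card_fin, ← pow_mul]
      · exact hD i p hp (fun h1 => hpD (h1.trans (dvd_prod_of_mem _ (mem_univ i)))) (u i) (v i)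
    · exact absurd hF (notMem_empty _)
  · intro m hm
    refine hE m fun n hn hyn hnr F hF u v => ?_
    refine hm n hn hyn hnr F ?_ u v
    show F ∈ (if 16 + s ≤ n then _ else _ : Finset (Fin s → MvPolynomial (Fin d) ℤ))
    rw [if_pos (by omega), mem_filter, Fintype.mem_piFinset]
    exact ⟨fun i => mem_polys D (n ^ B) (F i) ⟨(hF i).2.1, (hF i).2.2⟩, hF⟩

/-- **All patterns of signs for all polynomials.** -/
theorem polSigns (b d s : ℕ) (hb : 2 ≤ b) (hd : 1 ≤ d) (hs : 1 ≤ s) (η ε : ℝ) (hη : 0 ≤ η) (hη1 : η ≤ 1 / 4) (hε : 0 < ε) (A B D : ℕ) :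
    ∃ c : ℝ, 0 < c ∧ ∃ y₀ : ℕ,
    ∀ (K r : Fin d → ℕ) (y : ℕ), (∀ l, 2 * r l ≤ K l) → y₀ ≤ y →
    ∀ N : Fin d → ℕ, (∀ l, N l < b ^ K l) → ∀ f : Fin d → ℕ → ℕ, (∀ l j, f l j < b ∧ f l j ≠ digit b j (N l)) →
    ∀ E : (Fin d → ℕ) → Prop,
    (∀ m : Fin d → ℕ, (∀ n : ℕ, 2 ≤ n → y ≤ n → (∀ l, (n : ℝ) ≤ Real.exp (c * r l)) →
      ∀ F : Fin s → MvPolynomial (Fin d) ℤ, (∀ i, Lin1 D (n ^ B) (F i)) → ∀ σ : Fin s → ℝ, (∀ i, σ i = 1 ∨ σ i = -1) →
      ((1 / 4 - η) ^ s - ε) * n ≤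
        cntT (fun i p m => ¬ (p : ℤ) ∣ pval (F i) m ∧ η * Real.sqrt p < σ i * kloosterman p (pval (F i) m)) n m) → E m) →
    (exceptions b K r N f E : ℝ) ≤ 1 / (y : ℝ) ^ A * ∏ l, ((K l).choose (r l) : ℝ) := by
  classical
  obtain ⟨c, hc, y₁, h⟩ := tuplesP b d s hb hd hs A (s * ((B + 2) * (D + 1) ^ d) + s) (B * s) (1 / 4 - η) (2 + 2 * (d * D)) ε
    (by linarith) (by linarith) hε
  refine ⟨c, hc, y₁ + 2, fun K r y hrK hy N hN f hf E hE => ?_⟩
  refine h K r y hrK (by omega) N hN f hf ((Fin s → MvPolynomial (Fin d) ℤ) × (Fin s → ℝ))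
    (fun n => ((Fintype.piFinset (fun _ : Fin s => polys d D (n ^ B))).filter (fun F => ∀ i, Lin1 D (n ^ B) (F i))) ×ˢ
      Fintype.piFinset (fun _ : Fin s => ({1, -1} : Finset ℝ))) ?_
    (fun l i p m => ¬ (p : ℤ) ∣ pval (l.1 i) m ∧ η * Real.sqrt p < l.2 i * kloosterman p (pval (l.1 i) m)) ?_ ?_ E ?_
  · intro n hn
    rw [card_product, pow_add]
    apply Nat.mul_le_mul
    · refine (card_filter_le _ _).trans ?_
      rw [Fintype.card_piFinset_const]
      have h2 : 2 * n ^ B + 1 ≤ n ^ (B + 2) := by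
        have h3 : 1 ≤ n ^ B := Nat.one_le_pow _ _ (by omega)
        calc 2 * n ^ B + 1 ≤ n ^ B * 2 ^ 2 := by omega
          _ ≤ n ^ B * n ^ 2 := Nat.mul_le_mul_left _ (Nat.pow_le_pow_left hn 2)
          _ = n ^ (B + 2) := by ring
      calc (polys d D (n ^ B)).card ^ s ≤ ((2 * n ^ B + 1) ^ ((D + 1) ^ d)) ^ s := Nat.pow_le_pow_left (card_polys _ _ _) s
        _ ≤ ((n ^ (B + 2)) ^ ((D + 1) ^ d)) ^ s := Nat.pow_le_pow_left (Nat.pow_le_pow_left h2 _) s
        _ = n ^ (s * ((B + 2) * (D + 1) ^ d)) := by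
            rw [← pow_mul, ← pow_mul]
            congr 1
            ring
    · rw [Fintype.card_piFinset_const]
      have h3 : ({1, -1} : Finset ℝ).card ≤ n := (card_le_two).trans hn
      exact Nat.pow_le_pow_left h3 s
  · intro l i p hp m
    show (¬ (p : ℤ) ∣ pval (l.1 i) m ∧ η * Real.sqrt p < l.2 i * kloosterman p (pval (l.1 i) m)) ↔
      (¬ (p : ℤ) ∣ pval (l.1 i) (fun j => m j % p) ∧ η * Real.sqrt p < l.2 i * kloosterman p (pval (l.1 i) (fun j => m j % p)))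
    rw [kl_congr p (pval_mod p (l.1 i) m), dvd_congr p (pval_mod p (l.1 i) m)]
  · intro n hn l hl
    rw [mem_product, mem_filter, Fintype.mem_piFinset, Fintype.mem_piFinset] at hl
    have hch : ∀ i : Fin s, ∃ D₀ : ℕ, 0 < D₀ ∧ D₀ ≤ n ^ B ∧ ∀ p, p.Prime → ¬ p ∣ D₀ → ∀ σ : ℝ, (σ = 1 ∨ σ = -1) → ∀ η : ℝ, 0 ≤ η →
        (1 / 4 - η) - (2 + 2 * (d * D)) / Real.sqrt p ≤
          Pr d p (fun m => ¬ (p : ℤ) ∣ pval (l.1 i) m ∧ η * Real.sqrt p < σ * kloosterman p (pval (l.1 i) m)) :=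
      fun i => Pr_sign D (n ^ B) (l.1 i) (hl.1.2 i)
    choose D₀ hD0 hDM hD using hch
    refine ⟨∏ i, D₀ i, prod_pos fun i _ => hD0 i, ?_, fun i p hp hpD => ?_⟩
    · calc ∏ i, D₀ i ≤ ∏ _i : Fin s, n ^ B := prod_le_prod' fun i _ => hDM i
        _ = n ^ (B * s) := by rw [prod_const, card_univ, Fintype.card_fin, ← pow_mul]
    · have hσ : l.2 i = 1 ∨ l.2 i = -1 := by
        have := hl.2 i
        rw [mem_insert, mem_singleton] at this
        exact this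
      exact hD i p hp (fun h1 => hpD (h1.trans (dvd_prod_of_mem _ (mem_univ i)))) (l.2 i) hσ η hη
  · intro m hm
    refine hE m fun n hn hyn hnr F hF σ hσ => ?_
    refine hm n hn hyn hnr (F, σ) ?_
    rw [mem_product, mem_filter, Fintype.mem_piFinset, Fintype.mem_piFinset]
    refine ⟨⟨fun i => mem_polys D (n ^ B) (F i) ⟨(hF i).2.1, (hF i).2.2⟩, hF⟩, fun i => ?_⟩
    rw [mem_insert, mem_singleton]
    exact hσ i

end Pool.Agent.K7.H79.KL
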