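import Pool.Agent.K7.H79.KL.Lin
import Mathlib.NumberTheory.GaussSum
import Mathlib.NumberTheory.LegendreSymbol.QuadraticChar.Basic

/-!
# Kloosterman sums at the values of quadratic polynomials
-/

set_option autoImplicit false

namespace Pool.Agent.K7.H79.KL

open Finset
open Pool.Agent.TH375.KL
open Pool.Agent.Helper916 (Kl)

variable {p : ℕ} [hp : Fact p.Prime]

/-- the additive character -/
noncomputable def ec (a : ZMod p) : ℂ := ZMod.stdAddChar a

theorem ec_add (a b : ZMod p) : ec (a + b) = ec a * ec b := AddChar.map_add_eq_mul _ _ _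

theorem ec_zero : ec (0 : ZMod p) = 1 := AddChar.map_zero_eq_one _

theorem ec_norm (a : ZMod p) : ‖ec a‖ = 1 := by
  unfold ec
  exact AddChar.norm_apply _ _

theorem ec_sum (b : ZMod p) : ∑ a : ZMod p, ec (a * b) = if b = 0 then (p : ℂ) else 0 := by
  have h := AddChar.sum_mulShift b (prim (p := p))
  rw [ZMod.card] at h
  unfold ec
  rw [h]
  split_ifs <;> simp

theorem ec_sum_one : ∑ a : ZMod p, ec a = 0 := by
  have h := ec_sum (p := p) 1
  rw [if_neg one_ne_zero] at h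
  rw [← h]
  exact sum_congr rfl fun a _ => by rw [mul_one]

/-- the quadratic character -/
noncomputable def qc (a : ZMod p) : ℂ := ((quadraticChar (ZMod p) a : ℤ) : ℂ)

theorem qc_mul (a b : ZMod p) : qc (a * b) = qc a * qc b := by
  unfold qc
  rw [map_mul]
  push_cast
  rfl

theorem qc_zero : qc (0 : ZMod p) = 0 := by
  unfold qc
  simp

theorem qc_one : qc (1 : ZMod p) = 1 := by
  unfold qc
  simp

theorem qc_sq {a : ZMod p} (ha : a ≠ 0) : qc a * qc a = 1 := by
  rw [← qc_mul, ← sq]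
  unfold qc
  rw [quadraticChar_sq_one' ha]
  simp

theorem qc_inv (a : ZMod p) : qc a⁻¹ = qc a := by
  by_cases ha : a = 0
  · rw [ha, inv_zero]
  · have h1 := qc_sq ha
    have h2 : qc a * qc a⁻¹ = 1 := by rw [← qc_mul, mul_inv_cancel₀ ha, qc_one]
    have h3 : qc a ≠ 0 := left_ne_zero_of_mul_eq_one h1
    exact mul_left_cancel₀ h3 (by rw [h1, h2])

theorem qc_norm (a : ZMod p) : ‖qc a‖ ≤ 1 := by
  by_cases ha : a = 0
  · rw [ha, qc_zero, norm_zero]
    exact zero_le_one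
  · have h1 := congrArg norm (qc_sq ha)
    rw [norm_mul, norm_one] at h1
    nlinarith [norm_nonneg (qc a)]

section
variable (h2 : p ≠ 2)
include h2

theorem two_ne : (2 : ZMod p) ≠ 0 := by
  intro h
  have h3 : ((2 : ℕ) : ZMod p) = 0 := by exact_mod_cast h
  rw [ZMod.natCast_eq_zero_iff] at h3
  exact h2 ((Nat.prime_dvd_prime_iff_eq hp.out Nat.prime_two).1 h3)

theorem four_ne : (4 : ZMod p) ≠ 0 := by
  have h := two_ne h2
  have e : (4 : ZMod p) = 2 * 2 := by norm_num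
  rw [e]
  exact mul_ne_zero h h

theorem char_ne : ringChar (ZMod p) ≠ 2 := by
  rw [ZMod.ringChar_zmod_n]
  exact h2

theorem qc_four : qc (4 : ZMod p) = 1 := by
  have e : (4 : ZMod p) = 2 * 2 := by norm_num
  rw [e, qc_mul, qc_sq (two_ne h2)]

theorem qc_sum : ∑ a : ZMod p, qc a = 0 := by
  have h := quadraticChar_sum_zero (F := ZMod p) (char_ne h2)
  unfold qc
  exact_mod_cast h

/-- the number of the square roots -/
theorem sqrt_count (d : ZMod p) : ∑ w : ZMod p, (if w ^ 2 = d then (1 : ℂ) else 0) = 1 + qc d := by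
  have h := quadraticChar_card_sqrts (F := ZMod p) (char_ne h2) d
  unfold qc
  rw [add_comm]
  have h3 : ((quadraticChar (ZMod p) d : ℤ) : ℂ) + 1 = ((quadraticChar (ZMod p) d + 1 : ℤ) : ℂ) := by push_cast; rfl
  rw [h3, ← h, ← sum_filter, sum_const, nsmul_eq_mul, mul_one]
  push_cast
  congr 2
  ext w
  simp

omit h2 in
theorem sum_aff' {α : ZMod p} (hα : α ≠ 0) (β : ZMod p) (f : ZMod p → ℂ) : ∑ z : ZMod p, f (α * z + β) = ∑ z : ZMod p, f z := by
  refine sum_nbij' (fun z => α * z + β) (fun z => α⁻¹ * (z - β)) (fun _ _ => mem_univ _) (fun _ _ => mem_univ _) ?_ ?_ ?_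
  · intro z _
    field_simp
    ring
  · intro z _
    field_simp
    ring
  · intro z _
    rfl

/-- sums over the values of a quadratic polynomial -/
theorem sum_quad {α : ZMod p} (hα : α ≠ 0) (β γ : ZMod p) (f : ZMod p → ℂ) :
    ∑ z : ZMod p, f (α * z ^ 2 + β * z + γ) = ∑ a : ZMod p, f a * (1 + qc (4 * α * a + (β ^ 2 - 4 * α * γ))) := by
  have h3 : ∑ z : ZMod p, f (α * z ^ 2 + β * z + γ) = ∑ z : ZMod p, ∑ a : ZMod p, f a * (if α * z ^ 2 + β * z + γ = a then 1 else 0) := by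
    refine sum_congr rfl fun z _ => ?_
    simp only [mul_ite, mul_one, mul_zero]
    rw [sum_ite_eq univ (α * z ^ 2 + β * z + γ), if_pos (mem_univ _)]
  rw [h3, sum_comm]
  refine sum_congr rfl fun a _ => ?_
  rw [← mul_sum]
  congr 1
  rw [← sqrt_count h2, ← sum_aff' (mul_ne_zero (two_ne h2) hα) β (fun w => if w ^ 2 = 4 * α * a + (β ^ 2 - 4 * α * γ) then (1 : ℂ) else 0)]
  refine sum_congr rfl fun z _ => ?_
  refine if_congr ?_ rfl rfl
  constructor
  · intro h
    rw [← h]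
    ring
  · intro h
    have h4 : 4 * α * (α * z ^ 2 + β * z + γ - a) = 0 := by linear_combination h
    have h5 := (mul_eq_zero.1 h4).resolve_left (mul_ne_zero (four_ne h2) hα)
    linear_combination h5

/-- the Gauss sum -/
noncomputable def gs (p : ℕ) [Fact p.Prime] : ℂ := ∑ a : ZMod p, qc a * ec a

theorem gauss_shift (t : ZMod p) : ∑ a : ZMod p, qc a * ec (t * a) = qc t * gs p := by
  by_cases ht : t = 0
  · rw [ht, qc_zero, zero_mul, ← qc_sum h2]
    refine sum_congr rfl fun a _ => ?_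
    rw [zero_mul, ec_zero, mul_one]
  · unfold gs
    rw [← sum_aff' ht 0 (fun a => qc a * ec a), mul_sum]
    refine sum_congr rfl fun a _ => ?_
    rw [add_zero, qc_mul]
    have := qc_sq ht
    linear_combination (-qc a * ec (t * a)) * this

theorem gauss_aff {A : ZMod p} (hA : A ≠ 0) (Δ t : ZMod p) : ∑ a : ZMod p, qc (A * a + Δ) * ec (t * a) =
    qc A * qc t * gs p * ec (-(t * Δ * A⁻¹)) := by
  have h3 : ∑ a : ZMod p, qc (A * a + Δ) * ec (t * a) = ∑ a : ZMod p, qc a * ec (t * A⁻¹ * a) * ec (-(t * Δ * A⁻¹)) := by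
    rw [← sum_aff' hA Δ (fun a => qc a * ec (t * A⁻¹ * a) * ec (-(t * Δ * A⁻¹)))]
    refine sum_congr rfl fun a _ => ?_
    rw [mul_assoc, ← ec_add]
    congr 2
    field_simp
    ring
  rw [h3, ← sum_mul, gauss_shift h2, qc_mul, qc_inv]
  ring

theorem gs_norm : ‖gs p‖ = Real.sqrt p := by
  have h3 : gs p = gaussSum ((quadraticChar (ZMod p)).ringHomComp (Int.castRingHom ℂ)) (ZMod.stdAddChar (N := p)) := by
    unfold gs gaussSum qc ec
    rfl
  have hne : (quadraticChar (ZMod p)) ≠ 1 := quadraticChar_ne_one (char_ne h2)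
  have hne' : (quadraticChar (ZMod p)).ringHomComp (Int.castRingHom ℂ) ≠ 1 :=
    (MulChar.ringHomComp_ne_one_iff (RingHom.injective_int _)).2 hne
  have h4 := gaussSum_sq hne' ((quadraticChar_isQuadratic (ZMod p)).comp _) (prim (p := p))
  rw [← h3, ZMod.card] at h4
  have h5 := congrArg norm h4
  rw [norm_pow, norm_mul, Complex.norm_natCast] at h5
  have h6 : ‖((quadraticChar (ZMod p)).ringHomComp (Int.castRingHom ℂ)) (-1)‖ = 1 := by
    have h7 : ((quadraticChar (ZMod p)).ringHomComp (Int.castRingHom ℂ)) (-1) = qc (-1) := rfl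
    rw [h7]
    have h8 := congrArg norm (qc_sq (p := p) (a := -1) (neg_ne_zero.2 one_ne_zero))
    rw [norm_mul, norm_one] at h8
    nlinarith [norm_nonneg (qc (-1 : ZMod p))]
  rw [h6, one_mul] at h5
  rw [← h5, Real.sqrt_sq (norm_nonneg _)]

/-- the Salié sum -/
noncomputable def sal (c : ZMod p) : ℂ := ∑ x ∈ univ.erase (0 : ZMod p), qc x * ec (x⁻¹ - c * x)

theorem sal_le (c : ZMod p) : ‖sal c‖ ≤ 2 * Real.sqrt p := by
  have hp0 : (0 : ℝ) < p := by exact_mod_cast hp.out.pos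
  have h4 := four_ne h2
  -- completing the square
  have h3 : ∀ x : ZMod p, x ≠ 0 → ∑ v : ZMod p, ec (v - v ^ 2 * x * 4⁻¹) = qc (-x) * gs p * ec x⁻¹ := by
    intro x hx
    have hα : (-(x * 4⁻¹) : ZMod p) ≠ 0 := neg_ne_zero.2 (mul_ne_zero hx (inv_ne_zero h4))
    have h5 := sum_quad h2 hα 1 0 (fun a => ec a)
    have e1 : ∀ v : ZMod p, (-(x * 4⁻¹) * v ^ 2 + 1 * v + 0) = v - v ^ 2 * x * 4⁻¹ := by
      intro v
      ring
    rw [sum_congr rfl fun v _ => by rw [e1 v]] at h5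
    rw [h5]
    simp only [mul_add, mul_one]
    rw [sum_add_distrib, ec_sum_one, zero_add]
    have e2 : ∀ a : ZMod p, ec a * qc (4 * -(x * 4⁻¹) * a + (1 ^ 2 - 4 * -(x * 4⁻¹) * 0)) = qc (-x * a + 1) * ec (1 * a) := by
      intro a
      rw [mul_comm, one_mul]
      congr 2
      field_simp
      ring
    rw [sum_congr rfl fun a _ => e2 a, gauss_aff h2 (neg_ne_zero.2 hx) 1 1, qc_one]
    have e3 : -((1 : ZMod p) * 1 * (-x)⁻¹) = x⁻¹ := by
      rw [inv_neg]
      ring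
    rw [e3]
    ring
  have h5 : qc (-1 : ZMod p) * gs p * sal c = (p : ℂ) * ∑ v : ZMod p, (if v ^ 2 = -(4 * c) then ec v else 0) := by
    unfold sal
    rw [mul_sum]
    have e1 : ∀ x ∈ univ.erase (0 : ZMod p), qc (-1 : ZMod p) * gs p * (qc x * ec (x⁻¹ - c * x)) =
        ∑ v : ZMod p, ec v * ec (x * (-(v ^ 2 * 4⁻¹) - c)) := by
      intro x hx
      have hx0 := (mem_erase.1 hx).1
      have e2 : qc (-1 : ZMod p) * gs p * (qc x * ec (x⁻¹ - c * x)) = (qc (-x) * gs p * ec x⁻¹) * ec (-(c * x)) := by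
        rw [sub_eq_add_neg, ec_add]
        have : qc (-x) = qc (-1 : ZMod p) * qc x := by rw [← qc_mul]; congr 1; ring
        rw [this]
        ring
      rw [e2, ← h3 x hx0, sum_mul]
      refine sum_congr rfl fun v _ => ?_
      rw [← ec_add, ← ec_add]
      congr 1
      ring
    rw [sum_congr rfl e1, sum_erase_eq_sub (mem_univ _)]
    have e3 : ∑ v : ZMod p, ec v * ec ((0 : ZMod p) * (-(v ^ 2 * 4⁻¹) - c)) = 0 := by
      rw [← ec_sum_one (p := p)]
      refine sum_congr rfl fun v _ => ?_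
      rw [zero_mul, ec_zero, mul_one]
    rw [e3, sub_zero, sum_comm, mul_sum]
    refine sum_congr rfl fun v _ => ?_
    rw [← mul_sum, ec_sum]
    have e4 : (-(v ^ 2 * 4⁻¹) - c = 0) ↔ (v ^ 2 = -(4 * c)) := by
      constructor
      · intro h
        have : 4 * (-(v ^ 2 * 4⁻¹) - c) = 0 := by rw [h, mul_zero]
        field_simp at this
        linear_combination -this
      · intro h
        rw [h]
        field_simp
        ring
    by_cases h6 : v ^ 2 = -(4 * c)
    · rw [if_pos (e4.2 h6), if_pos h6]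
      ring
    · rw [if_neg (fun h => h6 (e4.1 h)), if_neg h6]
      ring
  have h6 := congrArg norm h5
  rw [norm_mul, norm_mul, norm_mul, gs_norm h2, Complex.norm_natCast] at h6
  have h7 : ‖qc (-1 : ZMod p)‖ = 1 := by
    have h8 := congrArg norm (qc_sq (p := p) (a := -1) (neg_ne_zero.2 one_ne_zero))
    rw [norm_mul, norm_one] at h8
    nlinarith [norm_nonneg (qc (-1 : ZMod p))]
  rw [h7, one_mul] at h6
  have h8 : ‖∑ v : ZMod p, (if v ^ 2 = -(4 * c) then ec v else 0)‖ ≤ 2 := by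
    refine (norm_sum_le _ _).trans ?_
    have h9 : ∀ v ∈ (univ : Finset (ZMod p)), ‖(if v ^ 2 = -(4 * c) then ec v else 0)‖ = if v ^ 2 = -(4 * c) then (1 : ℝ) else 0 := by
      intro v _
      split_ifs
      · exact ec_norm v
      · exact norm_zero
    rw [sum_congr rfl h9]
    have h10 := sqrt_count h2 (-(4 * c))
    have h11 : ((∑ v : ZMod p, (if v ^ 2 = -(4 * c) then (1 : ℝ) else 0) : ℝ) : ℂ) = 1 + qc (-(4 * c)) := by
      rw [← h10]
      push_cast
      refine sum_congr rfl fun v _ => ?_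
      split_ifs <;> simp
    have h12 : ‖((∑ v : ZMod p, (if v ^ 2 = -(4 * c) then (1 : ℝ) else 0) : ℝ) : ℂ)‖ ≤ 2 := by
      rw [h11]
      refine (norm_add_le _ _).trans ?_
      rw [norm_one]
      linarith [qc_norm (-(4 * c))]
    rw [Complex.norm_real, Real.norm_eq_abs] at h12
    exact (le_abs_self _).trans h12
  have hs : 0 < Real.sqrt p := Real.sqrt_pos.2 hp0
  have h9 : Real.sqrt p * ‖sal c‖ ≤ Real.sqrt p * (2 * Real.sqrt p) := by
    rw [h6]
    have : Real.sqrt p * (2 * Real.sqrt p) = p * 2 := by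
      have := Real.mul_self_sqrt hp0.le
      linear_combination 2 * this
    rw [this]
    exact mul_le_mul_of_nonneg_left h8 hp0.le
  exact le_of_mul_le_mul_left h9 hs

omit h2 in
theorem KK_ec (a : ZMod p) : KK p a 1 = ∑ x ∈ univ.erase (0 : ZMod p), ec (a * x + x⁻¹) := by
  unfold KK Kl ec
  refine sum_congr rfl fun x _ => ?_
  rw [one_mul]

/-- the first twisted moment -/
theorem T1_le {A : ZMod p} (hA : A ≠ 0) (Δ : ZMod p) : ‖∑ a : ZMod p, qc (A * a + Δ) * KK p a 1‖ ≤ 2 * p := by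
  have hp0 : (0 : ℝ) < p := by exact_mod_cast hp.out.pos
  have h3 : ∑ a : ZMod p, qc (A * a + Δ) * KK p a 1 = qc A * gs p * sal (Δ * A⁻¹) := by
    have e1 : ∀ a : ZMod p, qc (A * a + Δ) * KK p a 1 = ∑ x ∈ univ.erase (0 : ZMod p), ec x⁻¹ * (qc (A * a + Δ) * ec (x * a)) := by
      intro a
      rw [KK_ec, mul_sum]
      refine sum_congr rfl fun x _ => ?_
      rw [ec_add, mul_comm a x]
      ring
    rw [sum_congr rfl fun a _ => e1 a, sum_comm]
    unfold sal
    rw [mul_sum]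
    refine sum_congr rfl fun x _ => ?_
    rw [← mul_sum, gauss_aff h2 hA]
    have e2 : ec (x⁻¹ - Δ * A⁻¹ * x) = ec x⁻¹ * ec (-(x * Δ * A⁻¹)) := by
      rw [← ec_add]
      congr 1
      ring
    rw [e2]
    ring
  rw [h3, norm_mul, norm_mul, gs_norm h2]
  have h4 := sal_le h2 (Δ * A⁻¹)
  have h5 := qc_norm A
  have hs : 0 ≤ Real.sqrt p := Real.sqrt_nonneg _
  have h6 := Real.mul_self_sqrt hp0.le
  calc ‖qc A‖ * Real.sqrt p * ‖sal (Δ * A⁻¹)‖ ≤ 1 * Real.sqrt p * (2 * Real.sqrt p) := by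
        apply mul_le_mul _ h4 (norm_nonneg _) (by positivity)
        exact mul_le_mul_of_nonneg_right h5 hs
    _ = 2 * p := by linear_combination 2 * h6

/-- the two dimensional sum -/
noncomputable def vc (c : ZMod p) : ℂ :=
  ∑ x ∈ univ.erase (0 : ZMod p), ∑ y ∈ univ.erase (0 : ZMod p), qc (x + y) * ec (x⁻¹ + y⁻¹ - c * (x + y))

omit h2 in
theorem sum_inv' (f : ZMod p → ℂ) {s : ZMod p} (hs : s ≠ 0) :
    ∑ q ∈ univ.erase (0 : ZMod p), f (s * q⁻¹) = ∑ w ∈ univ.erase (0 : ZMod p), f w := by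
  refine sum_nbij' (fun q => s * q⁻¹) (fun w => s * w⁻¹) ?_ ?_ ?_ ?_ ?_
  · intro q hq
    exact mem_erase.2 ⟨mul_ne_zero hs (inv_ne_zero (mem_erase.1 hq).1), mem_univ _⟩
  · intro q hq
    exact mem_erase.2 ⟨mul_ne_zero hs (inv_ne_zero (mem_erase.1 hq).1), mem_univ _⟩
  · intro q hq
    have := (mem_erase.1 hq).1
    field_simp
  · intro q hq
    have := (mem_erase.1 hq).1
    field_simp
  · intro q _
    rfl

theorem vc_eq (c : ZMod p) : vc c = -(qc (-c) * gs p) + qc (-c) * gs p * KK p 1 (-(4 * c)) - qc (-1 : ZMod p) * gs p := by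
  have h4 := four_ne h2
  -- the sum over `x` for a fixed sum `s`
  have h3 : vc c = ∑ s ∈ univ.erase (0 : ZMod p), qc s * ec (-(c * s)) *
      ∑ x : ZMod p, (if x * (s - x) = 0 then 0 else ec (s * (x * (s - x))⁻¹)) := by
    have e1 : vc c = ∑ x : ZMod p, ∑ y : ZMod p, (if x = 0 ∨ y = 0 then 0 else qc (x + y) * ec (x⁻¹ + y⁻¹ - c * (x + y))) := by
      unfold vc
      rw [← sum_erase_add _ _ (mem_univ (0 : ZMod p))]
      have e2 : ∑ y : ZMod p, (if (0 : ZMod p) = 0 ∨ y = 0 then (0 : ℂ) else qc (0 + y) * ec ((0 : ZMod p)⁻¹ + y⁻¹ - c * (0 + y))) = 0 :=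
        sum_eq_zero fun y _ => if_pos (Or.inl rfl)
      rw [e2, add_zero]
      refine sum_congr rfl fun x hx => ?_
      have hx0 := (mem_erase.1 hx).1
      rw [← sum_erase_add _ _ (mem_univ (0 : ZMod p)), if_pos (Or.inr rfl), add_zero]
      refine sum_congr rfl fun y hy => ?_
      have hy0 := (mem_erase.1 hy).1
      rw [if_neg (by
        rintro (h | h)
        · exact hx0 h
        · exact hy0 h)]
    have e3 : ∀ x : ZMod p, ∑ y : ZMod p, (if x = 0 ∨ y = 0 then (0 : ℂ) else qc (x + y) * ec (x⁻¹ + y⁻¹ - c * (x + y))) =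
        ∑ s : ZMod p, (if x = 0 ∨ s - x = 0 then (0 : ℂ) else qc s * ec (x⁻¹ + (s - x)⁻¹ - c * s)) := by
      intro x
      refine sum_nbij' (fun y => x + y) (fun s => s - x) (fun _ _ => mem_univ _) (fun _ _ => mem_univ _) ?_ ?_ ?_
      · intro y _
        ring
      · intro s _
        ring
      · intro y _
        simp only [add_sub_cancel_left]
    rw [e1, sum_congr rfl fun x _ => e3 x, sum_comm, ← sum_erase_add _ _ (mem_univ (0 : ZMod p))]
    have e4 : ∑ x : ZMod p, (if x = 0 ∨ (0 : ZMod p) - x = 0 then (0 : ℂ) else qc (0 : ZMod p) * ec (x⁻¹ + (0 - x)⁻¹ - c * 0)) = 0 := by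
      refine sum_eq_zero fun x _ => ?_
      rw [qc_zero, zero_mul]
      split_ifs <;> rfl
    rw [e4, add_zero]
    refine sum_congr rfl fun s hs => ?_
    have hs0 := (mem_erase.1 hs).1
    rw [mul_sum]
    refine sum_congr rfl fun x _ => ?_
    by_cases h : x * (s - x) = 0
    · rw [if_pos h, if_pos (mul_eq_zero.1 h), mul_zero]
    · rw [if_neg h, if_neg (fun h' => h (mul_eq_zero.2 h')), mul_assoc, ← ec_add]
      have hx : x ≠ 0 := left_ne_zero_of_mul h
      have hsx : s - x ≠ 0 := right_ne_zero_of_mul h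
      congr 2
      field_simp
      ring
  have h5 : ∀ s : ZMod p, s ≠ 0 → ∑ x : ZMod p, (if x * (s - x) = 0 then (0 : ℂ) else ec (s * (x * (s - x))⁻¹)) =
      -1 + ∑ w ∈ univ.erase (0 : ZMod p), ec w * (qc s * qc (s + -(4 * w⁻¹))) := by
    intro s hs
    have h6 := sum_quad h2 (α := -1) (neg_ne_zero.2 one_ne_zero) s 0 (fun q => if q = 0 then (0 : ℂ) else ec (s * q⁻¹))
    have e1 : ∀ x : ZMod p, (-1) * x ^ 2 + s * x + 0 = x * (s - x) := by
      intro x
      ring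
    rw [sum_congr rfl fun x _ => by rw [e1 x]] at h6
    rw [h6, ← sum_erase_add _ _ (mem_univ (0 : ZMod p)), if_pos rfl, zero_mul, add_zero]
    have e2 : ∀ q ∈ univ.erase (0 : ZMod p), (if q = 0 then (0 : ℂ) else ec (s * q⁻¹)) * (1 + qc (4 * -1 * q + (s ^ 2 - 4 * -1 * 0))) =
        (fun w => ec w + ec w * (qc s * qc (s + -(4 * w⁻¹)))) (s * q⁻¹) := by
      intro q hq
      have hq0 := (mem_erase.1 hq).1
      rw [if_neg hq0]
      simp only
      rw [mul_add, mul_one, ← qc_mul]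
      congr 3
      field_simp
      ring
    rw [sum_congr rfl e2, sum_inv' (fun w => ec w + ec w * (qc s * qc (s + -(4 * w⁻¹)))) hs, sum_add_distrib]
    congr 1
    rw [sum_erase_eq_sub (mem_univ _), ec_sum_one, ec_zero, zero_sub]
  rw [h3]
  have h6 : ∀ s ∈ univ.erase (0 : ZMod p), qc s * ec (-(c * s)) * ∑ x : ZMod p, (if x * (s - x) = 0 then (0 : ℂ) else ec (s * (x * (s - x))⁻¹)) =
      -(qc s * ec (-c * s)) + ∑ w ∈ univ.erase (0 : ZMod p), ec w * (qc (1 * s + -(4 * w⁻¹)) * ec (-c * s)) := by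
    intro s hs
    have hs0 := (mem_erase.1 hs).1
    rw [h5 s hs0, mul_add, mul_sum]
    have e1 : -(c * s) = -c * s := by ring
    rw [e1]
    congr 1
    · ring
    · refine sum_congr rfl fun w _ => ?_
      have := qc_sq hs0
      rw [one_mul]
      linear_combination (ec (-c * s) * ec w * qc (s + -(4 * w⁻¹))) * this
  rw [sum_congr rfl h6, sum_add_distrib, sum_neg_distrib]
  have h7 : ∑ s ∈ univ.erase (0 : ZMod p), qc s * ec (-c * s) = qc (-c) * gs p := by
    rw [← gauss_shift h2, sum_erase_eq_sub (mem_univ _), qc_zero, zero_mul, sub_zero]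
  rw [h7, sum_comm]
  have h8 : ∀ w ∈ univ.erase (0 : ZMod p), ∑ s ∈ univ.erase (0 : ZMod p), ec w * (qc (1 * s + -(4 * w⁻¹)) * ec (-c * s)) =
      qc (-c) * gs p * ec (w + -(4 * c) * w⁻¹) - qc (-w) * ec (1 * w) := by
    intro w hw
    have hw0 := (mem_erase.1 hw).1
    rw [← mul_sum, sum_erase_eq_sub (mem_univ _), gauss_aff h2 one_ne_zero, qc_one, mul_zero, mul_zero, ec_zero, zero_add, mul_one]
    have e1 : -(-c * -(4 * w⁻¹) * (1 : ZMod p)⁻¹) = -(4 * c) * w⁻¹ := by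
      rw [inv_one]
      ring
    have e2 : qc (-(4 * w⁻¹)) = qc (-w) := by
      have e3 : -(4 * w⁻¹) = 4 * (-w)⁻¹ := by
        rw [inv_neg]
        ring
      rw [e3, qc_mul, qc_four h2, one_mul, qc_inv]
    rw [e1, e2, ec_add, one_mul, one_mul]
    ring
  rw [sum_congr rfl h8, sum_sub_distrib, ← mul_sum]
  have h9 : ∑ w ∈ univ.erase (0 : ZMod p), ec (w + -(4 * c) * w⁻¹) = KK p 1 (-(4 * c)) := by
    unfold KK Kl ec
    refine sum_congr rfl fun x _ => ?_
    rw [one_mul]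
  have h10 : ∑ w ∈ univ.erase (0 : ZMod p), qc (-w) * ec (1 * w) = qc (-1 : ZMod p) * gs p := by
    have e1 : ∀ w ∈ univ.erase (0 : ZMod p), qc (-w) * ec (1 * w) = qc (-1 : ZMod p) * (qc w * ec (1 * w)) := by
      intro w _
      rw [← mul_assoc, ← qc_mul]
      congr 2
      ring
    rw [sum_congr rfl e1, ← mul_sum, sum_erase_eq_sub (mem_univ _), gauss_shift h2, qc_zero, zero_mul, sub_zero, qc_one, one_mul]
  rw [h9, h10]
  ring

theorem vc_le (c : ZMod p) : ‖vc c‖ ≤ 4 * p := by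
  have hp0 : (0 : ℝ) < p := by exact_mod_cast hp.out.pos
  have hp1 : (1 : ℝ) ≤ p := by exact_mod_cast hp.out.one_lt.le
  rw [vc_eq h2]
  have hs : 0 ≤ Real.sqrt p := Real.sqrt_nonneg _
  have h6 := Real.mul_self_sqrt hp0.le
  have h7 : Real.sqrt p ≤ p := by
    rw [Real.sqrt_le_left hp0.le]
    nlinarith
  have h8 : ‖KK p (1 : ZMod p) (-(4 * c))‖ ≤ 2 * Real.sqrt p := by
    rw [← rk_eq, Complex.norm_real, Real.norm_eq_abs]
    exact rk_le' (fun h => one_ne_zero h.1)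
  have h9 : ‖qc (-c) * gs p‖ ≤ Real.sqrt p := by
    rw [norm_mul, gs_norm h2]
    calc ‖qc (-c)‖ * Real.sqrt p ≤ 1 * Real.sqrt p := mul_le_mul_of_nonneg_right (qc_norm _) hs
      _ = _ := one_mul _
  have h10 : ‖qc (-1 : ZMod p) * gs p‖ ≤ Real.sqrt p := by
    rw [norm_mul, gs_norm h2]
    calc ‖qc (-1 : ZMod p)‖ * Real.sqrt p ≤ 1 * Real.sqrt p := mul_le_mul_of_nonneg_right (qc_norm _) hs
      _ = _ := one_mul _
  have h11 : ‖qc (-c) * gs p * KK p 1 (-(4 * c))‖ ≤ 2 * p := by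
    rw [norm_mul]
    calc ‖qc (-c) * gs p‖ * ‖KK p (1 : ZMod p) (-(4 * c))‖ ≤ Real.sqrt p * (2 * Real.sqrt p) :=
          mul_le_mul h9 h8 (norm_nonneg _) hs
      _ = 2 * p := by linear_combination 2 * h6
  calc ‖-(qc (-c) * gs p) + qc (-c) * gs p * KK p 1 (-(4 * c)) - qc (-1 : ZMod p) * gs p‖ ≤
      ‖-(qc (-c) * gs p) + qc (-c) * gs p * KK p 1 (-(4 * c))‖ + ‖qc (-1 : ZMod p) * gs p‖ := norm_sub_le _ _
    _ ≤ (‖-(qc (-c) * gs p)‖ + ‖qc (-c) * gs p * KK p 1 (-(4 * c))‖) + ‖qc (-1 : ZMod p) * gs p‖ := by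
        linarith [norm_add_le (-(qc (-c) * gs p)) (qc (-c) * gs p * KK p 1 (-(4 * c)))]
    _ ≤ 4 * p := by
        rw [norm_neg]
        linarith

/-- the second twisted moment -/
theorem T2_le {A : ZMod p} (hA : A ≠ 0) (Δ : ZMod p) : ‖∑ a : ZMod p, qc (A * a + Δ) * KK p a 1 ^ 2‖ ≤ 4 * p * Real.sqrt p := by
  have hp0 : (0 : ℝ) < p := by exact_mod_cast hp.out.pos
  have h3 : ∑ a : ZMod p, qc (A * a + Δ) * KK p a 1 ^ 2 = qc A * gs p * vc (Δ * A⁻¹) := by
    have e1 : ∀ a : ZMod p, qc (A * a + Δ) * KK p a 1 ^ 2 = ∑ x ∈ univ.erase (0 : ZMod p), ∑ y ∈ univ.erase (0 : ZMod p),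
        ec (x⁻¹ + y⁻¹) * (qc (A * a + Δ) * ec ((x + y) * a)) := by
      intro a
      rw [KK_ec, sq, sum_mul_sum, mul_sum]
      refine sum_congr rfl fun x _ => ?_
      rw [mul_sum]
      refine sum_congr rfl fun y _ => ?_
      rw [← ec_add]
      have e2 : a * x + x⁻¹ + (a * y + y⁻¹) = (x⁻¹ + y⁻¹) + (x + y) * a := by ring
      rw [e2, ec_add]
      ring
    rw [sum_congr rfl fun a _ => e1 a, sum_comm]
    unfold vc
    rw [mul_sum]
    refine sum_congr rfl fun x _ => ?_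
    rw [sum_comm, mul_sum]
    refine sum_congr rfl fun y _ => ?_
    rw [← mul_sum, gauss_aff h2 hA]
    have e2 : ec (x⁻¹ + y⁻¹ - Δ * A⁻¹ * (x + y)) = ec (x⁻¹ + y⁻¹) * ec (-((x + y) * Δ * A⁻¹)) := by
      rw [← ec_add]
      congr 1
      ring
    rw [e2]
    ring
  rw [h3, norm_mul, norm_mul, gs_norm h2]
  have h4 := vc_le h2 (Δ * A⁻¹)
  have h5 := qc_norm A
  have hs : 0 ≤ Real.sqrt p := Real.sqrt_nonneg _
  calc ‖qc A‖ * Real.sqrt p * ‖vc (Δ * A⁻¹)‖ ≤ 1 * Real.sqrt p * (4 * p) := by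
        apply mul_le_mul _ h4 (norm_nonneg _) (by positivity)
        exact mul_le_mul_of_nonneg_right h5 hs
    _ = 4 * p * Real.sqrt p := by ring

end

end Pool.Agent.K7.H79.KL
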