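import Pool.Agent.K7.H79.KL.TupD
import Pool.Agent.TH894.NF3

/-!
# Local conditions at tuples of consecutive primes
-/

set_option autoImplicit false

namespace Pool.Agent.K7.H79.KL

open Finset Filter
open Pool.Agent.TH894.NE (mean Pr box Pr_nonneg Pr_le_one)
open Pool.Agent.TH894.NF (pr pr_prime pr_inj)
open Pool.Agent.Y57.FD (exceptions digit)

open Classical in
/-- the number of the indices `k < n` for which all the `s` conditions hold -/
noncomputable def cntT {d s : ℕ} (T : Fin s → ℕ → (Fin d → ℕ) → Prop) (n : ℕ) (m : Fin d → ℕ) : ℕ :=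
  ((range n).filter (fun k => ∀ i : Fin s, T i (pr (k + i)) m)).card

/-- the model -/
noncomputable def modT {d s : ℕ} (T : Fin s → ℕ → (Fin d → ℕ) → Prop) (n : ℕ) : ℝ :=
  ∑ k ∈ range n, ∏ i : Fin s, Pr d (pr (k + i)) (T i (pr (k + i)))

open Classical in
theorem mean_ind {d : ℕ} (q : ℕ) (T : (Fin d → ℕ) → Prop) :
    mean d q (fun m => if T m then (1 : ℝ) else 0) = Pr d q T := by
  unfold mean Pr
  rw [← sum_filter, sum_const, nsmul_eq_mul, mul_one, one_div, div_eq_mul_inv _ ((q : ℝ) ^ d), mul_comm]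

/-- **Arbitrary local conditions at `s` consecutive primes.** -/
theorem tuplesB (b d s : ℕ) (hb : 2 ≤ b) (hd : 1 ≤ d) (hs : 1 ≤ s) (δ : ℝ) (hδ : 0 < δ) (A A₂ : ℕ) : ∃ c : ℝ, 0 < c ∧ ∃ y₀ : ℕ,
    ∀ (K r : Fin d → ℕ) (y : ℕ), (∀ l, 2 * r l ≤ K l) → y₀ ≤ y →
    ∀ N : Fin d → ℕ, (∀ l, N l < b ^ K l) → ∀ f : Fin d → ℕ → ℕ, (∀ l j, f l j < b ∧ f l j ≠ digit b j (N l)) →
    ∀ (κ : Type) (Λ : ℕ → Finset κ), (∀ n, 2 ≤ n → (Λ n).card ≤ n ^ A₂) →
    ∀ T : κ → Fin s → ℕ → (Fin d → ℕ) → Prop, (∀ l i p, p.Prime → ∀ m, T l i p m ↔ T l i p (fun j => m j % p)) →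
    ∀ E : (Fin d → ℕ) → Prop,
    (∀ m : Fin d → ℕ, (∀ n : ℕ, 2 ≤ n → y ≤ n → (∀ l, (n : ℝ) ≤ Real.exp (c * r l)) → ∀ l ∈ Λ n,
      |(cntT (T l) n m : ℝ) - modT (T l) n| ≤ (n : ℝ) ^ (1 / 2 + δ)) → E m) →
    (exceptions b K r N f E : ℝ) ≤ 1 / (y : ℝ) ^ A * ∏ l, ((K l).choose (r l) : ℝ) := by
  classical
  obtain ⟨c, hc, y₁, h⟩ := Pool.Agent.Y57.FD.tuples b d s hb hd hs δ hδ A A₂
  refine ⟨c, hc, y₁ + 2, fun K r y hrK hy N hN f hf κ Λ hΛ T hT E hE => ?_⟩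
  refine h K r y hrK (by omega) N hN f hf κ Λ hΛ (fun _ _ => 1) (fun _ _ _ _ => by simp)
    (fun l i p m => if p.Prime ∧ T l i p m then (1 : ℝ) else 0) ?_ ?_ E ?_
  · intro l i p hp m
    simp only [hp, true_and]
    rw [if_congr (hT l i p hp m) rfl rfl]
  · intro l i p m
    show |(if p.Prime ∧ T l i p m then (1 : ℝ) else 0)| ≤ 1
    split_ifs <;> norm_num
  · intro m hm
    refine hE m fun n hn hyn hnr l hl => ?_
    have h1 := hm n hn hyn hnr l hl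
    have e1 : ∑ k ∈ range n, (1 : ℝ) * ∏ i : Fin s, (if (pr (k + i)).Prime ∧ T l i (pr (k + i)) m then (1 : ℝ) else 0) =
        (cntT (T l) n m : ℝ) := by
      unfold cntT
      rw [card_filter]
      push_cast
      refine sum_congr rfl fun k _ => ?_
      rw [one_mul]
      by_cases hk : ∀ i : Fin s, T l i (pr (k + i)) m
      · rw [if_pos hk]
        exact prod_eq_one fun i _ => if_pos ⟨pr_prime _, hk i⟩
      · rw [if_neg hk]
        push Not at hk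
        obtain ⟨i, hi⟩ := hk
        exact prod_eq_zero (mem_univ i) (if_neg (fun h2 => hi h2.2))
    have e2 : ∑ k ∈ range n, (1 : ℝ) * ∏ i : Fin s, mean d (pr (k + i))
        (fun m => if (pr (k + i)).Prime ∧ T l i (pr (k + i)) m then (1 : ℝ) else 0) = modT (T l) n := by
      unfold modT
      refine sum_congr rfl fun k _ => ?_
      rw [one_mul]
      refine prod_congr rfl fun i _ => ?_
      rw [← mean_ind]
      congr 1
      funext m
      simp only [pr_prime, true_and]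
    rw [e1, e2] at h1
    refine h1.trans (le_of_eq ?_)
    have hn0 : (0 : ℝ) < n := by exact_mod_cast (by omega : 0 < n)
    have hn1 : (1 : ℝ) ≤ n := by exact_mod_cast (by omega : 1 ≤ n)
    simp only [one_pow, sum_const, card_range, nsmul_eq_mul, mul_one]
    rw [max_eq_right hn1, Real.sqrt_eq_rpow, ← Real.rpow_add hn0]

theorem modT_le {d s : ℕ} (T : Fin s → ℕ → (Fin d → ℕ) → Prop) (n : ℕ) : 0 ≤ modT T n :=
  sum_nonneg fun _ _ => prod_nonneg fun _ _ => Pr_nonneg _ _ _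

/-- the proportion of the indices divisible by an exceptional prime -/
theorem log_small (A₃ : ℕ) (B : ℝ) (δ : ℝ) (hδ : 0 < δ) : ∀ᶠ n : ℕ in atTop,
    B * A₃ * (Real.log n / Real.log 2) ≤ (n : ℝ) ^ δ := by
  have h1 : Tendsto (fun x : ℝ => x ^ (δ / 2)) atTop atTop := tendsto_rpow_atTop (by positivity)
  have h2 : ∀ᶠ x : ℝ in atTop, B * A₃ / Real.log 2 ≤ x ^ (δ / 2) := h1.eventually (eventually_ge_atTop _)
  have h3 : ∀ᶠ x : ℝ in atTop, Real.log x ≤ x ^ (δ / 2) := by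
    have h4 := (isLittleO_log_rpow_atTop (show (0 : ℝ) < δ / 2 by positivity)).bound (show (0 : ℝ) < 1 by norm_num)
    filter_upwards [h4, eventually_ge_atTop 1] with x hx hx1
    rw [Real.norm_of_nonneg (Real.log_nonneg hx1), Real.norm_of_nonneg (by positivity), one_mul] at hx
    exact hx
  have h6 : ∀ᶠ x : ℝ in atTop, B * A₃ * (Real.log x / Real.log 2) ≤ x ^ δ := by
    filter_upwards [h2, h3, eventually_ge_atTop 1] with x hx1 hx2 hx4
    have h9 : x ^ δ = x ^ (δ / 2) * x ^ (δ / 2) := by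
      rw [← Real.rpow_add (by linarith)]
      congr 1
      ring
    have hl2 : 0 < Real.log 2 := Real.log_pos (by norm_num)
    have hx0 : 0 ≤ x ^ (δ / 2) := by positivity
    have hl : 0 ≤ Real.log x := Real.log_nonneg hx4
    rw [h9]
    calc B * A₃ * (Real.log x / Real.log 2) = (B * A₃ / Real.log 2) * Real.log x := by ring
      _ ≤ x ^ (δ / 2) * x ^ (δ / 2) := by
        apply mul_le_mul hx1 hx2 hl hx0
  exact tendsto_natCast_atTop_atTop.eventually h6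

theorem card_dvd_le (n i D A₃ : ℕ) (hD : 0 < D) (hDn : D ≤ n ^ A₃) :
    (((range n).filter (fun k => pr (k + i) ∣ D)).card : ℝ) ≤ A₃ * (Real.log n / Real.log 2) := by
  have h2 := card_dvd n i D hD
  have h3 : (2 : ℝ) ^ ((range n).filter (fun k => pr (k + i) ∣ D)).card ≤ (n : ℝ) ^ A₃ := by
    exact_mod_cast h2.trans hDn
  have hl2 : 0 < Real.log 2 := Real.log_pos (by norm_num)
  have h4 := Real.log_le_log (by positivity) h3
  rw [Real.log_pow, Real.log_pow] at h4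
  rw [mul_div_assoc', le_div_iff₀ hl2]
  exact h4

open Classical in
theorem card_any_le (n s D A₃ : ℕ) (hD : 0 < D) (hDn : D ≤ n ^ A₃) :
    (((range n).filter (fun k => ∃ i : Fin s, pr (k + i) ∣ D)).card : ℝ) ≤ s * (A₃ * (Real.log n / Real.log 2)) := by
  have h1 : ((range n).filter (fun k => ∃ i : Fin s, pr (k + i) ∣ D)) ⊆
      (univ : Finset (Fin s)).biUnion (fun i => (range n).filter (fun k => pr (k + i) ∣ D)) := by
    intro k hk
    rw [mem_filter] at hk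
    obtain ⟨hk1, i, hi⟩ := hk
    rw [mem_biUnion]
    exact ⟨i, mem_univ _, mem_filter.2 ⟨hk1, hi⟩⟩
  calc (((range n).filter (fun k => ∃ i : Fin s, pr (k + i) ∣ D)).card : ℝ) ≤
      ∑ i : Fin s, (((range n).filter (fun k => pr (k + i) ∣ D)).card : ℝ) := by
        exact_mod_cast (card_le_card h1).trans card_biUnion_le
    _ ≤ ∑ _i : Fin s, (A₃ * (Real.log n / Real.log 2) : ℝ) := sum_le_sum fun i _ => card_dvd_le n i D A₃ hD hDn
    _ = s * (A₃ * (Real.log n / Real.log 2)) := by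
        rw [sum_const, card_univ, Fintype.card_fin, nsmul_eq_mul]

/-- **Local conditions of positive probability at `s` consecutive primes.** -/
theorem tuplesP (b d s : ℕ) (hb : 2 ≤ b) (hd : 1 ≤ d) (hs : 1 ≤ s) (A A₂ A₃ : ℕ) (ρ C ε : ℝ) (hρ : 0 ≤ ρ) (hρ1 : ρ ≤ 1)
    (hε : 0 < ε) : ∃ c : ℝ, 0 < c ∧ ∃ y₀ : ℕ,
    ∀ (K r : Fin d → ℕ) (y : ℕ), (∀ l, 2 * r l ≤ K l) → y₀ ≤ y →
    ∀ N : Fin d → ℕ, (∀ l, N l < b ^ K l) → ∀ f : Fin d → ℕ → ℕ, (∀ l j, f l j < b ∧ f l j ≠ digit b j (N l)) →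
    ∀ (κ : Type) (Λ : ℕ → Finset κ), (∀ n, 2 ≤ n → (Λ n).card ≤ n ^ A₂) →
    ∀ T : κ → Fin s → ℕ → (Fin d → ℕ) → Prop, (∀ l i p, p.Prime → ∀ m, T l i p m ↔ T l i p (fun j => m j % p)) →
    (∀ n, 2 ≤ n → ∀ l ∈ Λ n, ∃ D : ℕ, 0 < D ∧ D ≤ n ^ A₃ ∧ ∀ (i : Fin s) (p : ℕ), p.Prime → ¬ p ∣ D →
      ρ - C / Real.sqrt p ≤ Pr d p (T l i p)) →
    ∀ E : (Fin d → ℕ) → Prop,
    (∀ m : Fin d → ℕ, (∀ n : ℕ, 2 ≤ n → y ≤ n → (∀ l, (n : ℝ) ≤ Real.exp (c * r l)) → ∀ l ∈ Λ n,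
      (ρ ^ s - ε) * n ≤ cntT (T l) n m) → E m) →
    (exceptions b K r N f E : ℝ) ≤ 1 / (y : ℝ) ^ A * ∏ l, ((K l).choose (r l) : ℝ) := by
  classical
  obtain ⟨c, hc, y₁, h⟩ := tuplesB b d s hb hd hs (1 / 4) (by norm_num) A A₂
  have hsr : (1 : ℝ) ≤ s := by exact_mod_cast hs
  -- the small primes
  obtain ⟨ε₁, hε₁⟩ : ∃ ε₁, ε₁ = ε / (4 * s) := ⟨_, rfl⟩
  have hε₁0 : 0 < ε₁ := by rw [hε₁]; positivity
  obtain ⟨k₁, hk₁⟩ := exists_nat_ge ((C / ε₁) ^ 2 + 1)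
  have hk1 : 1 ≤ k₁ := by
    have : (1 : ℝ) ≤ k₁ := le_trans (by nlinarith [sq_nonneg (C / ε₁)]) hk₁
    exact_mod_cast this
  have hev : ∀ᶠ n : ℕ in atTop, (4 / ε : ℝ) ≤ (n : ℝ) ^ (1 / 4 : ℝ) := by
    have h1 : Tendsto (fun x : ℝ => x ^ (1 / 4 : ℝ)) atTop atTop := tendsto_rpow_atTop (by norm_num)
    exact (h1.comp tendsto_natCast_atTop_atTop).eventually (eventually_ge_atTop _)
  have hev2 := log_small A₃ s (1 / 4) (by norm_num)
  obtain ⟨n₁, hn₁⟩ := eventually_atTop.1 (hev.and hev2)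
  obtain ⟨n₂, hn₂⟩ := exists_nat_ge (4 * k₁ / ε)
  refine ⟨c, hc, y₁ + n₁ + n₂ + 2, fun K r y hrK hy N hN f hf κ Λ hΛ T hT hPr E hE => ?_⟩
  refine h K r y hrK (by omega) N hN f hf κ Λ hΛ T hT E ?_
  intro m hm
  refine hE m fun n hn hyn hnr l hl => ?_
  have h1 := hm n hn hyn hnr l hl
  obtain ⟨D, hD0, hDn, hD⟩ := hPr n hn l hl
  have hn0 : (0 : ℝ) < n := by exact_mod_cast (by omega : 0 < n)
  have hn1 : (1 : ℝ) ≤ n := by exact_mod_cast (by omega : 1 ≤ n)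
  obtain ⟨hn3, hn4⟩ := hn₁ n (by omega)
  -- the model from below
  have hpow : ρ ^ s - ε / 4 ≤ (max 0 (ρ - ε₁)) ^ s := by
    have h2 := Pool.Agent.TH894.NF.pow_diff ρ (max 0 (ρ - ε₁)) (le_max_left _ _) (max_le hρ (by linarith)) hρ1 s
    have h3 : (s : ℝ) * (ρ - max 0 (ρ - ε₁)) ≤ s * ε₁ :=
      mul_le_mul_of_nonneg_left (by linarith [le_max_right 0 (ρ - ε₁)]) (by linarith)
    have h4 : (s : ℝ) * ε₁ = ε / 4 := by rw [hε₁]; field_simp
    linarith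
  have hterm : ∀ k, k₁ ≤ k → (¬ ∃ i : Fin s, pr (k + i) ∣ D) → ρ ^ s - ε / 4 ≤ ∏ i : Fin s, Pr d (pr (k + i)) (T l i (pr (k + i))) := by
    intro k hk hkD
    refine hpow.trans ?_
    calc (max 0 (ρ - ε₁)) ^ s = ∏ _i : Fin s, max 0 (ρ - ε₁) := by rw [prod_const, card_univ, Fintype.card_fin]
      _ ≤ _ := by
        apply prod_le_prod (fun i _ => le_max_left _ _)
        intro i _
        apply max_le (Pr_nonneg _ _ _)
        refine le_trans ?_ (hD i (pr (k + i)) (pr_prime _) (fun h2 => hkD ⟨i, h2⟩))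
        have h9 : (k₁ : ℝ) ≤ pr (k + i) := by
          have : k + i + 1 ≤ pr (k + i) := Pool.Agent.Y57.FD.le_pr (k + i)
          exact_mod_cast (by omega : k₁ ≤ pr (k + i))
        have h10 : C / ε₁ ≤ Real.sqrt (pr (k + i)) := Real.le_sqrt_of_sq_le (by linarith)
        have h11 : (0 : ℝ) < Real.sqrt (pr (k + i)) := Real.sqrt_pos.2 (by
          have : (1 : ℝ) ≤ k₁ := by exact_mod_cast hk1
          linarith)
        have h12 : C / Real.sqrt (pr (k + i)) ≤ ε₁ := by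
          rw [div_le_iff₀ h11]
          rw [div_le_iff₀ hε₁0] at h10
          linarith
        linarith
  have hmod : (ρ ^ s - ε / 4) * n - k₁ - s * (A₃ * (Real.log n / Real.log 2)) ≤ modT (T l) n := by
    have h2 : ∀ k ∈ range n, (ρ ^ s - ε / 4) - (if k < k₁ then 1 else 0) - (if ∃ i : Fin s, pr (k + i) ∣ D then 1 else 0) ≤
        ∏ i : Fin s, Pr d (pr (k + i)) (T l i (pr (k + i))) := by
      intro k _
      have h3 : 0 ≤ ∏ i : Fin s, Pr d (pr (k + i)) (T l i (pr (k + i))) := prod_nonneg fun _ _ => Pr_nonneg _ _ _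
      have h4 : ρ ^ s ≤ 1 := pow_le_one₀ hρ hρ1
      by_cases hk : k < k₁
      · rw [if_pos hk]
        have : (0 : ℝ) ≤ (if ∃ i : Fin s, pr (k + i) ∣ D then 1 else 0) := by split_ifs <;> norm_num
        linarith
      · rw [if_neg hk]
        by_cases hkD : ∃ i : Fin s, pr (k + i) ∣ D
        · rw [if_pos hkD]
          linarith
        · rw [if_neg hkD]
          have := hterm k (not_lt.1 hk) hkD
          linarith
    have h3 := sum_le_sum h2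
    rw [sum_sub_distrib, sum_sub_distrib, sum_const, card_range, nsmul_eq_mul, ← sum_filter, ← sum_filter, sum_const, sum_const,
      nsmul_eq_mul, nsmul_eq_mul, mul_one, mul_one] at h3
    have h4 : (((range n).filter (fun k => k < k₁)).card : ℝ) ≤ k₁ := by
      have : ((range n).filter (fun k => k < k₁)) ⊆ range k₁ := by
        intro k hk
        rw [mem_filter] at hk
        exact mem_range.2 hk.2
      have h5 := card_le_card this
      rw [card_range] at h5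
      exact_mod_cast h5
    have h5 := card_any_le n s D A₃ hD0 hDn
    unfold modT
    linarith [mul_comm (n : ℝ) (ρ ^ s - ε / 4)]
  have e1 : (n : ℝ) ^ (1 / 2 + 1 / 4 : ℝ) ≤ ε / 4 * n := by
    have h2 : (n : ℝ) = (n : ℝ) ^ (1 / 2 + 1 / 4 : ℝ) * (n : ℝ) ^ (1 / 4 : ℝ) := by
      rw [← Real.rpow_add hn0]
      norm_num
    have h3 : (0 : ℝ) < (n : ℝ) ^ (1 / 2 + 1 / 4 : ℝ) := Real.rpow_pos_of_pos hn0 _
    have h4 : (n : ℝ) ^ (1 / 2 + 1 / 4 : ℝ) * (4 / ε) ≤ n := by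
      calc (n : ℝ) ^ (1 / 2 + 1 / 4 : ℝ) * (4 / ε) ≤ (n : ℝ) ^ (1 / 2 + 1 / 4 : ℝ) * (n : ℝ) ^ (1 / 4 : ℝ) := mul_le_mul_of_nonneg_left hn3 h3.le
        _ = n := h2.symm
    have h5 : (n : ℝ) ^ (1 / 2 + 1 / 4 : ℝ) = ε / 4 * ((n : ℝ) ^ (1 / 2 + 1 / 4 : ℝ) * (4 / ε)) := by field_simp
    rw [h5]
    exact mul_le_mul_of_nonneg_left h4 (by positivity)
  have e2 : (k₁ : ℝ) ≤ ε / 4 * n := by
    have h4 : (4 * k₁ / ε : ℝ) ≤ n := hn₂.trans (by exact_mod_cast (by omega : n₂ ≤ n))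
    rw [div_le_iff₀ hε] at h4
    linarith
  have e3 : s * (A₃ * (Real.log n / Real.log 2)) ≤ ε / 4 * n := by
    have h2 : s * (A₃ * (Real.log n / Real.log 2)) ≤ (n : ℝ) ^ (1 / 4 : ℝ) := by
      refine le_trans (le_of_eq ?_) hn4
      ring
    have h3 : (n : ℝ) ^ (1 / 4 : ℝ) ≤ (n : ℝ) ^ (1 / 2 + 1 / 4 : ℝ) := Real.rpow_le_rpow_of_exponent_le hn1 (by norm_num)
    linarith
  have h6 := (abs_le.1 h1).1
  nlinarith

end Pool.Agent.K7.H79.KL
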