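import Pool.Agent.K7.H79.KL.Quad
import Pool.Agent.K7.H79.KL.TupP

/-!
# Weyl sums and signs of the Kloosterman angles at the values of quadratic polynomials
-/

set_option autoImplicit false

namespace Pool.Agent.K7.H79.KL

open Finset
open Pool.Agent.TH375.KL
open Pool.Agent.TH894.NE (mean Pr box Pr_nonneg Pr_le_one mem_box)
open Pool.Agent.TH894.NF (pr pr_prime)

theorem ch_one (x : ℝ) : ch 1 x = 2 * x := by
  unfold ch
  rw [show ((1 : ℕ) : ℤ) = 1 by norm_num, U1]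

theorem ch_two (x : ℝ) : ch 2 x = 4 * x ^ 2 - 1 := by
  unfold ch
  rw [show ((2 : ℕ) : ℤ) = 2 by norm_num, U2]

theorem twist1 (p : ℕ) [hp : Fact p.Prime] (h2 : p ≠ 2) {A : ZMod p} (hA : A ≠ 0) (Δ : ZMod p) :
    ‖∑ a : ZMod p, (ch 1 (cz a) : ℂ) * qc (A * a + Δ)‖ ≤ 3 * Real.sqrt p := by
  have hp0 : (0 : ℝ) < p := by exact_mod_cast hp.out.pos
  have hp1 : (1 : ℝ) ≤ p := by exact_mod_cast hp.out.one_lt.le
  have hs : 0 < Real.sqrt p := Real.sqrt_pos.2 hp0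
  have hs1 : 1 ≤ Real.sqrt p := by rw [Real.one_le_sqrt]; exact hp1
  have hss := Real.mul_self_sqrt hp0.le
  have e1 : ∀ a : ZMod p, (ch 1 (cz a) : ℂ) * qc (A * a + Δ) =
      (Real.sqrt p : ℂ)⁻¹ * (qc (A * a + Δ) * KK p a 1) - (if a = 0 then (Real.sqrt p : ℂ)⁻¹ * (qc (A * a + Δ) * KK p a 1) else 0) := by
    intro a
    rw [ch_one]
    unfold cz
    by_cases ha : a = 0
    · rw [if_pos ha, if_pos ha]
      simp
    · rw [if_neg ha, if_neg ha, sub_zero, ← rk_eq]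
      push_cast
      have : (Real.sqrt p : ℂ) ≠ 0 := by exact_mod_cast hs.ne'
      field_simp
  rw [sum_congr rfl fun a _ => e1 a, sum_sub_distrib, ← mul_sum, sum_ite_eq' univ (0 : ZMod p), if_pos (mem_univ _)]
  have h3 := T1_le h2 hA Δ
  refine (norm_sub_le _ _).trans ?_
  rw [norm_mul, norm_mul, norm_mul, norm_inv, Complex.norm_real, Real.norm_of_nonneg hs.le, ← rk_eq, rk_zero_one]
  have h4 := qc_norm (A * 0 + Δ)
  have h5 : ‖((-1 : ℝ) : ℂ)‖ = 1 := by simp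
  rw [h5, mul_one]
  have h6 : (Real.sqrt p)⁻¹ * ‖∑ a : ZMod p, qc (A * a + Δ) * KK p a 1‖ ≤ 2 * Real.sqrt p := by
    rw [inv_mul_le_iff₀ hs]
    nlinarith
  have h7 : (Real.sqrt p)⁻¹ * ‖qc (A * 0 + Δ)‖ ≤ 1 := by
    rw [inv_mul_le_iff₀ hs]
    linarith
  linarith

theorem twist2 (p : ℕ) [hp : Fact p.Prime] (h2 : p ≠ 2) {A : ZMod p} (hA : A ≠ 0) (Δ : ZMod p) :
    ‖∑ a : ZMod p, (ch 2 (cz a) : ℂ) * qc (A * a + Δ)‖ ≤ 5 * Real.sqrt p := by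
  have hp0 : (0 : ℝ) < p := by exact_mod_cast hp.out.pos
  have hp1 : (1 : ℝ) ≤ p := by exact_mod_cast hp.out.one_lt.le
  have hs : 0 < Real.sqrt p := Real.sqrt_pos.2 hp0
  have hs1 : 1 ≤ Real.sqrt p := by rw [Real.one_le_sqrt]; exact hp1
  have hss := Real.mul_self_sqrt hp0.le
  have e1 : ∀ a : ZMod p, (ch 2 (cz a) : ℂ) * qc (A * a + Δ) =
      ((p : ℂ)⁻¹ * (qc (A * a + Δ) * KK p a 1 ^ 2) - qc (A * a + Δ)) -
        (if a = 0 then (p : ℂ)⁻¹ * (qc (A * a + Δ) * KK p a 1 ^ 2) else 0) := by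
    intro a
    rw [ch_two]
    unfold cz
    by_cases ha : a = 0
    · rw [if_pos ha, if_pos ha]
      push_cast
      ring
    · rw [if_neg ha, if_neg ha, sub_zero, ← rk_eq]
      push_cast
      have h3 : (Real.sqrt p : ℂ) ^ 2 = p := by
        have := Real.sq_sqrt hp0.le
        exact_mod_cast this
      have h4 : (p : ℂ) ≠ 0 := by exact_mod_cast hp0.ne'
      rw [div_pow, mul_pow, h3]
      field_simp
      ring
  rw [sum_congr rfl fun a _ => e1 a, sum_sub_distrib, sum_sub_distrib, ← mul_sum, sum_ite_eq' univ (0 : ZMod p), if_pos (mem_univ _)]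
  have h3 := T2_le h2 hA Δ
  have h8 : ∑ a : ZMod p, qc (A * a + Δ) = 0 := by
    rw [sum_aff' hA Δ (fun a => qc a)]
    exact qc_sum h2
  rw [h8, sub_zero]
  refine (norm_sub_le _ _).trans ?_
  rw [norm_mul, norm_mul, norm_mul, norm_inv, Complex.norm_natCast, ← rk_eq, rk_zero_one]
  have h4 := qc_norm (A * 0 + Δ)
  have h5 : ‖((-1 : ℝ) : ℂ) ^ 2‖ = 1 := by simp
  rw [h5, mul_one]
  have h6 : (p : ℝ)⁻¹ * ‖∑ a : ZMod p, qc (A * a + Δ) * KK p a 1 ^ 2‖ ≤ 4 * Real.sqrt p := by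
    rw [inv_mul_le_iff₀ hp0]
    linarith
  have h7 : (p : ℝ)⁻¹ * ‖qc (A * 0 + Δ)‖ ≤ 1 := by
    rw [inv_mul_le_iff₀ hp0]
    linarith
  linarith

/-- the sums of the first two Chebyshev polynomials over the values of a quadratic polynomial -/
theorem quad_sum : ∃ C : ℝ, 0 ≤ C ∧ ∀ j : ℕ, 1 ≤ j → j ≤ 2 → ∀ p : ℕ, ∀ hp : Fact p.Prime, p ≠ 2 → ∀ α β γ : ZMod p, α ≠ 0 →
    |∑ z : ZMod p, ch j (cz (α * z ^ 2 + β * z + γ))| ≤ C * Real.sqrt p := by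
  obtain ⟨C1, hC1, h1⟩ := sum_tz 1 le_rfl (by norm_num)
  obtain ⟨C2, hC2, h2⟩ := sum_tz 2 (by norm_num) (by norm_num)
  refine ⟨C1 + C2 + 75, by positivity, fun j hj1 hj2 p hp hp2 α β γ hα => ?_⟩
  have hp0 : (0 : ℝ) < p := by exact_mod_cast hp.out.pos
  have hs : 0 ≤ Real.sqrt p := Real.sqrt_nonneg _
  have hA : 4 * α ≠ 0 := mul_ne_zero (four_ne hp2) hα
  have e : ((∑ z : ZMod p, ch j (cz (α * z ^ 2 + β * z + γ)) : ℝ) : ℂ) =
      ((∑ a : ZMod p, ch j (cz a) : ℝ) : ℂ) + ∑ a : ZMod p, (ch j (cz a) : ℂ) * qc (4 * α * a + (β ^ 2 - 4 * α * γ)) := by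
    push_cast
    rw [sum_quad hp2 hα β γ (fun a => ((ch j (cz a) : ℝ) : ℂ)), ← sum_add_distrib]
    refine sum_congr rfl fun a _ => ?_
    ring
  have e2 := congrArg norm e
  rw [Complex.norm_real, Real.norm_eq_abs] at e2
  rw [e2]
  refine (norm_add_le _ _).trans ?_
  rw [Complex.norm_real, Real.norm_eq_abs]
  have hj : j = 1 ∨ j = 2 := by omega
  rcases hj with rfl | rfl
  · have h3 := sum_ch_aff 1 (by norm_num) C1 (h1 p hp) (α := (1 : ZMod p)) (β := 0) one_ne_zero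
    have h4 : ∑ z : ZMod p, ch 1 (cz (1 * z + 0)) = ∑ z : ZMod p, ch 1 (cz z) := sum_congr rfl fun z _ => by rw [one_mul, add_zero]
    rw [h4] at h3
    have h5 := twist1 p hp2 hA (β ^ 2 - 4 * α * γ)
    nlinarith
  · have h3 := sum_ch_aff 2 (by norm_num) C2 (h2 p hp) (α := (1 : ZMod p)) (β := 0) one_ne_zero
    have h4 : ∑ z : ZMod p, ch 2 (cz (1 * z + 0)) = ∑ z : ZMod p, ch 2 (cz z) := sum_congr rfl fun z _ => by rw [one_mul, add_zero]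
    rw [h4] at h3
    have h5 := twist2 p hp2 hA (β ^ 2 - 4 * α * γ)
    nlinarith

open Classical in
/-- the number of the residues for which the value of a quadratic polynomial has a given sign -/
theorem quad_sign : ∃ C : ℝ, 0 ≤ C ∧ ∀ p : ℕ, ∀ hp : Fact p.Prime, p ≠ 2 → ∀ α β γ : ZMod p, α ≠ 0 →
    ∀ σ : ℝ, (σ = 1 ∨ σ = -1) → ∀ η : ℝ, 0 ≤ η → (1 / 8 - η) * p - C * Real.sqrt p ≤
    (((univ : Finset (ZMod p)).filter (fun z => α * z ^ 2 + β * z + γ ≠ 0 ∧ η * Real.sqrt p < σ * rk p (α * z ^ 2 + β * z + γ) 1)).card : ℝ) := by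
  obtain ⟨C, hC, h⟩ := quad_sum
  refine ⟨C, hC, fun p hp hp2 α β γ hα σ hσ η hη => ?_⟩
  have hp0 : (0 : ℝ) < p := by exact_mod_cast hp.out.pos
  have hs : 0 < Real.sqrt p := Real.sqrt_pos.2 hp0
  have h1 := h 1 le_rfl (by norm_num) p hp hp2 α β γ hα
  have h2 := h 2 (by norm_num) le_rfl p hp hp2 α β γ hα
  obtain ⟨Y, hY⟩ : ∃ Y : ZMod p → ℝ, Y = fun z => 2 * cz (α * z ^ 2 + β * z + γ) := ⟨_, rfl⟩
  have hS1 : ∑ z : ZMod p, Y z = ∑ z : ZMod p, ch 1 (cz (α * z ^ 2 + β * z + γ)) :=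
    sum_congr rfl fun z _ => by rw [hY, ch_one]
  have hS2 : ∑ z : ZMod p, Y z ^ 2 = p + ∑ z : ZMod p, ch 2 (cz (α * z ^ 2 + β * z + γ)) := by
    have e1 : (p : ℝ) = ∑ _z : ZMod p, (1 : ℝ) := by
      rw [sum_const, card_univ, ZMod.card, nsmul_eq_mul, mul_one]
    rw [e1, ← sum_add_distrib]
    refine sum_congr rfl fun z _ => ?_
    rw [hY, ch_two]
    ring
  have hσ2 : σ ^ 2 = 1 := by rcases hσ with h | h <;> rw [h] <;> norm_num
  have hσa : |σ| = 1 := by rcases hσ with h | h <;> rw [h] <;> norm_num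
  have hpt : ∀ z ∈ (univ : Finset (ZMod p)), Y z ^ 2 / 8 + σ * Y z / 4 ≤
      (if α * z ^ 2 + β * z + γ ≠ 0 ∧ η * Real.sqrt p < σ * rk p (α * z ^ 2 + β * z + γ) 1 then (1 : ℝ) else 0) + η := by
    intro z _
    have hYle : |Y z| ≤ 2 := by
      rw [hY]
      simp only
      rw [abs_mul, abs_of_pos (by norm_num : (0 : ℝ) < 2)]
      linarith [cz_le (α * z ^ 2 + β * z + γ)]
    have hσY : |σ * Y z| ≤ 2 := by rw [abs_mul, hσa, one_mul]; exact hYle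
    have hsq : Y z ^ 2 = (σ * Y z) ^ 2 := by rw [mul_pow, hσ2, one_mul]
    rw [hsq]
    obtain ⟨t, ht⟩ : ∃ t, t = σ * Y z := ⟨_, rfl⟩
    rw [← ht] at hσY ⊢
    rw [abs_le] at hσY
    by_cases hz : α * z ^ 2 + β * z + γ ≠ 0 ∧ η * Real.sqrt p < σ * rk p (α * z ^ 2 + β * z + γ) 1
    · rw [if_pos hz]
      nlinarith
    · rw [if_neg hz, zero_add]
      have htη : t ≤ η := by
        by_cases hF : α * z ^ 2 + β * z + γ = 0
        · have : Y z = 0 := by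
            rw [hY]
            simp only
            unfold cz
            rw [if_pos hF, mul_zero]
          rw [ht, this, mul_zero]
          exact hη
        · have h3 : ¬ η * Real.sqrt p < σ * rk p (α * z ^ 2 + β * z + γ) 1 := fun h4 => hz ⟨hF, h4⟩
          push Not at h3
          have h4 : Y z = rk p (α * z ^ 2 + β * z + γ) 1 / Real.sqrt p := by
            rw [hY]
            simp only
            unfold cz
            rw [if_neg hF]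
            field_simp
          rw [ht, h4, mul_div_assoc', div_le_iff₀ hs]
          exact h3
      rcases le_or_gt t 0 with h5 | h5
      · nlinarith
      · nlinarith
  have hsum := sum_le_sum hpt
  rw [sum_add_distrib, sum_add_distrib, ← sum_div, ← sum_div, ← mul_sum, hS1, hS2, ← sum_filter, sum_const, sum_const,
    card_univ, ZMod.card, nsmul_eq_mul, nsmul_eq_mul, mul_one] at hsum
  have h5 : -(C * Real.sqrt p) ≤ σ * ∑ z : ZMod p, ch 1 (cz (α * z ^ 2 + β * z + γ)) := by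
    have h6 : |σ * ∑ z : ZMod p, ch 1 (cz (α * z ^ 2 + β * z + γ))| ≤ C * Real.sqrt p := by
      rw [abs_mul, hσa, one_mul]
      exact h1
    exact (abs_le.1 h6).1
  have h6 := (abs_le.1 h2).1
  have h7 : 0 ≤ C * Real.sqrt p := by positivity
  linarith

/-- a quadratic polynomial with integer coefficients, bounded -/
def QAdm (M : ℕ) (q : ℤ × ℤ × ℤ) : Prop := q.1 ≠ 0 ∧ |q.1| ≤ M ∧ |q.2.1| ≤ M ∧ |q.2.2| ≤ M

/-- the value of a quadratic polynomial -/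
def qval (q : ℤ × ℤ × ℤ) (x : ℤ) : ℤ := q.1 * x ^ 2 + q.2.1 * x + q.2.2

theorem qval_cast (p : ℕ) (q : ℤ × ℤ × ℤ) (x : ℤ) : ((qval q x : ℤ) : ZMod p) =
    (q.1 : ZMod p) * (x : ZMod p) ^ 2 + (q.2.1 : ZMod p) * (x : ZMod p) + (q.2.2 : ZMod p) := by
  unfold qval
  push_cast
  rfl

theorem qval_mod (p : ℕ) (q : ℤ × ℤ × ℤ) (x : ℕ) : ((qval q (x : ℤ) : ℤ) : ZMod p) = ((qval q ((x % p : ℕ) : ℤ) : ℤ) : ZMod p) := by
  rw [qval_cast, qval_cast]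
  simp

/-- the exceptional number -/
theorem quad_exc (M : ℕ) (q : ℤ × ℤ × ℤ) (h : QAdm M q) : 0 < 2 * q.1.natAbs ∧ 2 * q.1.natAbs ≤ 2 * M ∧
    ∀ p : ℕ, p.Prime → ¬ p ∣ 2 * q.1.natAbs → p ≠ 2 ∧ (q.1 : ZMod p) ≠ 0 := by
  obtain ⟨h0, h1, _, _⟩ := h
  have h3 := Int.natAbs_pos.2 h0
  have h4 : ((q.1.natAbs : ℕ) : ℤ) ≤ M := by
    rw [Int.natCast_natAbs]
    exact h1
  have h5 : q.1.natAbs ≤ M := by exact_mod_cast h4
  refine ⟨by omega, by omega, fun p hp hpD => ⟨?_, ?_⟩⟩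
  · rintro rfl
    exact hpD (dvd_mul_right _ _)
  · intro h6
    rw [ZMod.intCast_zmod_eq_zero_iff_dvd] at h6
    exact hpD ((Int.natCast_dvd.1 h6).trans (dvd_mul_left _ _))

theorem quad_mean : ∃ C₀ : ℝ, 0 ≤ C₀ ∧ ∀ (M : ℕ) (q : ℤ × ℤ × ℤ) (j : ℕ), QAdm M q → 1 ≤ j → j ≤ 2 → ∀ p : ℕ, p.Prime → ¬ p ∣ 2 * q.1.natAbs →
    |mean 1 p (fun m => ch j (cosA p (qval q ((m 0 : ℕ) : ℤ))))| ≤ C₀ / Real.sqrt p := by
  obtain ⟨C, hC, h⟩ := quad_sum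
  refine ⟨C, hC, fun M q j hq hj1 hj2 p hp hpD => ?_⟩
  have hF : Fact p.Prime := ⟨hp⟩
  obtain ⟨_, _, h3⟩ := quad_exc M q hq
  obtain ⟨hp2, hα⟩ := h3 p hp hpD
  have hp0 : (0 : ℝ) < p := by exact_mod_cast hp.pos
  have hs := sq_pos' (p := p)
  rw [mean_one p _ (fun z => ch j (cz ((q.1 : ZMod p) * z ^ 2 + (q.2.1 : ZMod p) * z + (q.2.2 : ZMod p)))) (by
    intro m
    rw [cosA_eq, qval_cast]
    simp)]
  have h4 := h j hj1 hj2 p hF hp2 (q.1 : ZMod p) (q.2.1 : ZMod p) (q.2.2 : ZMod p) hα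
  rw [abs_div, abs_of_pos hp0, div_le_div_iff₀ hp0 hs]
  have htt : Real.sqrt p * Real.sqrt p = p := Real.mul_self_sqrt hp0.le
  calc |∑ z : ZMod p, ch j (cz ((q.1 : ZMod p) * z ^ 2 + (q.2.1 : ZMod p) * z + (q.2.2 : ZMod p)))| * Real.sqrt p ≤
        (C * Real.sqrt p) * Real.sqrt p := mul_le_mul_of_nonneg_right h4 hs.le
    _ = C * p := by rw [mul_assoc, htt]

theorem quad_Pr : ∃ C₀ : ℝ, 0 ≤ C₀ ∧ ∀ (M : ℕ) (q : ℤ × ℤ × ℤ), QAdm M q → ∀ p : ℕ, p.Prime → ¬ p ∣ 2 * q.1.natAbs →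
    ∀ σ : ℝ, (σ = 1 ∨ σ = -1) → ∀ η : ℝ, 0 ≤ η → (1 / 8 - η) - C₀ / Real.sqrt p ≤
    Pr 1 p (fun m => ¬ (p : ℤ) ∣ qval q ((m 0 : ℕ) : ℤ) ∧ η * Real.sqrt p < σ * kloosterman p (qval q ((m 0 : ℕ) : ℤ))) := by
  classical
  obtain ⟨C, hC, h⟩ := quad_sign
  refine ⟨C, hC, fun M q hq p hp hpD σ hσ η hη => ?_⟩
  have hF : Fact p.Prime := ⟨hp⟩
  obtain ⟨_, _, h3⟩ := quad_exc M q hq
  obtain ⟨hp2, hα⟩ := h3 p hp hpD
  have hp0 : (0 : ℝ) < p := by exact_mod_cast hp.pos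
  have hs := sq_pos' (p := p)
  have h4 := h p hF hp2 (q.1 : ZMod p) (q.2.1 : ZMod p) (q.2.2 : ZMod p) hα σ hσ η hη
  rw [← mean_ind, mean_one p _ (fun z => if ((q.1 : ZMod p) * z ^ 2 + (q.2.1 : ZMod p) * z + (q.2.2 : ZMod p) ≠ 0 ∧
    η * Real.sqrt p < σ * rk p ((q.1 : ZMod p) * z ^ 2 + (q.2.1 : ZMod p) * z + (q.2.2 : ZMod p)) 1) then (1 : ℝ) else 0) (by
    intro m
    have hiff : (¬ (p : ℤ) ∣ qval q ((m 0 : ℕ) : ℤ) ∧ η * Real.sqrt p < σ * kloosterman p (qval q ((m 0 : ℕ) : ℤ))) ↔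
        ((q.1 : ZMod p) * ((m 0 : ℕ) : ZMod p) ^ 2 + (q.2.1 : ZMod p) * ((m 0 : ℕ) : ZMod p) + (q.2.2 : ZMod p) ≠ 0 ∧
          η * Real.sqrt p < σ * rk p ((q.1 : ZMod p) * ((m 0 : ℕ) : ZMod p) ^ 2 + (q.2.1 : ZMod p) * ((m 0 : ℕ) : ZMod p) + (q.2.2 : ZMod p)) 1) := by
      rw [kloosterman_eq, ← ZMod.intCast_zmod_eq_zero_iff_dvd, qval_cast, Int.cast_natCast]
    by_cases hT : (¬ (p : ℤ) ∣ qval q ((m 0 : ℕ) : ℤ) ∧ η * Real.sqrt p < σ * kloosterman p (qval q ((m 0 : ℕ) : ℤ)))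
    · rw [if_pos hT, if_pos (hiff.1 hT)]
    · rw [if_neg hT, if_neg (fun h => hT (hiff.2 h))])]
  rw [← sum_filter, sum_const, nsmul_eq_mul, mul_one, le_div_iff₀ hp0]
  refine le_trans (le_of_eq ?_) h4
  have htt : Real.sqrt p * Real.sqrt p = p := Real.mul_self_sqrt hp0.le
  have : C / Real.sqrt p * p = C * Real.sqrt p := by
    rw [div_mul_eq_mul_div, div_eq_iff hs.ne', mul_assoc, htt]
  rw [sub_mul, this]

/-- a finite set of quadratic polynomials -/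
noncomputable def qset (M : ℕ) : Finset (ℤ × ℤ × ℤ) := (Icc (-(M : ℤ)) M) ×ˢ ((Icc (-(M : ℤ)) M) ×ˢ (Icc (-(M : ℤ)) M))

theorem card_qset (n B : ℕ) (hn : 2 ≤ n) : (qset (n ^ B)).card ≤ n ^ (3 * B + 6) := by
  unfold qset
  simp only [card_product, Int.card_Icc]
  have h1 : (((n ^ B : ℕ) : ℤ) + 1 - -((n ^ B : ℕ) : ℤ)).toNat = 2 * n ^ B + 1 := by
    have : (((n ^ B : ℕ) : ℤ) + 1 - -((n ^ B : ℕ) : ℤ)) = ((2 * n ^ B + 1 : ℕ) : ℤ) := by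
      push_cast
      ring
    rw [this, Int.toNat_natCast]
  rw [h1]
  have h2 : 2 * n ^ B + 1 ≤ n ^ (B + 2) := by
    have h3 : 1 ≤ n ^ B := Nat.one_le_pow _ _ (by omega)
    calc 2 * n ^ B + 1 ≤ n ^ B * 2 ^ 2 := by omega
      _ ≤ n ^ B * n ^ 2 := Nat.mul_le_mul_left _ (Nat.pow_le_pow_left hn 2)
      _ = n ^ (B + 2) := by ring
  calc (2 * n ^ B + 1) * ((2 * n ^ B + 1) * (2 * n ^ B + 1)) ≤ n ^ (B + 2) * (n ^ (B + 2) * n ^ (B + 2)) := by gcongr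
    _ = n ^ (3 * B + 6) := by ring

theorem mem_qset (M : ℕ) (q : ℤ × ℤ × ℤ) (h : QAdm M q) : q ∈ qset M := by
  obtain ⟨_, h1, h2, h3⟩ := h
  unfold qset
  rw [mem_product, mem_product, mem_Icc, mem_Icc, mem_Icc]
  exact ⟨abs_le.1 h1, abs_le.1 h2, abs_le.1 h3⟩

/-- **Weyl sums at the values of quadratic polynomials.** -/
theorem quadW (b s : ℕ) (hb : 2 ≤ b) (hs : 1 ≤ s) (δ : ℝ) (hδ : 0 < δ) (A B : ℕ) : ∃ c : ℝ, 0 < c ∧ ∃ y₀ : ℕ,
    ∀ r K y : ℕ, 2 * r ≤ K → y₀ ≤ y → ∀ N : ℕ, N < b ^ K → ∀ f : ℕ → ℕ, (∀ j, f j < b ∧ f j ≠ Pool.Agent.Y57.FD.digit b j N) →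
    ∀ W : ℕ → Set (ℕ → ℝ), (∀ n, (W n).Finite ∧ (W n).ncard ≤ n ^ B) → (∀ n, ∀ w ∈ W n, ∀ k, |w k| ≤ 1) →
    ∀ E : ℕ → Prop, (∀ m : ℕ, (∀ n : ℕ, 2 ≤ n → y ≤ n → (n : ℝ) ≤ Real.exp (c * r) → ∀ w ∈ W n, ∀ q : Fin s → ℤ × ℤ × ℤ, ∀ j : Fin s → ℕ,
      (∀ i, QAdm (n ^ B) (q i)) → (∀ i, j i ≤ 2) → (∃ i, j i ≠ 0) →
      |∑ k ∈ range n, w k * ∏ i : Fin s, ch (j i) (cosA (pr (k + i)) (qval (q i) (m : ℤ)))| ≤
        Real.sqrt (max 1 (∑ k ∈ range n, w k ^ 2)) * (n : ℝ) ^ δ) → E m) →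
    (Pool.Agent.Y57.FD.exceptions b (fun _ : Fin 1 => K) (fun _ => r) (fun _ => N) (fun _ => f) (fun m => E (m 0)) : ℝ) ≤
      1 / (y : ℝ) ^ A * (K.choose r : ℝ) := by
  classical
  obtain ⟨C₀, hC₀, hmean⟩ := quad_mean
  obtain ⟨c, hc, y₁, h⟩ := tuplesD b 1 s hb le_rfl hs δ hδ A (B + s * (3 * B + 8)) (B + 1) 70 C₀ (by norm_num) hC₀
  refine ⟨c, hc, y₁, fun r K y hrK hy N hN f hf W hW hW1 E hE => ?_⟩
  have hWf : ∀ n, (W n).Finite := fun n => (hW n).1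
  have hchoose : (∏ l : Fin 1, ((K.choose r : ℕ) : ℝ)) = (K.choose r : ℝ) := by
    rw [prod_const, card_univ, Fintype.card_fin, pow_one]
  rw [← hchoose]
  refine h (fun _ => K) (fun _ => r) y (fun _ => hrK) hy (fun _ => N) (fun _ => hN) (fun _ => f) (fun _ => hf)
    ((ℕ → ℝ) × (Fin s → ℕ × (ℤ × ℤ × ℤ))) (fun n => (hWf n).toFinset ×ˢ ((Fintype.piFinset (fun _ : Fin s => (range 3) ×ˢ qset (n ^ B))).filter
      (fun g => (∀ i, QAdm (n ^ B) (g i).2) ∧ ∃ i, (g i).1 ≠ 0))) ?_ (fun l => l.1) ?_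
    (fun l i p m => if (l.2 i).1 ≤ 2 then ch (l.2 i).1 (cosA p (qval (l.2 i).2 ((m 0 : ℕ) : ℤ))) else 0) ?_ ?_ ?_ (fun m => E (m 0)) ?_
  · intro n hn
    rw [card_product, ← Set.ncard_eq_toFinset_card _ (hWf n), pow_add]
    apply Nat.mul_le_mul (hW n).2
    refine (card_filter_le _ _).trans ?_
    rw [Fintype.card_piFinset_const, card_product, card_range]
    have h3 : 3 ≤ n ^ 2 := by
      calc 3 ≤ 2 ^ 2 := by norm_num
        _ ≤ n ^ 2 := Nat.pow_le_pow_left hn 2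
    calc (3 * (qset (n ^ B)).card) ^ s ≤ (n ^ 2 * n ^ (3 * B + 6)) ^ s := Nat.pow_le_pow_left (Nat.mul_le_mul h3 (card_qset n B hn)) s
      _ = n ^ (s * (3 * B + 8)) := by
          rw [← pow_add, ← pow_mul]
          congr 1
          ring
  · intro n l hl k
    rw [mem_product, Set.Finite.mem_toFinset] at hl
    exact hW1 n l.1 hl.1 k
  · intro l i p hp m
    have hF : Fact p.Prime := ⟨hp⟩
    have h1 : cosA p (qval (l.2 i).2 ((m 0 : ℕ) : ℤ)) = cosA p (qval (l.2 i).2 ((m 0 % p : ℕ) : ℤ)) := by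
      rw [cosA_eq, cosA_eq, qval_mod]
    show (if (l.2 i).1 ≤ 2 then ch (l.2 i).1 (cosA p (qval (l.2 i).2 ((m 0 : ℕ) : ℤ))) else 0) =
      (if (l.2 i).1 ≤ 2 then ch (l.2 i).1 (cosA p (qval (l.2 i).2 ((m 0 % p : ℕ) : ℤ))) else 0)
    rw [h1]
  · intro l i p hp m
    show |(if (l.2 i).1 ≤ 2 then ch (l.2 i).1 (cosA p (qval (l.2 i).2 ((m 0 : ℕ) : ℤ))) else 0)| ≤ 70
    split_ifs with h1
    · exact U_le _ (h1.trans (by norm_num)) (cosA_le hp _)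
    · rw [abs_zero]
      norm_num
  · intro n hn l hl
    rw [mem_product, mem_filter, Fintype.mem_piFinset] at hl
    obtain ⟨_, hmem, hadm, i, hi⟩ := hl
    have hj := hmem i
    rw [mem_product, mem_range] at hj
    obtain ⟨h3, h4, _⟩ := quad_exc (n ^ B) (l.2 i).2 (hadm i)
    refine ⟨i, 2 * (l.2 i).2.1.natAbs, h3, h4.trans ?_, fun p hp hpD => ?_⟩
    · calc 2 * n ^ B ≤ n * n ^ B := Nat.mul_le_mul_right _ hn
        _ = n ^ (B + 1) := by ring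
    · have h5 := hmean (n ^ B) (l.2 i).2 (l.2 i).1 (hadm i) (Nat.one_le_iff_ne_zero.2 hi) (by omega) p hp hpD
      have e : (fun m : Fin 1 → ℕ => if (l.2 i).1 ≤ 2 then ch (l.2 i).1 (cosA p (qval (l.2 i).2 ((m 0 : ℕ) : ℤ))) else 0) =
          fun m => ch (l.2 i).1 (cosA p (qval (l.2 i).2 ((m 0 : ℕ) : ℤ))) := by
        funext m
        rw [if_pos (by omega)]
      show |mean 1 p (fun m : Fin 1 → ℕ => if (l.2 i).1 ≤ 2 then ch (l.2 i).1 (cosA p (qval (l.2 i).2 ((m 0 : ℕ) : ℤ))) else 0)| ≤ _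
      rw [e]
      exact h5
  · intro m hm
    refine hE (m 0) fun n hn hyn hnr w hw q j hq hj hj0 => ?_
    have h1 := hm n hn hyn (fun _ => hnr) (w, fun i => (j i, q i)) (by
      rw [mem_product, Set.Finite.mem_toFinset, mem_filter, Fintype.mem_piFinset]
      refine ⟨hw, fun i => ?_, hq, hj0⟩
      rw [mem_product, mem_range]
      exact ⟨by show j i < 3; have := hj i; omega, mem_qset _ _ (hq i)⟩)
    refine le_trans (le_of_eq ?_) h1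
    congr 1
    refine sum_congr rfl fun k _ => ?_
    congr 1
    refine prod_congr rfl fun i _ => ?_
    exact (if_pos (hj i)).symm

/-- **Signs at the values of quadratic polynomials.** -/
theorem quadS (b s : ℕ) (hb : 2 ≤ b) (hs : 1 ≤ s) (η ε : ℝ) (hη : 0 ≤ η) (hη1 : η ≤ 1 / 8) (hε : 0 < ε) (A B : ℕ) : ∃ c : ℝ, 0 < c ∧ ∃ y₀ : ℕ,
    ∀ r K y : ℕ, 2 * r ≤ K → y₀ ≤ y → ∀ N : ℕ, N < b ^ K → ∀ f : ℕ → ℕ, (∀ j, f j < b ∧ f j ≠ Pool.Agent.Y57.FD.digit b j N) →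
    ∀ E : ℕ → Prop, (∀ m : ℕ, (∀ n : ℕ, 2 ≤ n → y ≤ n → (n : ℝ) ≤ Real.exp (c * r) → ∀ q : Fin s → ℤ × ℤ × ℤ,
      (∀ i, QAdm (n ^ B) (q i)) → ∀ σ : Fin s → ℝ, (∀ i, σ i = 1 ∨ σ i = -1) →
      ((1 / 8 - η) ^ s - ε) * n ≤ cntT (d := 1) (fun i p m => ¬ (p : ℤ) ∣ qval (q i) ((m 0 : ℕ) : ℤ) ∧
        η * Real.sqrt p < σ i * kloosterman p (qval (q i) ((m 0 : ℕ) : ℤ))) n (fun _ => m)) → E m) →
    (Pool.Agent.Y57.FD.exceptions b (fun _ : Fin 1 => K) (fun _ => r) (fun _ => N) (fun _ => f) (fun m => E (m 0)) : ℝ) ≤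
      1 / (y : ℝ) ^ A * (K.choose r : ℝ) := by
  classical
  obtain ⟨C₀, hC₀, hPr⟩ := quad_Pr
  obtain ⟨c, hc, y₁, h⟩ := tuplesP b 1 s hb le_rfl hs A (s * (3 * B + 6) + s) ((B + 1) * s) (1 / 8 - η) C₀ ε
    (by linarith) (by linarith) hε
  refine ⟨c, hc, y₁, fun r K y hrK hy N hN f hf E hE => ?_⟩
  have hchoose : (∏ l : Fin 1, ((K.choose r : ℕ) : ℝ)) = (K.choose r : ℝ) := by
    rw [prod_const, card_univ, Fintype.card_fin, pow_one]
  rw [← hchoose]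
  refine h (fun _ => K) (fun _ => r) y (fun _ => hrK) hy (fun _ => N) (fun _ => hN) (fun _ => f) (fun _ => hf)
    ((Fin s → ℤ × ℤ × ℤ) × (Fin s → ℝ)) (fun n => ((Fintype.piFinset (fun _ : Fin s => qset (n ^ B))).filter
      (fun g => ∀ i, QAdm (n ^ B) (g i))) ×ˢ Fintype.piFinset (fun _ : Fin s => ({1, -1} : Finset ℝ))) ?_
    (fun l i p m => ¬ (p : ℤ) ∣ qval (l.1 i) ((m 0 : ℕ) : ℤ) ∧
        η * Real.sqrt p < l.2 i * kloosterman p (qval (l.1 i) ((m 0 : ℕ) : ℤ))) ?_ ?_ (fun m => E (m 0)) ?_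
  · intro n hn
    rw [card_product, pow_add]
    apply Nat.mul_le_mul
    · refine (card_filter_le _ _).trans ?_
      rw [Fintype.card_piFinset_const]
      calc ((qset (n ^ B)).card) ^ s ≤ (n ^ (3 * B + 6)) ^ s := Nat.pow_le_pow_left (card_qset n B hn) s
        _ = n ^ (s * (3 * B + 6)) := by rw [← pow_mul, mul_comm]
    · rw [Fintype.card_piFinset_const]
      have h3 : ({1, -1} : Finset ℝ).card ≤ n := (card_le_two).trans hn
      exact Nat.pow_le_pow_left h3 s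
  · intro l i p hp m
    have hF : Fact p.Prime := ⟨hp⟩
    show (¬ (p : ℤ) ∣ qval (l.1 i) ((m 0 : ℕ) : ℤ) ∧ η * Real.sqrt p < l.2 i * kloosterman p (qval (l.1 i) ((m 0 : ℕ) : ℤ))) ↔
      (¬ (p : ℤ) ∣ qval (l.1 i) ((m 0 % p : ℕ) : ℤ) ∧ η * Real.sqrt p < l.2 i * kloosterman p (qval (l.1 i) ((m 0 % p : ℕ) : ℤ)))
    rw [kloosterman_eq, kloosterman_eq, ← ZMod.intCast_zmod_eq_zero_iff_dvd, ← ZMod.intCast_zmod_eq_zero_iff_dvd, qval_mod]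
  · intro n hn l hl
    rw [mem_product, mem_filter, Fintype.mem_piFinset, Fintype.mem_piFinset] at hl
    refine ⟨∏ i, (2 * (l.1 i).1.natAbs), prod_pos fun i _ => (quad_exc (n ^ B) (l.1 i) (hl.1.2 i)).1, ?_, fun i p hp hpD => ?_⟩
    · calc ∏ i, (2 * (l.1 i).1.natAbs) ≤ ∏ _i : Fin s, n ^ (B + 1) := by
            apply prod_le_prod' fun i _ => ?_
            refine (quad_exc (n ^ B) (l.1 i) (hl.1.2 i)).2.1.trans ?_
            calc 2 * n ^ B ≤ n * n ^ B := Nat.mul_le_mul_right _ hn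
              _ = n ^ (B + 1) := by ring
        _ = n ^ ((B + 1) * s) := by rw [prod_const, card_univ, Fintype.card_fin, ← pow_mul]
    · have hσ : l.2 i = 1 ∨ l.2 i = -1 := by
        have := hl.2 i
        rw [mem_insert, mem_singleton] at this
        exact this
      exact hPr (n ^ B) (l.1 i) (hl.1.2 i) p hp (fun h1 => hpD (h1.trans (dvd_prod_of_mem _ (mem_univ i)))) (l.2 i) hσ η hη
  · intro m hm
    refine hE (m 0) fun n hn hyn hnr q hq σ hσ => ?_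
    have h1 := hm n hn hyn (fun _ => hnr) (q, σ) (by
      rw [mem_product, mem_filter, Fintype.mem_piFinset, Fintype.mem_piFinset]
      refine ⟨⟨fun i => mem_qset _ _ (hq i), hq⟩, fun i => ?_⟩
      rw [mem_insert, mem_singleton]
      exact hσ i)
    exact h1

end Pool.Agent.K7.H79.KL
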